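import Pool.Agent.Lib.MP_d42622_al.Core4

/-!
The functionals built from supertraces and the proof that the linear part is acyclic.
-/

namespace Pool.Agent.Lib.MP_d42622_al

open Finset

namespace CoreData

variable {k 𝔾 P Λ I : Type*} [Field k] [CommRing 𝔾] [Algebra k 𝔾]
    [AddCommGroup P] [Module 𝔾 P] [Module k P] [IsScalarTower k 𝔾 P]
    (D : CoreData k 𝔾 P Λ I)

theorem cj_ee {l : I} (hl : D.dg l = 1) : D.V.cj (D.ee l) = - D.ee l := (D.ee_hm1 hl).cj_odd

/-- The strand used for the supertraces. -/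
def pp : ℕ := D.p₀ + 1

/-- The functionals `S w` on operators. -/
noncomputable def S : ℕ → (Module.End k P →ₗ[k] 𝔾)
  | 0 => Algebra.linearMap k 𝔾 ∘ₗ D.V.str D.pp
  | w + 1 => ∑ l ∈ D.deg 1, LinearMap.mulLeft k (D.xx l) ∘ₗ (S w) ∘ₗ
      LinearMap.mulLeft k (D.ee l * D.kap)

theorem S_zero (φ : Module.End k P) : D.S 0 φ = algebraMap k 𝔾 (D.V.str D.pp φ) := rfl

theorem S_succ (w : ℕ) (φ : Module.End k P) :
    D.S (w + 1) φ = ∑ l ∈ D.deg 1, D.xx l * D.S w (D.ee l * D.kap * φ) := by
  simp [S, LinearMap.sum_apply, mul_assoc]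

theorem S_low (w : ℕ) {φ : Module.End k P} (h : D.Low φ) : D.S w φ = 0 := by
  induction w generalizing φ with
  | zero => rw [S_zero, h.str_eq_zero (by unfold pp; push_cast; omega), map_zero]
  | succ w ih =>
    rw [S_succ]
    apply Finset.sum_eq_zero
    intro l hl
    rw [mem_deg] at hl
    rw [ih, mul_zero]
    exact h.mul_left ((D.ee_hm1 hl).mul D.kap_hm (a'' := 0) (b'' := -1) (by norm_num)
      (by norm_num)) (by norm_num)

theorem ee_kap_br {l : I} (hl : D.dg l = 1) (φ : Module.End k P) :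
    D.ee l * D.kap * D.br φ = D.ee l * φ + D.ee l * (D.RR * φ) + D.br (D.ee l * D.kap * φ) := by
  have h1 : D.V.cj (D.ee l * D.kap * φ) = D.ee l * D.kap * D.V.cj φ := by
    rw [D.V.cj_mul, D.V.cj_mul, D.cj_ee hl, cj_kap]
    noncomm_ring
  unfold br
  rw [h1]
  have h2 : D.ee l * D.kap * (D.pd * φ - D.V.cj φ * D.pd) =
      D.ee l * (D.kap * D.pd) * φ - D.ee l * D.kap * D.V.cj φ * D.pd := by noncomm_ring
  have h3 : D.pd * (D.ee l * D.kap * φ) = - (D.ee l * D.pd) * D.kap * φ := by
    rw [D.ee_pd1 hl]; noncomm_ring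
  rw [h2, h3, kap_pd]
  noncomm_ring

theorem S_br (w : ℕ) (φ : Module.End k P) :
    D.S (w + 1) (D.br φ) = ∑ l ∈ D.deg 1, D.xx l * D.S w (D.ee l * φ) := by
  have key : ∀ w φ, D.S (w + 1) (D.br φ) = ∑ l ∈ D.deg 1, D.xx l * D.S w (D.ee l * φ) +
      ∑ l ∈ D.deg 1, D.xx l * D.S w (D.br (D.ee l * D.kap * φ)) := by
    intro w φ
    rw [S_succ, ← Finset.sum_add_distrib]
    apply Finset.sum_congr rfl
    intro l hl
    rw [mem_deg] at hl
    rw [D.ee_kap_br hl, map_add, map_add, D.S_low w ((D.RR_low.mul_right φ).mul_left (D.ee_hm1 hl)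
      (by norm_num)), add_zero, mul_add]
  induction w generalizing φ with
  | zero =>
    rw [key, add_eq_left]
    apply Finset.sum_eq_zero
    intro l _
    rw [S_zero, str_br, map_zero, mul_zero]
  | succ w ih =>
    rw [key, add_eq_left]
    have h1 : ∀ l ∈ D.deg 1, D.xx l * D.S (w + 1) (D.br (D.ee l * D.kap * φ)) =
        ∑ l' ∈ D.deg 1, (D.xx l * D.xx l') * D.S w (D.ee l' * D.ee l * (D.kap * φ)) := by
      intro l _
      rw [ih, Finset.mul_sum]
      apply Finset.sum_congr rfl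
      intro l' _
      rw [mul_assoc (D.xx l)]
      simp only [mul_assoc]
    rw [Finset.sum_congr rfl h1]
    exact D.mc (D.S w) (D.kap * φ)

theorem S_mul_ee (w : ℕ) (φ : Module.End k P) :
    ∑ l ∈ D.deg 1, D.xx l * D.S (w + 1) (φ * D.ee l) = 0 := by
  induction w generalizing φ with
  | zero =>
    have h1 : ∀ l ∈ D.deg 1, D.xx l * D.S 1 (φ * D.ee l) =
        - ∑ l' ∈ D.deg 1, (D.xx l' * D.xx l) *
          (Algebra.linearMap k 𝔾 ∘ₗ D.V.str ((D.pp : ℤ) - 1)) (D.ee l * D.ee l' * (D.kap * φ)) := by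
      intro l hl
      rw [mem_deg] at hl
      rw [show (1 : ℕ) = 0 + 1 from rfl, S_succ, Finset.mul_sum, ← Finset.sum_neg_distrib]
      apply Finset.sum_congr rfl
      intro l' _
      rw [S_zero, ← mul_assoc (D.ee l' * D.kap) φ (D.ee l),
        (D.ee_hm1 hl).str_mul (D.ee l' * D.kap * φ) (j' := (D.pp : ℤ) - 1) (by ring)]
      rw [LinearMap.comp_apply, Algebra.linearMap_apply]
      simp only [zpow_neg, zpow_one, mul_assoc, map_mul]
      have : algebraMap k 𝔾 ((-1 : k)⁻¹) = -1 := by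
        rw [inv_neg, inv_one, map_neg, map_one]
      rw [this]
      ring
    rw [Finset.sum_congr rfl h1, Finset.sum_neg_distrib, Finset.sum_comm, D.mc, neg_zero]
  | succ w ih =>
    have h1 : ∀ l ∈ D.deg 1, D.xx l * D.S (w + 1 + 1) (φ * D.ee l) =
        ∑ l' ∈ D.deg 1, D.xx l' * (D.xx l * D.S (w + 1) ((D.ee l' * D.kap * φ) * D.ee l)) := by
      intro l _
      rw [S_succ, Finset.mul_sum]
      apply Finset.sum_congr rfl
      intro l' _
      rw [← mul_assoc (D.ee l' * D.kap) φ (D.ee l)]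
      ring
    rw [Finset.sum_congr rfl h1, Finset.sum_comm]
    apply Finset.sum_eq_zero
    intro l' _
    rw [← Finset.mul_sum, ih, mul_zero]

/-- The functionals `s w`. -/
noncomputable def ss : ℕ → (Module.End k P →ₗ[k] 𝔾)
  | 0 => Algebra.linearMap k 𝔾 ∘ₗ ∑ j ∈ range (D.pp + 1), D.V.str j
  | w + 1 => D.S (w + 1)

theorem ss_zero (φ : Module.End k P) :
    D.ss 0 φ = algebraMap k 𝔾 (∑ j ∈ range (D.pp + 1), D.V.str j φ) := by
  simp [ss]

theorem ss_succ (w : ℕ) (φ : Module.End k P) : D.ss (w + 1) φ = D.S (w + 1) φ := rfl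

theorem telescope (f : ℤ → k) (h : f (-1) = 0) (p : ℕ) :
    ∑ j ∈ range (p + 1), (f j - f (j - 1)) = f p := by
  induction p with
  | zero => simp [h]
  | succ p ih =>
    rw [Finset.sum_range_succ, ih]
    push_cast
    rw [add_sub_cancel_right]
    ring

theorem ss_zero_ad {l : I} (hl : D.dg l = 1) (φ : Module.End k P) :
    D.ss 0 (D.ad l φ) = D.S 0 (D.ee l * φ) := by
  rw [ss_zero, S_zero]
  congr 1
  rw [← telescope (fun j => D.V.str j (D.ee l * φ)) (D.str_neg _ (by norm_num)) D.pp]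
  apply Finset.sum_congr rfl
  intro j _
  unfold ad
  rw [map_sub, (D.ee_hm1 hl).str_cj_mul φ (j' := (j : ℤ) - 1) (by ring)]

theorem S_br' (w : ℕ) (φ : Module.End k P) :
    D.S (w + 1) (D.br φ) = ∑ l ∈ D.deg 1, D.xx l * D.ss w (D.ad l φ) := by
  rw [S_br]
  cases w with
  | zero =>
    apply Finset.sum_congr rfl
    intro l hl
    rw [mem_deg] at hl
    rw [D.ss_zero_ad hl]
  | succ w =>
    have h1 : ∀ l ∈ D.deg 1, D.xx l * D.ss (w + 1) (D.ad l φ) =
        D.xx l * D.S (w + 1) (D.ee l * φ) - D.xx l * D.S (w + 1) (D.V.cj φ * D.ee l) := by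
      intro l _
      rw [ss_succ]
      unfold ad
      rw [map_sub, mul_sub]
    rw [Finset.sum_congr rfl h1, Finset.sum_sub_distrib, S_mul_ee, sub_zero]

theorem br_lam (y : P) : D.br (D.lam y) = D.lam (D.pd y) := by
  unfold br
  rw [cj_lam, pd_lam, add_sub_cancel_right]

theorem ad_lam {l : I} (hl : D.dg l = 1) (y : P) : D.ad l (D.lam y) = D.lam (D.ee l y) := by
  unfold ad
  rw [cj_lam, D.ee_lam hl, add_sub_cancel_right]

theorem rigid (w : ℕ) (t : 𝔾) (ht : t ∈ D.GG w) : D.ss w (D.lam (t • D.X D.o)) = t := by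
  induction w generalizing t with
  | zero =>
    obtain ⟨r, rfl⟩ := D.exists_algebraMap (by simpa using ht)
    rw [algebraMap_smul, map_smul, lam_one, ss_zero]
    simp only [map_smul, smul_eq_mul]
    rw [← Finset.mul_sum, D.euler' (by unfold pp; omega), mul_one]
  | succ w ih =>
    obtain ⟨y, hy, hdy⟩ := D.exact_zero w t (fun a ha => by
      have := D.mem_GG.1 ht a ha
      exact_mod_cast this)
    have hy' : y ∈ D.V.PP 1 w := by
      rw [mem_PP]
      intro β a h
      have := hy β a h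
      omega
    rw [ss_succ, ← hdy, ← pd_apply, ← br_lam, S_br']
    apply D.smul_X_o_injective
    rw [← hdy, D.del_one hy', Finset.sum_smul]
    apply Finset.sum_congr rfl
    intro l hl
    rw [mem_deg] at hl
    rw [D.ad_lam hl, ee_apply, D.E_one hl hy', ih _ ((D.mem_PP_iff.1 hy').1 l), smul_smul]

theorem S_mem (w : ℕ) (φ : Module.End k P) : D.S w φ ∈ D.GG w := by
  induction w generalizing φ with
  | zero => rw [S_zero]; exact_mod_cast D.algebraMap_mem _
  | succ w ih =>
    rw [S_succ]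
    apply Submodule.sum_mem
    intro l hl
    rw [mem_deg] at hl
    exact D.GG_mul (D.xx_mem hl) (ih _) (by push_cast; ring)

theorem ss_mem (w : ℕ) (φ : Module.End k P) : D.ss w φ ∈ D.GG w := by
  cases w with
  | zero => rw [ss_zero]; exact_mod_cast D.algebraMap_mem _
  | succ w => exact D.S_mem (w + 1) φ

/-- Products of contraction operators of degree one. -/
noncomputable def ew : List {l : I // D.dg l = 1} → Module.End k P
  | [] => 1
  | l :: v => D.ee l.1 * ew v

/-- Iterated supercommutators. -/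
noncomputable def adw : List {l : I // D.dg l = 1} → Module.End k P → Module.End k P
  | [], φ => φ
  | l :: v, φ => D.ad l.1 (adw v φ)

theorem ew_cons (l : {l : I // D.dg l = 1}) (v : List {l : I // D.dg l = 1}) :
    D.ew (l :: v) = D.ee l.1 * D.ew v := rfl

theorem adw_cons (l : {l : I // D.dg l = 1}) (v : List {l : I // D.dg l = 1})
    (φ : Module.End k P) : D.adw (l :: v) φ = D.ad l.1 (D.adw v φ) := rfl

theorem ad_add (l : I) (φ ψ : Module.End k P) : D.ad l (φ + ψ) = D.ad l φ + D.ad l ψ := by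
  unfold ad; rw [D.V.cj_add]; noncomm_ring

theorem adw_add (v : List {l : I // D.dg l = 1}) (φ ψ : Module.End k P) :
    D.adw v (φ + ψ) = D.adw v φ + D.adw v ψ := by
  induction v with
  | nil => rfl
  | cons l v ih => rw [adw_cons, ih, ad_add]; rfl

theorem adw_Ups (v : List {l : I // D.dg l = 1}) (ψ : Module.End k P) :
    D.adw v (D.Ups ψ) = D.Ups (D.ew v * ψ) := by
  induction v with
  | nil => rw [ew, one_mul]; rfl
  | cons l v ih => rw [adw_cons, ih, D.ad_Ups l.2, ew_cons, mul_assoc]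

theorem adw_lam (v : List {l : I // D.dg l = 1}) (y : P) :
    D.adw v (D.lam y) = D.lam (D.ew v y) := by
  induction v with
  | nil => rfl
  | cons l v ih => rw [adw_cons, ih, D.ad_lam l.2, ew_cons]; rfl

theorem ad_br {l : I} (hl : D.dg l = 1) (φ : Module.End k P) :
    D.ad l (D.br φ) = - D.br (D.ad l φ) := by
  have h1 : D.V.cj (D.br φ) = - (D.pd * D.V.cj φ) + φ * D.pd := by
    unfold br
    rw [D.V.cj_sub, D.V.cj_mul, D.V.cj_mul, cj_pd, D.V.cj_cj]
    noncomm_ring
  have h2 : D.V.cj (D.ad l φ) = - (D.ee l * D.V.cj φ) + φ * D.ee l := by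
    unfold ad
    rw [D.V.cj_sub, D.V.cj_mul, D.V.cj_mul, D.cj_ee hl, D.V.cj_cj]
    noncomm_ring
  have h3 : D.ad l (D.br φ) + D.br (D.ad l φ) =
      (D.ee l * D.pd + D.pd * D.ee l) * φ - φ * (D.ee l * D.pd + D.pd * D.ee l) := by
    have e1 : D.ad l (D.br φ) = D.ee l * D.br φ - D.V.cj (D.br φ) * D.ee l := rfl
    have e2 : D.br (D.ad l φ) = D.pd * D.ad l φ - D.V.cj (D.ad l φ) * D.pd := rfl
    rw [e1, e2, h1, h2]
    unfold br ad
    noncomm_ring
  have h4 : D.ee l * D.pd + D.pd * D.ee l = 0 := by rw [D.ee_pd1 hl]; simp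
  rw [h4, zero_mul, mul_zero, sub_zero] at h3
  exact eq_neg_of_add_eq_zero_left h3

theorem br_neg (φ : Module.End k P) : D.br (-φ) = - D.br φ := by
  unfold br; rw [D.V.cj_neg]; noncomm_ring

theorem br_smul_pow (n : ℕ) (φ : Module.End k P) :
    D.br (((-1 : k) ^ n) • φ) = ((-1 : k) ^ n) • D.br φ := by
  rcases Nat.even_or_odd n with h | h <;> simp [h, br_neg]

theorem ad_smul_pow (l : I) (n : ℕ) (φ : Module.End k P) :
    D.ad l (((-1 : k) ^ n) • φ) = ((-1 : k) ^ n) • D.ad l φ := by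
  have h : D.ad l (-φ) = - D.ad l φ := by
    unfold ad; rw [D.V.cj_neg]; noncomm_ring
  rcases Nat.even_or_odd n with h' | h' <;> simp [h', h]

theorem adw_br (v : List {l : I // D.dg l = 1}) (φ : Module.End k P) :
    D.adw v (D.br φ) = ((-1 : k) ^ v.length) • D.br (D.adw v φ) := by
  induction v with
  | nil => simp [adw]
  | cons l v ih =>
    rw [adw_cons, ih, ad_smul_pow, D.ad_br l.2, List.length_cons, pow_succ, mul_neg_one, neg_smul,
      smul_neg]
    rfl

theorem ad_low {l : I} (hl : D.dg l = 1) {φ : Module.End k P} (h : D.Low φ) :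
    D.Low (D.ad l φ) :=
  (h.mul_left (D.ee_hm1 hl) (by norm_num)).sub (h.cj.mul_right _)

theorem adw_low (v : List {l : I // D.dg l = 1}) {φ : Module.End k P} (h : D.Low φ) :
    D.Low (D.adw v φ) := by
  induction v with
  | nil => exact h
  | cons l v ih => exact D.ad_low l.2 ih

theorem ew_hm (v : List {l : I // D.dg l = 1}) : D.V.Hm (-(v.length : ℤ)) 0 (D.ew v) := by
  induction v with
  | nil => simpa [ew] using Bigr.Hm.one
  | cons l v ih =>
    rw [ew_cons]
    exact (D.ee_hm1 l.2).mul ih (by rw [List.length_cons]; push_cast; ring) (by norm_num)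

theorem ew_pd (v : List {l : I // D.dg l = 1}) :
    D.ew v * D.pd = ((-1 : k) ^ v.length) • (D.pd * D.ew v) := by
  induction v with
  | nil => simp [ew]
  | cons l v ih =>
    rw [ew_cons, mul_assoc, ih, mul_smul_comm, ← mul_assoc, D.ee_pd1 l.2, List.length_cons,
      pow_succ, mul_neg_one, neg_smul, neg_mul, smul_neg, mul_assoc]

/-- The `𝔾`-linear version of `ew`. -/
noncomputable def Ew : List {l : I // D.dg l = 1} → (P →ₗ[𝔾] P)
  | [] => LinearMap.id
  | l :: v => D.E l.1 ∘ₗ Ew v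

theorem op_Ew (v : List {l : I // D.dg l = 1}) : (op (D.Ew v) : Module.End k P) = D.ew v := by
  induction v with
  | nil => rfl
  | cons l v ih =>
    rw [ew_cons, ← ih]
    rfl

theorem Ew_apply (v : List {l : I // D.dg l = 1}) (x : P) : D.Ew v x = D.ew v x := by
  rw [← op_Ew]; rfl

/-- Words of length `i` detect the elements of degree `i`. -/
theorem detect_word (i : ℕ) (w : ℤ) (x : P) (hx : x ∈ D.V.PP i w)
    (h : ∀ v : List {l : I // D.dg l = 1}, v.length = i → D.ew v x = 0) : x = 0 := by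
  have key : ∀ j ≤ i, ∀ v : List {l : I // D.dg l = 1}, v.length = j → D.ew v x = 0 := by
    intro j hj
    induction hj using Nat.decreasingInduction with
    | self => exact h
    | of_succ j hj ih =>
      intro v hv
      have h1 : D.ew v x ∈ D.V.PP ((i - j : ℕ) : ℤ) w := by
        rw [Nat.cast_sub hj.le]
        exact (D.ew_hm v).apply hx (by rw [hv]; ring) (by ring)
      apply D.detect (i - j) (by omega) w _ h1
      intro l hl
      have h2 := ih (⟨l, hl⟩ :: v) (by rw [List.length_cons, hv])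
      exact h2
  exact key 0 (Nat.zero_le _) [] rfl

/-- The linear part is exact in positive degree and positive weight. -/
theorem exact_pos (i w : ℕ) (z : P) (hz : z ∈ D.V.PP i ((w : ℤ) + 1)) (hd : D.del z = 0) :
    ∃ y ∈ D.V.PP ((i : ℤ) + 1) w, D.del y = z := by
  set m : Module.End k P := D.kap * D.lam z with hm
  have hbr : D.br m = D.lam z + D.RR * D.lam z := by
    have h1 : D.V.cj m = - (D.kap * D.lam (D.V.ep z)) := by
      rw [hm, D.V.cj_mul, cj_kap, cj_lam]; noncomm_ring
    have h2 : D.lam (D.V.ep z) * D.pd = D.pd * D.lam z := by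
      rw [pd_lam, pd_apply, hd, map_zero, zero_add]
    unfold br
    rw [h1, neg_mul, sub_neg_eq_add, mul_assoc, h2, hm, ← mul_assoc, ← mul_assoc, ← add_mul,
      ← one_mul (D.lam z)]
    unfold RR
    noncomm_ring
  obtain ⟨ψ, hψ⟩ := D.Ups_surjective m
  set y : P := ∑ β ∈ D.deg (i + 1), D.ss w (D.Ups (D.ee β * ψ)) • D.X β with hy
  have hym : y ∈ D.V.PP ((i : ℤ) + 1) w := by
    apply Submodule.sum_mem
    intro β hβ
    rw [mem_deg] at hβ
    have := D.X_mem β
    rw [hβ] at this
    exact D.smul_mem (D.ss_mem w _) (by exact_mod_cast this) (by ring)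
  have hword : ∀ v : List {l : I // D.dg l = 1}, v.length = i + 1 →
      D.ew v y = D.ss w (D.adw v m) • D.X D.o := by
    intro v hv
    obtain ⟨c, hc1, hc2⟩ := D.expand (D.Ew v) (i + 1) (by
      intro β
      rw [Ew_apply]
      exact (D.ew_hm v).apply (D.X_mem β) (by rw [hv]; ring) (by norm_num)) (by
      intro x
      rw [Ew_apply, Ew_apply]
      have := LinearMap.congr_fun (D.ew_pd v) x
      rw [Module.End.mul_apply, LinearMap.smul_apply, Module.End.mul_apply, hv,
        neg_one_pow_smul (𝔾 := 𝔾)] at this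
      exact this)
    have e1 : D.ew v = ∑ β ∈ D.deg (i + 1), c β • D.ee β := by
      rw [← op_Ew, hc2]
      ext x
      simp only [op_apply, LinearMap.sum_apply, LinearMap.smul_apply, ee_apply, algebraMap_smul]
    have e2 : D.ew v y = ∑ β ∈ D.deg (i + 1),
        (D.ss w (D.Ups (D.ee β * ψ)) * algebraMap k 𝔾 (c β)) • D.X D.o := by
      rw [← Ew_apply, hy, map_sum]
      apply Finset.sum_congr rfl
      intro β hβ
      rw [mem_deg] at hβ
      rw [map_smul, hc1 β hβ, smul_smul]
    rw [e2, ← Finset.sum_smul, ← hψ, adw_Ups, e1, Finset.sum_mul, map_sum, map_sum]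
    congr 1
    apply Finset.sum_congr rfl
    intro β _
    rw [smul_mul_assoc, map_smul, map_smul, mul_comm, ← Algebra.smul_def]
  refine ⟨y, hym, ?_⟩
  rw [← sub_eq_zero]
  apply D.detect_word i ((w : ℤ) + 1)
  · exact Submodule.sub_mem _ (D.pd_hm.apply hym (by ring) (by ring)) hz
  · intro u hu
    rw [map_sub, sub_eq_zero]
    have h1 : D.ew u (D.del y) = ((-1 : k) ^ i) • D.del (D.ew u y) := by
      have := LinearMap.congr_fun (D.ew_pd u) y
      rw [Module.End.mul_apply, LinearMap.smul_apply, Module.End.mul_apply, hu] at this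
      exact this
    have h2 : D.ew u y ∈ D.V.PP 1 w := (D.ew_hm u).apply hym (by rw [hu]; ring) (by ring)
    have h3 : D.del (D.ew u y) = D.S (w + 1) (D.br (D.adw u m)) • D.X D.o := by
      rw [D.del_one h2, S_br', Finset.sum_smul]
      apply Finset.sum_congr rfl
      intro l hl
      rw [mem_deg] at hl
      have h4 := hword (⟨l, hl⟩ :: u) (by rw [List.length_cons, hu])
      rw [ew_cons, Module.End.mul_apply, adw_cons, ee_apply] at h4
      rw [h4, smul_smul]
    have h5 : D.br (D.adw u m) = ((-1 : k) ^ i) • D.adw u (D.br m) := by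
      rw [adw_br, hu, smul_smul, neg_one_pow_mul_self, one_smul]
    have h6 : D.ew u z ∈ D.V.PP 0 ((w : ℤ) + 1) :=
      (D.ew_hm u).apply hz (by rw [hu]; ring) (by ring)
    have h7 : D.S (w + 1) (D.adw u (D.br m)) • D.X D.o = D.ew u z := by
      rw [hbr, adw_add, map_add, D.S_low (w + 1) (D.adw_low u (D.RR_low.mul_right _)), add_zero,
        adw_lam]
      have h8 := D.PP_zero h6
      conv_lhs => rw [h8]
      rw [← ss_succ, D.rigid (w + 1) _ (by
        have := (D.mem_PP_iff.1 h6).1 D.o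
        exact_mod_cast this)]
      exact h8.symm
    rw [h1, h3, h5, map_smul, smul_assoc, smul_smul, neg_one_pow_mul_self, one_smul, h7]

end CoreData

end Pool.Agent.Lib.MP_d42622_al
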