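import Pool.Agent.Lib.MP_d42622_al.Defs

/-!
Elementwise form of the exactness of the strands of the linear part of a resolution.
-/

namespace Pool.Agent.Lib.MP_d42622_al

open IsLocalRing

universe u

namespace MinimalFreeResolution

variable {R : Type u} [CommRing R] [IsLocalRing R] {M : Type u} [AddCommGroup M] [Module R M]
variable (F : MinimalFreeResolution R M)

theorem mem_fil_zero (i : ℕ) (x : Fin (F.rank i) → R) : x ∈ F.fil i 0 := by
  unfold fil
  rw [pow_zero, Ideal.one_eq_top, Submodule.top_smul]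
  trivial

/-- The class of an element. -/
def linMk (i w : ℕ) : F.fil i w →ₗ[R] F.linPiece i w :=
  Submodule.mkQ ((F.fil i (w + 1)).submoduleOf (F.fil i w))

theorem linMk_surjective (i w : ℕ) (m : F.linPiece i w) : ∃ x, F.linMk i w x = m :=
  Submodule.Quotient.mk_surjective _ m

theorem linMk_eq_zero {i w : ℕ} (x : F.fil i w) :
    F.linMk i w x = 0 ↔ x.1 ∈ F.fil i (w + 1) :=
  Submodule.Quotient.mk_eq_zero ((F.fil i (w + 1)).submoduleOf (F.fil i w))

theorem linMap_linMk {i w : ℕ} (x : F.fil (i + 1) w) :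
    F.linMap i w (F.linMk (i + 1) w x) = F.linMk i (w + 1) ⟨F.d i x.1, F.d_mem_fil x.2⟩ := rfl

/-- Elementwise form of `LinExactAt`. -/
theorem linExactAt_iff (i : ℕ) : F.LinExactAt i ↔
    (∀ x, F.d i x ∈ F.fil i 2 → x ∈ F.fil (i + 1) 1) ∧
    ∀ w, ∀ x ∈ F.fil (i + 1) (w + 1), F.d i x ∈ F.fil i (w + 3) →
      ∃ y ∈ F.fil (i + 2) w, x - F.d (i + 1) y ∈ F.fil (i + 1) (w + 2) := by
  have key : ∀ (w : ℕ) (x : F.fil (i + 1) w),
      F.linMap i w (F.linMk (i + 1) w x) = 0 ↔ F.d i x.1 ∈ F.fil i (w + 2) := by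
    intro w x
    rw [linMap_linMk, linMk_eq_zero]
  have key2 : ∀ (w : ℕ) (y : F.fil (i + 2) w) (x : F.fil (i + 1) (w + 1)),
      F.linMap (i + 1) w (F.linMk (i + 2) w y) = F.linMk (i + 1) (w + 1) x ↔
      x.1 - F.d (i + 1) y.1 ∈ F.fil (i + 1) (w + 2) := by
    intro w y x
    rw [linMap_linMk, eq_comm, ← sub_eq_zero, ← map_sub, linMk_eq_zero]
    rfl
  unfold LinExactAt
  refine and_congr ?_ (forall_congr' fun w => ?_)
  · rw [LinearMap.ker_eq_bot']
    constructor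
    · intro h x hx
      have hx0 : x ∈ F.fil (i + 1) 0 := F.mem_fil_zero _ x
      have := h (F.linMk (i + 1) 0 ⟨x, hx0⟩) ((key 0 ⟨x, hx0⟩).2 hx)
      rw [linMk_eq_zero] at this
      exact this
    · intro h m hm
      obtain ⟨x, rfl⟩ := F.linMk_surjective _ _ m
      rw [linMk_eq_zero]
      exact h x.1 ((key 0 x).1 hm)
  · constructor
    · intro h x hx hd
      have h1 : F.linMk (i + 1) (w + 1) ⟨x, hx⟩ ∈ LinearMap.ker (F.linMap i (w + 1)) :=
        (key (w + 1) ⟨x, hx⟩).2 hd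
      rw [h] at h1
      obtain ⟨m, hm⟩ := h1
      obtain ⟨y, rfl⟩ := F.linMk_surjective _ _ m
      exact ⟨y.1, y.2, (key2 w y ⟨x, hx⟩).1 hm⟩
    · intro h
      apply le_antisymm
      · intro m hm
        obtain ⟨x, rfl⟩ := F.linMk_surjective _ _ m
        obtain ⟨y, hy, hxy⟩ := h x.1 x.2 ((key (w + 1) x).1 hm)
        exact ⟨F.linMk (i + 2) w ⟨y, hy⟩, (key2 w ⟨y, hy⟩ x).2 hxy⟩
      · rintro _ ⟨m, rfl⟩
        obtain ⟨y, rfl⟩ := F.linMk_surjective _ _ m
        rw [LinearMap.mem_ker, linMap_linMk, key]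
        have h0 : F.d i (F.d (i + 1) y.1) = 0 := by
          have : F.d (i + 1) y.1 ∈ LinearMap.ker (F.d i) := by
            rw [← F.exact_succ i]; exact ⟨_, rfl⟩
          exact this
        rw [h0]
        exact Submodule.zero_mem _

/-- The strands `lin_j(F)` with `j > p₀` are exact (in all homological degrees). -/
structure TailExact (p₀ : ℕ) : Prop where
  zero : ∀ w, p₀ < w + 1 → ∀ x ∈ F.fil 0 (w + 1), ∃ y ∈ F.fil 1 w,
    x - F.d 0 y ∈ F.fil 0 (w + 2)
  top : ∀ i, p₀ < i + 1 → ∀ x, F.d i x ∈ F.fil i 2 → x ∈ F.fil (i + 1) 1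
  mid : ∀ i w, p₀ < i + 1 + (w + 1) → ∀ x ∈ F.fil (i + 1) (w + 1), F.d i x ∈ F.fil i (w + 3) →
    ∃ y ∈ F.fil (i + 2) w, x - F.d (i + 1) y ∈ F.fil (i + 1) (w + 2)

end MinimalFreeResolution

end Pool.Agent.Lib.MP_d42622_al
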