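import Pool.Agent.Lib.MP_d42622_al.Gr
import Pool.Agent.Lib.MP_d42622_al.Tail

/-!
Lengths of `R / 𝔪 ^ n` and the Euler characteristic of a truncated minimal free resolution of the
residue field.
-/

namespace Pool.Agent.Lib.MP_d42622_al

open IsLocalRing

universe u

/-- length of a quotient in two steps. -/
theorem length_quot_quot {R : Type u} [CommRing R] {M : Type u} [AddCommGroup M] [Module R M]
    {A B : Submodule R M} (h : A ≤ B) :
    Module.length R (M ⧸ A) = Module.length R (B ⧸ A.submoduleOf B) + Module.length R (M ⧸ B) := by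
  refine Module.length_eq_add_of_exact
    (Submodule.mapQ (A.submoduleOf B) A B.subtype (fun x hx => hx)) (Submodule.factor h) ?_ ?_ ?_
  · rw [← LinearMap.ker_eq_bot, LinearMap.ker_eq_bot']
    intro m hm
    obtain ⟨x, rfl⟩ := Submodule.Quotient.mk_surjective _ m
    rw [Submodule.mapQ_apply, Submodule.Quotient.mk_eq_zero] at hm
    rw [Submodule.Quotient.mk_eq_zero]
    exact hm
  · exact Submodule.factor_surjective h
  · intro m
    obtain ⟨x, rfl⟩ := Submodule.Quotient.mk_surjective _ m
    have hf : Submodule.factor h (Submodule.Quotient.mk x) = Submodule.Quotient.mk x := rfl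
    rw [hf, Submodule.Quotient.mk_eq_zero]
    constructor
    · intro hx
      exact ⟨Submodule.Quotient.mk ⟨x, hx⟩, rfl⟩
    · rintro ⟨y, hy⟩
      obtain ⟨z, rfl⟩ := Submodule.Quotient.mk_surjective _ y
      rw [Submodule.mapQ_apply, Submodule.Quotient.eq] at hy
      have h1 : x = z.1 - (B.subtype z - x) := by simp
      rw [h1]
      exact B.sub_mem z.2 (h hy)

theorem length_residueField (R : Type u) [CommRing R] [IsLocalRing R] :
    Module.length R (ResidueField R) = 1 := by
  rw [Module.length_eq_one_iff]
  exact isSimpleModule_iff_isCoatom.mpr (Ideal.isMaximal_def.mp inferInstance)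

theorem length_quot_pow (R : Type u) [CommRing R] [IsLocalRing R] [IsNoetherianRing R]
    (G : GrData R) (n : ℕ) : Module.length R (R ⧸ maximalIdeal R ^ n) =
      ((∑ w ∈ Finset.range n, Nat.card {a // G.wt a = w} : ℕ) : ℕ∞) := by
  induction n with
  | zero =>
    rw [pow_zero, Ideal.one_eq_top, Finset.range_zero, Finset.sum_empty, Nat.cast_zero,
      Module.length_eq_zero_iff]
    exact Ideal.Quotient.subsingleton_iff.mpr rfl
  | succ n ih =>
    have hle : maximalIdeal R ^ (n + 1) ≤ maximalIdeal R ^ n := Ideal.pow_le_pow_right (by omega)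
    rw [length_quot_quot hle, ih, Finset.sum_range_succ, Nat.cast_add, add_comm]
    congr 1
    -- the graded piece
    have hfin : Finite {a // G.wt a = n} := (G.finite_wt n).to_subtype
    let φ : (maximalIdeal R ^ n : Ideal R) →ₗ[R] ({a // G.wt a = n} → ResidueField R) :=
      { toFun := fun x a => G.g.repr (G.ini n x.1) a.1
        map_add' := by
          intro x y
          funext a
          change G.g.repr (G.ini n (x.1 + y.1)) a.1 = _
          rw [G.ini_add n x.1 y.1 x.2 y.2, map_add]
          rfl
        map_smul' := by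
          intro r x
          funext a
          change G.g.repr (G.ini n (r * x.1)) a.1 = r • G.g.repr (G.ini n x.1) a.1
          have h1 := G.ini_mul 0 n r x.1 (by rw [pow_zero, Ideal.one_eq_top]; trivial) x.2
          rw [zero_add] at h1
          rw [h1, G.ini_zero, ← Algebra.smul_def, map_smul]
          change residue R r * _ = r • _
          rw [Algebra.smul_def]
          rfl }
    have hker : LinearMap.ker φ =
        (maximalIdeal R ^ (n + 1) : Submodule R R).submoduleOf (maximalIdeal R ^ n : Ideal R) := by
      ext x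
      rw [LinearMap.mem_ker]
      change φ x = 0 ↔ x.1 ∈ maximalIdeal R ^ (n + 1)
      rw [← G.ini_eq_zero_iff n x.1 x.2]
      constructor
      · intro h
        apply G.g.repr.injective
        rw [map_zero]
        ext a
        by_cases ha : G.wt a = n
        · exact congrFun h ⟨a, ha⟩
        · by_contra hne
          exact ha (G.ini_supp n x.1 x.2 a hne)
      · intro h
        funext a
        change G.g.repr (G.ini n x.1) a.1 = 0
        rw [h, map_zero]
        rfl
    have hsurj : Function.Surjective φ := by
      classical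
      intro c
      have := Fintype.ofFinite {a // G.wt a = n}
      have hrepr : ∀ b, G.g.repr (∑ a : {a // G.wt a = n}, c a • G.g a.1) b =
          ∑ a : {a // G.wt a = n}, (if a.1 = b then c a else 0) := by
        intro b
        rw [map_sum, Finsupp.finsetSum_apply]
        refine Finset.sum_congr rfl (fun a _ => ?_)
        rw [map_smul, G.g.repr_self, Finsupp.smul_apply, Finsupp.single_apply]
        split_ifs <;> simp
      obtain ⟨x, hx, hxy⟩ := G.ini_surj n (∑ a : {a // G.wt a = n}, c a • G.g a.1) (by
        intro b hb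
        by_contra hne
        apply hb
        rw [hrepr]
        apply Finset.sum_eq_zero
        intro a _
        rw [if_neg]
        rintro rfl
        exact hne a.2)
      refine ⟨⟨x, hx⟩, ?_⟩
      funext a
      change G.g.repr (G.ini n x) a.1 = c a
      rw [hxy, hrepr, Finset.sum_eq_single a, if_pos rfl]
      · intro b _ hb
        rw [if_neg (fun h => hb (Subtype.ext h))]
      · intro h; exact absurd (Finset.mem_univ _) h
    have := Fintype.ofFinite {a // G.wt a = n}
    rw [← hker, (φ.quotKerEquivOfSurjective hsurj).length_eq, Module.length_pi_of_fintype,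
      Finset.sum_congr rfl (fun i _ => length_residueField R), Finset.sum_const, Finset.card_univ,
      nsmul_eq_mul, mul_one, Nat.card_eq_fintype_card]

theorem mem_smul_top_pi {R : Type u} [CommRing R] (I : Ideal R) (n : ℕ) (x : Fin n → R) :
    x ∈ I • (⊤ : Submodule R (Fin n → R)) ↔ ∀ j, x j ∈ I := by
  constructor
  · intro h j
    refine Submodule.smul_induction_on h ?_ ?_
    · intro r hr y _
      exact I.mul_mem_right _ hr
    · intro y z hy hz
      exact I.add_mem hy hz
  · intro h
    have hx : x = ∑ j, x j • (Pi.single j (1 : R) : Fin n → R) := by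
      funext i
      rw [Finset.sum_apply, Finset.sum_eq_single i]
      · simp
      · intro b _ hb
        simp [Ne.symm hb]
      · intro h; exact absurd (Finset.mem_univ _) h
    rw [hx]
    exact Submodule.sum_mem _ (fun j _ => Submodule.smul_mem_smul (h j) Submodule.mem_top)

theorem length_pi_quot {R : Type u} [CommRing R] (I : Ideal R) (n : ℕ) :
    Module.length R ((Fin n → R) ⧸ (I • (⊤ : Submodule R (Fin n → R)))) =
      n * Module.length R (R ⧸ I) := by
  let θ : (Fin n → R) →ₗ[R] (Fin n → R ⧸ I) :=
    LinearMap.pi (fun j => (Submodule.mkQ I).comp (LinearMap.proj j))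
  have hker : LinearMap.ker θ = I • (⊤ : Submodule R (Fin n → R)) := by
    ext x
    rw [mem_smul_top_pi, LinearMap.mem_ker]
    constructor
    · intro h j
      have := congrFun h j
      exact (Submodule.Quotient.mk_eq_zero I).mp this
    · intro h
      funext j
      exact (Submodule.Quotient.mk_eq_zero I).mpr (h j)
  have hsurj : Function.Surjective θ := by
    intro y
    choose x hx using fun j => Submodule.Quotient.mk_surjective I (y j)
    exact ⟨x, funext hx⟩
  rw [← hker, (θ.quotKerEquivOfSurjective hsurj).length_eq, Module.length_pi_of_fintype,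
    Finset.sum_const, Finset.card_univ, Fintype.card_fin, nsmul_eq_mul]

/-- the alternating sum of a telescoping sequence. -/
theorem alternating_telescope (a l : ℕ → ℤ) (p : ℕ) (h : ∀ i < p, l i = a i + a (i + 1))
    (hp : l p = a p) : ∑ i ∈ Finset.range (p + 1), (-1 : ℤ) ^ i * l i = a 0 := by
  have key : ∀ j ≤ p, ∑ i ∈ Finset.range j, (-1 : ℤ) ^ i * l i = a 0 - (-1) ^ j * a j := by
    intro j
    induction j with
    | zero => intro _; simp
    | succ j ih =>
      intro hj
      rw [Finset.sum_range_succ, ih (by omega), h j (by omega), pow_succ]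
      ring
  rw [Finset.sum_range_succ, key p le_rfl, hp]
  ring

theorem MinimalFreeResolution.euler {R : Type u} [CommRing R] [IsLocalRing R] [IsNoetherianRing R]
    (F : MinimalFreeResolution R (ResidueField R)) (G : GrData R) (p : ℕ)
    (h : ∀ i ≤ p, ∀ x, F.d i x ∈ F.fil i (p + 1 - i) →
      ∃ y ∈ F.fil (i + 1) (p - i), F.d i y = F.d i x) :
    ∑ i ∈ Finset.range (p + 1), (-1 : ℤ) ^ i * (F.rank i : ℤ) *
      ∑ w ∈ Finset.range (p + 1 - i), (Nat.card {a // G.wt a = w} : ℤ) = 1 := by
  -- lengths
  set lam : ℕ → ℕ∞ := fun i => Module.length R ((Fin (F.rank i) → R) ⧸ F.fil i (p + 1 - i)) with hlam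
  set q : ℕ → ℕ∞ := fun i => Module.length R
    ((Fin (F.rank i) → R) ⧸ (F.fil i (p + 1 - i) ⊔ LinearMap.range (F.d i))) with hq
  have hlam_eq : ∀ i, lam i = ((F.rank i * ∑ w ∈ Finset.range (p + 1 - i),
      Nat.card {a // G.wt a = w} : ℕ) : ℕ∞) := by
    intro i
    change Module.length R ((Fin (F.rank i) → R) ⧸
      (maximalIdeal R ^ (p + 1 - i) • (⊤ : Submodule R (Fin (F.rank i) → R)))) = _
    rw [length_pi_quot, length_quot_pow R G, Nat.cast_mul]
  -- first splitting
  have hsplit : ∀ i, lam i = Module.length R (LinearMap.range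
      ((F.fil i (p + 1 - i)).mkQ.comp (F.d i))) + q i := by
    intro i
    have h1 := Module.length_eq_add_of_exact
      (LinearMap.range ((F.fil i (p + 1 - i)).mkQ.comp (F.d i))).subtype
      (LinearMap.range ((F.fil i (p + 1 - i)).mkQ.comp (F.d i))).mkQ
      (Submodule.injective_subtype _) (Submodule.mkQ_surjective _)
      (by rw [LinearMap.exact_iff, Submodule.ker_mkQ, Submodule.range_subtype])
    refine Eq.trans h1 ?_
    congr 1
    rw [LinearMap.range_comp]
    exact (Submodule.quotientQuotientEquivQuotientSup _ _).length_eq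
  have hker : ∀ i < p, LinearMap.ker ((F.fil i (p + 1 - i)).mkQ.comp (F.d i)) =
      F.fil (i + 1) (p + 1 - (i + 1)) ⊔ LinearMap.range (F.d (i + 1)) := by
    intro i hi
    rw [LinearMap.ker_comp, Submodule.ker_mkQ]
    have e1 : p + 1 - (i + 1) = p - i := by omega
    have e2 : p + 1 - i = p - i + 1 := by omega
    rw [e1]
    apply le_antisymm
    · intro x hx
      obtain ⟨y, hy, hyx⟩ := h i hi.le x hx
      rw [Submodule.mem_sup]
      refine ⟨y, hy, x - y, ?_, by abel⟩
      rw [F.exact_succ i, LinearMap.mem_ker, map_sub, hyx, sub_self]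
    · rw [sup_le_iff]
      constructor
      · intro x hx
        rw [Submodule.mem_comap, e2]
        exact F.d_mem_fil hx
      · rw [F.exact_succ i]
        intro x hx
        rw [Submodule.mem_comap, LinearMap.mem_ker.mp hx]
        exact Submodule.zero_mem _
  have hrec : ∀ i < p, lam i = q (i + 1) + q i := by
    intro i hi
    rw [hsplit i]
    congr 1
    rw [← (LinearMap.quotKerEquivRange ((F.fil i (p + 1 - i)).mkQ.comp (F.d i))).length_eq, hker i hi]
  have hlast : lam p = q p := by
    rw [hsplit p]
    have h0 : (F.fil p (p + 1 - p)).mkQ.comp (F.d p) = 0 := by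
      rw [show p + 1 - p = 1 by omega]
      refine LinearMap.ext (fun x => ?_)
      rw [LinearMap.comp_apply, LinearMap.zero_apply, Submodule.mkQ_apply,
        Submodule.Quotient.mk_eq_zero]
      have := F.minimal p ⟨x, rfl⟩
      unfold MinimalFreeResolution.fil
      rw [pow_one]
      exact this
    rw [h0, LinearMap.range_zero, Module.length_bot, zero_add]
  have hq0 : q 0 = 1 := by
    rw [hq]
    have h1 : F.fil 0 (p + 1 - 0) ⊔ LinearMap.range (F.d 0) = LinearMap.ker F.aug := by
      rw [F.exact_zero]
      apply sup_eq_right.mpr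
      intro x hx
      unfold MinimalFreeResolution.fil at hx
      rw [LinearMap.mem_ker]
      have h2 : maximalIdeal R ^ (p + 1 - 0) • (⊤ : Submodule R (Fin (F.rank 0) → R)) ≤
          maximalIdeal R • (⊤ : Submodule R (Fin (F.rank 0) → R)) :=
        Submodule.smul_mono_left (Ideal.pow_le_self (by omega))
      refine Submodule.smul_induction_on (h2 hx) ?_ ?_
      · intro r hr y _
        rw [map_smul, Algebra.smul_def]
        change residue R r * _ = 0
        rw [(residue_eq_zero_iff r).mpr hr, zero_mul]
      · intro y z hy hz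
        rw [map_add, hy, hz, add_zero]
    change Module.length R ((Fin (F.rank 0) → R) ⧸
      (F.fil 0 (p + 1 - 0) ⊔ LinearMap.range (F.d 0))) = 1
    rw [h1, (F.aug.quotKerEquivOfSurjective F.aug_surjective).length_eq, length_residueField]
  -- pass to integers
  have hqfin : ∀ i, q i ≠ ⊤ := by
    intro i
    have h1 : q i ≤ lam i := by rw [hsplit i]; exact le_add_self
    rw [hlam_eq i] at h1
    exact ne_top_of_le_ne_top (ENat.natCast_ne_top _) h1
  have hfin := alternating_telescope (fun i => ((q i).toNat : ℤ))
    (fun i => ((F.rank i * ∑ w ∈ Finset.range (p + 1 - i),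
      Nat.card {a // G.wt a = w} : ℕ) : ℤ)) p ?_ ?_
  · rw [hq0] at hfin
    simp only [ENat.toNat_one, Nat.cast_one] at hfin
    refine Eq.trans ?_ hfin
    refine Finset.sum_congr rfl (fun i _ => ?_)
    push_cast
    ring
  · intro i hi
    have h1 := hrec i hi
    rw [hlam_eq i, ← ENat.natCast_toNat (hqfin i), ← ENat.natCast_toNat (hqfin (i + 1)), ← Nat.cast_add,
      Nat.cast_inj] at h1
    rw [h1]
    push_cast
    ring
  · have h1 := hlast
    rw [hlam_eq p, ← ENat.natCast_toNat (hqfin p), Nat.cast_inj] at h1
    rw [h1]

end Pool.Agent.Lib.MP_d42622_al
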