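import Pool.Agent.Lib.MP_d42622_al.Gr

/-!
Existence of the associated graded ring of a Noetherian local ring with a homogeneous basis
(construction as a quotient of the Rees algebra of the maximal ideal).
-/

namespace Pool.Agent.Lib.MP_d42622_al

open IsLocalRing Polynomial

universe u

namespace GrC

variable (R : Type u) [CommRing R] [IsLocalRing R]

/-- The Rees algebra of the maximal ideal. -/
abbrev A : Subalgebra R R[X] := reesAlgebra (maximalIdeal R)

/-- The ideal of the Rees algebra of the polynomials whose coefficient of degree `w` lies in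
`𝔪 ^ (w + 1)`. -/
def J : Ideal (A R) where
  carrier := {f | ∀ w, (f : R[X]).coeff w ∈ maximalIdeal R ^ (w + 1)}
  add_mem' := by
    intro a b ha hb w
    have h : ((a + b : A R) : R[X]).coeff w = (a : R[X]).coeff w + (b : R[X]).coeff w := by
      rw [AddMemClass.coe_add, coeff_add]
    rw [h]
    exact Ideal.add_mem _ (ha w) (hb w)
  zero_mem' := by
    intro w
    have h : ((0 : A R) : R[X]).coeff w = 0 := by
      rw [ZeroMemClass.coe_zero, coeff_zero]
    rw [h]
    exact Ideal.zero_mem _
  smul_mem' := by
    intro c x hx w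
    have h : ((c • x : A R) : R[X]).coeff w =
        ∑ p ∈ Finset.HasAntidiagonal.antidiagonal w,
          (c : R[X]).coeff p.1 * (x : R[X]).coeff p.2 := by
      rw [smul_eq_mul, MulMemClass.coe_mul, coeff_mul]
    rw [h]
    refine Ideal.sum_mem _ fun p hp => ?_
    rw [Finset.HasAntidiagonal.mem_antidiagonal] at hp
    have h1 := Ideal.mul_mem_mul ((mem_reesAlgebra_iff _ _).1 c.2 p.1) (hx p.2)
    rw [← pow_add] at h1
    have h2 : p.1 + (p.2 + 1) = w + 1 := by omega
    rw [h2] at h1
    exact h1

theorem mem_J {f : A R} : f ∈ J R ↔ ∀ w, (f : R[X]).coeff w ∈ maximalIdeal R ^ (w + 1) :=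
  Iff.rfl

/-- The associated graded ring. -/
def G : Type u := A R ⧸ J R

noncomputable instance : CommRing (G R) := inferInstanceAs (CommRing (A R ⧸ J R))

/-- The quotient map. -/
noncomputable def mk : A R →+* G R := Ideal.Quotient.mk (J R)

theorem mk_surjective : Function.Surjective (mk R) := Ideal.Quotient.mk_surjective

theorem mk_eq_zero {f : A R} : mk R f = 0 ↔ f ∈ J R := Ideal.Quotient.eq_zero_iff_mem

/-- The element `x t ^ w` of the Rees algebra. -/
noncomputable def mono (w : ℕ) (x : R) (hx : x ∈ maximalIdeal R ^ w) : A R :=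
  ⟨monomial w x, reesAlgebra.monomial_mem.2 hx⟩

variable {R}

theorem coe_mono {w : ℕ} {x : R} (hx : x ∈ maximalIdeal R ^ w) :
    ((mono R w x hx : A R) : R[X]) = monomial w x := rfl

theorem mono_mem_J {w : ℕ} {x : R} (hx : x ∈ maximalIdeal R ^ w) :
    mono R w x hx ∈ J R ↔ x ∈ maximalIdeal R ^ (w + 1) := by
  rw [mem_J]
  constructor
  · intro h
    have h1 := h w
    rw [coe_mono, coeff_monomial, if_pos rfl] at h1
    exact h1
  · intro h v
    rw [coe_mono, coeff_monomial]
    split_ifs with hv
    · subst hv; exact h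
    · exact Ideal.zero_mem _

/-- The structure map from the ring. -/
noncomputable instance algR : Algebra R (G R) := ((mk R).comp (algebraMap R (A R))).toAlgebra

theorem algR_apply (x : R) : algebraMap R (G R) x = mk R (algebraMap R (A R) x) := rfl

/-- The structure map from the residue field. -/
noncomputable def resHom : ResidueField R →+* G R :=
  Ideal.Quotient.lift (maximalIdeal R) (algebraMap R (G R)) (by
      intro a ha
      rw [algR_apply, mk_eq_zero, mem_J]
      intro w
      have h1 : ((algebraMap R (A R) a : A R) : R[X]) = C a := rfl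
      rw [h1, coeff_C]
      split_ifs with h
      · subst h
        rw [zero_add, pow_one]
        exact ha
      · exact Ideal.zero_mem _)

noncomputable instance algK : Algebra (ResidueField R) (G R) := resHom.toAlgebra

theorem algK_residue (x : R) :
    algebraMap (ResidueField R) (G R) (residue R x) = algebraMap R (G R) x := rfl

instance : IsScalarTower R (ResidueField R) (G R) :=
  IsScalarTower.of_algebraMap_eq fun _ => rfl

/-- The `R`-linear map `𝔪 ^ w → G`. -/
noncomputable def phi (w : ℕ) : (maximalIdeal R ^ w : Ideal R) →ₗ[R] G R where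
  toFun x := mk R (mono R w x.1 x.2)
  map_add' x y := by
    rw [← map_add]
    congr 1
    apply Subtype.ext
    exact map_add (monomial w) x.1 y.1
  map_smul' r x := by
    rw [RingHom.id_apply, Algebra.smul_def, algR_apply, ← map_mul]
    congr 1
    apply Subtype.ext
    rw [MulMemClass.coe_mul, coe_mono, coe_mono]
    have h1 : ((algebraMap R (A R) r : A R) : R[X]) = C r := rfl
    rw [h1, C_mul_monomial]
    rfl

open Classical in
/-- Initial forms. -/
noncomputable def ini (w : ℕ) (x : R) : G R :=
  if hx : x ∈ maximalIdeal R ^ w then phi w ⟨x, hx⟩ else 0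

theorem ini_of_mem {w : ℕ} {x : R} (hx : x ∈ maximalIdeal R ^ w) :
    ini w x = phi w ⟨x, hx⟩ := by
  rw [ini, dif_pos hx]

theorem phi_apply {w : ℕ} {x : R} (hx : x ∈ maximalIdeal R ^ w) :
    phi w ⟨x, hx⟩ = mk R (mono R w x hx) := rfl

theorem ini_add (w : ℕ) (x y : R) (hx : x ∈ maximalIdeal R ^ w) (hy : y ∈ maximalIdeal R ^ w) :
    ini w (x + y) = ini w x + ini w y := by
  rw [ini_of_mem hx, ini_of_mem hy, ini_of_mem (Ideal.add_mem _ hx hy), ← map_add]
  rfl

theorem ini_mul (w v : ℕ) (x y : R) (hx : x ∈ maximalIdeal R ^ w)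
    (hy : y ∈ maximalIdeal R ^ v) : ini (w + v) (x * y) = ini w x * ini v y := by
  have hxy : x * y ∈ maximalIdeal R ^ (w + v) := by
    rw [pow_add]; exact Ideal.mul_mem_mul hx hy
  rw [ini_of_mem hx, ini_of_mem hy, ini_of_mem hxy, phi_apply, phi_apply, phi_apply, ← map_mul]
  congr 1
  apply Subtype.ext
  rw [MulMemClass.coe_mul, coe_mono, coe_mono, coe_mono, monomial_mul_monomial]

theorem phi_eq_zero_iff {w : ℕ} {x : R} (hx : x ∈ maximalIdeal R ^ w) :
    phi w ⟨x, hx⟩ = 0 ↔ x ∈ maximalIdeal R ^ (w + 1) := by
  rw [phi_apply, mk_eq_zero, mono_mem_J]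

theorem ini_zero (x : R) : ini 0 x = algebraMap (ResidueField R) (G R) (residue R x) := by
  have hx : x ∈ maximalIdeal R ^ 0 := by rw [pow_zero, Ideal.one_eq_top]; trivial
  rw [ini_of_mem hx, algK_residue, algR_apply, phi_apply]
  rfl

/-- The homogeneous component of degree `w`. -/
noncomputable def piece (w : ℕ) : Submodule (ResidueField R) (G R) where
  carrier := Set.range (phi (R := R) w)
  add_mem' := by
    rintro _ _ ⟨x, rfl⟩ ⟨y, rfl⟩
    exact ⟨x + y, map_add _ _ _⟩
  zero_mem' := ⟨0, map_zero _⟩
  smul_mem' := by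
    rintro c _ ⟨x, rfl⟩
    obtain ⟨r, rfl⟩ := residue_surjective c
    refine ⟨r • x, ?_⟩
    rw [map_smul]
    exact (algebraMap_smul (ResidueField R) r (phi w x)).symm

theorem mem_piece {w : ℕ} {y : G R} : y ∈ piece w ↔ ∃ x ∈ maximalIdeal R ^ w, ini w x = y := by
  constructor
  · rintro ⟨x, rfl⟩
    exact ⟨x.1, x.2, ini_of_mem x.2⟩
  · rintro ⟨x, hx, rfl⟩
    exact ⟨⟨x, hx⟩, (ini_of_mem hx).symm⟩

theorem phi_mem_piece (w : ℕ) (x : (maximalIdeal R ^ w : Ideal R)) : phi w x ∈ piece w :=
  ⟨x, rfl⟩

instance [IsNoetherianRing R] (w : ℕ) : Module.Finite (ResidueField R) (piece (R := R) w) := by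
  have h1 : Module.Finite R (maximalIdeal R ^ w : Ideal R) := inferInstance
  let f : (maximalIdeal R ^ w : Ideal R) →ₗ[R] (piece (R := R) w) :=
    { toFun := fun x => ⟨phi w x, ⟨x, rfl⟩⟩
      map_add' := fun x y => Subtype.ext (map_add _ _ _)
      map_smul' := fun r x => Subtype.ext (map_smul _ _ _) }
  have hf : Function.Surjective f := by
    rintro ⟨_, x, rfl⟩
    exact ⟨x, rfl⟩
  have h2 : Module.Finite R (piece (R := R) w) := Module.Finite.of_surjective f hf
  exact Module.Finite.of_restrictScalars_finite R (ResidueField R) _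

/-- A finite family of elements of the components with zero sum vanishes. -/
theorem indep (s : Finset ℕ) (x : ∀ w, (maximalIdeal R ^ w : Ideal R))
    (h : ∑ w ∈ s, phi w (x w) = 0) : ∀ w ∈ s, phi w (x w) = 0 := by
  intro v hv
  have h1 : mk R (∑ w ∈ s, mono R w (x w).1 (x w).2) = 0 := by
    rw [map_sum]; exact h
  rw [mk_eq_zero, mem_J] at h1
  have h2 := h1 v
  have h3 : ((∑ w ∈ s, mono R w (x w).1 (x w).2 : A R) : R[X]) =
      ∑ w ∈ s, monomial w (x w).1 := by
    rw [AddSubmonoidClass.coe_finsetSum]
    rfl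
  rw [h3, finsetSum_coeff, Finset.sum_eq_single v] at h2
  · rw [coeff_monomial, if_pos rfl] at h2
    exact (phi_eq_zero_iff (x v).2).2 h2
  · intro b _ hb
    rw [coeff_monomial, if_neg hb]
  · intro hv'
    exact absurd hv hv'

theorem isInternal : DirectSum.IsInternal (piece (R := R)) := by
  classical
  constructor
  · rw [injective_iff_map_eq_zero]
    intro f hf
    have h0 : ∀ w, ∃ x : (maximalIdeal R ^ w : Ideal R), phi w x = (f w : G R) := fun w => (f w).2
    choose x hx using h0
    have h1 : ∑ w ∈ f.support, phi w (x w) = 0 := by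
      rw [← hf, DirectSum.coeAddMonoidHom_eq_dfinsuppSum, DFinsupp.sum]
      exact Finset.sum_congr rfl fun w _ => hx w
    have h2 := indep f.support x h1
    refine DFinsupp.ext fun w => ?_
    by_cases hw : w ∈ f.support
    · have h3 := h2 w hw
      rw [hx w] at h3
      exact Subtype.ext h3
    · exact DFinsupp.notMem_support_iff.1 hw
  · intro y
    obtain ⟨f, rfl⟩ := mk_surjective R y
    have hc : ∀ w, (f : R[X]).coeff w ∈ maximalIdeal R ^ w := (mem_reesAlgebra_iff _ _).1 f.2
    refine ⟨∑ w ∈ (f : R[X]).support, DirectSum.of (fun w => piece (R := R) w) w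
      ⟨phi w ⟨_, hc w⟩, phi_mem_piece w _⟩, ?_⟩
    rw [map_sum]
    have h1 : f = ∑ w ∈ (f : R[X]).support, mono R w _ (hc w) := by
      apply Subtype.ext
      rw [AddSubmonoidClass.coe_finsetSum]
      exact as_sum_support (f : R[X])
    conv_rhs => rw [h1]
    rw [map_sum]
    refine Finset.sum_congr rfl fun w _ => ?_
    rw [DirectSum.coeAddMonoidHom_of]
    rfl

end GrC

open GrC in
theorem exists_grData (R : Type u) [CommRing R] [IsLocalRing R] [IsNoetherianRing R] :
    Nonempty (GrData R) := by
  classical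
  let b : ∀ w, Module.Basis (Module.Basis.ofVectorSpaceIndex (ResidueField R) (piece (R := R) w))
    (ResidueField R) (piece (R := R) w) := fun w => Module.Basis.ofVectorSpace _ _
  let g := (isInternal (R := R)).collectedBasis b
  refine ⟨{ 𝔾 := G R
            Λ := Σ w, Module.Basis.ofVectorSpaceIndex (ResidueField R) (piece (R := R) w)
            g := g
            wt := Sigma.fst
            finite_wt := ?_
            ini := ini
            ini_add := ini_add
            ini_mul := ini_mul
            ini_eq_zero_iff := ?_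
            ini_zero := ini_zero
            ini_supp := ?_
            ini_surj := ?_ }⟩
  · intro w
    have h1 : Finite (Module.Basis.ofVectorSpaceIndex (ResidueField R) (piece (R := R) w)) :=
      Module.Finite.finite_basis (b w)
    refine (Set.finite_range (Sigma.mk (β := fun w =>
      Module.Basis.ofVectorSpaceIndex (ResidueField R) (piece (R := R) w)) w)).subset ?_
    rintro ⟨v, a⟩ hv
    change v = w at hv
    subst hv
    exact ⟨a, rfl⟩
  · intro w x hx
    rw [ini_of_mem hx, phi_eq_zero_iff]
  · intro w x hx a ha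
    by_contra hne
    apply ha
    obtain ⟨v, a⟩ := a
    have hm : ini w x ∈ piece w := mem_piece.2 ⟨x, hx, rfl⟩
    exact (isInternal (R := R)).collectedBasis_repr_of_mem_ne b (fun h => hne h.symm) hm
  · intro w y hy
    apply mem_piece.1
    rw [← g.linearCombination_repr y, Finsupp.linearCombination_apply]
    refine Submodule.sum_mem _ fun a ha => ?_
    have h1 := hy a (Finsupp.mem_support_iff.1 ha)
    obtain ⟨v, a⟩ := a
    simp only at h1
    subst h1
    refine Submodule.smul_mem _ _ ?_
    have h2 : g ⟨v, a⟩ = (b v a : G R) := by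
      simp only [g, (isInternal (R := R)).collectedBasis_coe]
    rw [h2]
    exact (b v a).2

end Pool.Agent.Lib.MP_d42622_al
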