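import Pool.Agent.Lib.MP_d42622_al.Gr
import Pool.Agent.Lib.MP_d42622_al.Tail

/-!
Existence of minimal free resolutions of finitely generated modules over a Noetherian local ring,
and independence of the exactness of the strands of the linear part from the resolution.
-/

namespace Pool.Agent.Lib.MP_d42622_al

open IsLocalRing

universe u

section Existence

/-- A vector with all coordinates in the maximal ideal lies in `𝔪 F`. -/
theorem mem_smul_top_of_forall {R : Type u} [CommRing R] [IsLocalRing R] {n : ℕ}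
    {x : Fin n → R} (hx : ∀ j, x j ∈ maximalIdeal R) :
    x ∈ maximalIdeal R • (⊤ : Submodule R (Fin n → R)) := by
  have h : x = ∑ j, x j • (Pi.single j (1 : R) : Fin n → R) := by
    rw [← pi_eq_sum_univ' x]
  rw [h]
  exact Submodule.sum_mem _ fun j _ => Submodule.smul_mem_smul (hx j) trivial

/-- Every finite module has a minimal free cover. -/
theorem exists_cover {R : Type u} [CommRing R] [IsLocalRing R] (N : Type u) [AddCommGroup N]
    [Module R N] [Module.Finite R N] :
    ∃ (b : ℕ) (f : (Fin b → R) →ₗ[R] N), Function.Surjective f ∧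
      LinearMap.ker f ≤ maximalIdeal R • (⊤ : Submodule R (Fin b → R)) := by
  let k := ResidueField R
  let bas := Module.finBasis k (TensorProduct R k N)
  have hsurj : ∀ t : TensorProduct R k N, ∃ n : N, (1 : k) ⊗ₜ[R] n = t := by
    intro t
    have h : Function.Surjective (TensorProduct.mk R k N 1) :=
      TensorProduct.mk_surjective R N k Ideal.Quotient.mk_surjective
    exact h t
  choose f hf using fun j => hsurj (bas j)
  have hspan := IsLocalRing.span_eq_top_of_tmul_eq_basis f bas hf
  refine ⟨Module.finrank k (TensorProduct R k N),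
    Fintype.linearCombination R f, ?_, ?_⟩
  · rw [← LinearMap.range_eq_top, Fintype.range_linearCombination]
    exact hspan
  · intro x hx
    apply mem_smul_top_of_forall
    intro j
    have h0 : ∑ i, x i • f i = 0 := by
      have := LinearMap.mem_ker.1 hx
      rwa [Fintype.linearCombination_apply] at this
    have h1 : ∑ i, (residue R (x i)) • bas i = 0 := by
      have h2 : (1 : k) ⊗ₜ[R] (∑ i, x i • f i) = ∑ i, (residue R (x i)) • bas i := by
        rw [TensorProduct.tmul_sum]
        refine Finset.sum_congr rfl fun i _ => ?_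
        rw [← hf i, TensorProduct.smul_tmul', TensorProduct.tmul_smul, TensorProduct.smul_tmul']
        congr 1
      rw [← h2, h0, TensorProduct.tmul_zero]
    have h2 := Fintype.linearIndependent_iff.1 bas.linearIndependent _ h1 j
    exact (residue_eq_zero_iff _).1 h2

variable {R : Type u} [CommRing R] [IsLocalRing R]

/-- The rank of a minimal free cover. -/
noncomputable def coverRank (N : Type u) [AddCommGroup N] [Module R N] [Module.Finite R N] : ℕ :=
  (exists_cover (R := R) N).choose

/-- A minimal free cover. -/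
noncomputable def cover (N : Type u) [AddCommGroup N] [Module R N] [Module.Finite R N] :
    (Fin (coverRank (R := R) N) → R) →ₗ[R] N :=
  (exists_cover (R := R) N).choose_spec.choose

theorem cover_surjective (N : Type u) [AddCommGroup N] [Module R N] [Module.Finite R N] :
    Function.Surjective (cover (R := R) N) :=
  (exists_cover (R := R) N).choose_spec.choose_spec.1

theorem ker_cover (N : Type u) [AddCommGroup N] [Module R N] [Module.Finite R N] :
    LinearMap.ker (cover (R := R) N) ≤
      maximalIdeal R • (⊤ : Submodule R (Fin (coverRank (R := R) N) → R)) :=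
  (exists_cover (R := R) N).choose_spec.choose_spec.2

variable [IsNoetherianRing R]

/-- The successive syzygy modules (as submodules of free modules). -/
noncomputable def syz (M : Type u) [AddCommGroup M] [Module R M] [Module.Finite R M] :
    ℕ → (Σ b : ℕ, Submodule R (Fin b → R))
  | 0 => ⟨coverRank (R := R) M, LinearMap.ker (cover (R := R) M)⟩
  | i + 1 => ⟨coverRank (R := R) (syz M i).2, LinearMap.ker (cover (R := R) (syz M i).2)⟩

theorem syz_le (M : Type u) [AddCommGroup M] [Module R M] [Module.Finite R M] (i : ℕ) :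
    (syz (R := R) M i).2 ≤
      maximalIdeal R • (⊤ : Submodule R (Fin (syz (R := R) M i).1 → R)) := by
  cases i with
  | zero => exact ker_cover M
  | succ i => exact ker_cover (syz (R := R) M i).2

theorem nonempty_minimalFreeResolution {R : Type u} [CommRing R] [IsLocalRing R]
    [IsNoetherianRing R] {M : Type u} [AddCommGroup M] [Module R M] [Module.Finite R M] :
    Nonempty (MinimalFreeResolution R M) := by
  have hr : ∀ i, LinearMap.range ((syz (R := R) M i).2.subtype ∘ₗ
      cover (R := R) (syz (R := R) M i).2) = (syz (R := R) M i).2 := by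
    intro i
    rw [LinearMap.range_comp, LinearMap.range_eq_top.2 (cover_surjective _), Submodule.map_top,
      Submodule.range_subtype]
  refine ⟨{
    rank := fun i => (syz (R := R) M i).1
    d := fun i => (syz (R := R) M i).2.subtype ∘ₗ cover (R := R) (syz (R := R) M i).2
    aug := cover (R := R) M
    aug_surjective := cover_surjective M
    exact_zero := hr 0
    exact_succ := ?_
    minimal := ?_ }⟩
  · intro i
    refine (hr (i + 1)).trans ?_
    have h1 : LinearMap.ker ((syz (R := R) M i).2.subtype ∘ₗ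
        cover (R := R) (syz (R := R) M i).2) =
        LinearMap.ker (cover (R := R) (syz (R := R) M i).2) := by
      rw [LinearMap.ker_comp, Submodule.ker_subtype]
      rfl
    exact h1.symm
  · intro i
    exact (hr i).le.trans (syz_le M i)

end Existence

section Independence

variable {R : Type u} [CommRing R] [IsLocalRing R] {M : Type u} [AddCommGroup M] [Module R M]

/-- Lifting a linear map from a free module. -/
theorem exists_lift {R : Type u} [CommRing R] {n : ℕ} {A B : Type u} [AddCommGroup A]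
    [Module R A] [AddCommGroup B] [Module R B] (φ : (Fin n → R) →ₗ[R] A) (ψ : B →ₗ[R] A)
    (h : ∀ x, φ x ∈ LinearMap.range ψ) :
    ∃ χ : (Fin n → R) →ₗ[R] B, ∀ x, ψ (χ x) = φ x := by
  choose b hb using fun j : Fin n => h (Pi.basisFun R (Fin n) j)
  refine ⟨(Pi.basisFun R (Fin n)).constr R b, fun x => ?_⟩
  have h1 : ψ ∘ₗ (Pi.basisFun R (Fin n)).constr R b = φ := by
    refine (Pi.basisFun R (Fin n)).ext fun j => ?_
    rw [LinearMap.comp_apply, Module.Basis.constr_basis, hb]
  exact LinearMap.congr_fun h1 x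

/-- Dependent choice along the natural numbers. -/
theorem exists_dep_seq {α : ℕ → Type u} (P : ∀ i, α i → Prop)
    (r : ∀ i, α i → α (i + 1) → Prop) (a : α 0) (ha : P 0 a)
    (hs : ∀ i a, P i a → ∃ b, P (i + 1) b ∧ r i a b) :
    ∃ f : ∀ i, α i, f 0 = a ∧ ∀ i, r i (f i) (f (i + 1)) := by
  choose b hb using hs
  let g : ∀ i, {x : α i // P i x} := fun i =>
    Nat.rec (motive := fun i => {x : α i // P i x}) ⟨a, ha⟩
      (fun i x => ⟨b i x.1 x.2, (hb i x.1 x.2).1⟩) i
  exact ⟨fun i => (g i).1, rfl, fun i => (hb i (g i).1 (g i).2).2⟩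

namespace MinimalFreeResolution

variable (F F' : MinimalFreeResolution R M)

theorem map_fil {R : Type u} [CommRing R] [IsLocalRing R] {n m : ℕ}
    (f : (Fin n → R) →ₗ[R] (Fin m → R)) {w : ℕ} {x : Fin n → R}
    (hx : x ∈ maximalIdeal R ^ w • (⊤ : Submodule R (Fin n → R))) :
    f x ∈ maximalIdeal R ^ w • (⊤ : Submodule R (Fin m → R)) := by
  have h : (maximalIdeal R ^ w • (⊤ : Submodule R (Fin n → R))).map f ≤
      maximalIdeal R ^ w • (⊤ : Submodule R (Fin m → R)) := by
    rw [Submodule.map_smul'']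
    exact smul_mono_right _ le_top
  exact h ⟨x, hx, rfl⟩

theorem d_comp_d (i : ℕ) (x : Fin (F.rank (i + 2)) → R) : F.d i (F.d (i + 1) x) = 0 := by
  have : F.d (i + 1) x ∈ LinearMap.ker (F.d i) := by
    rw [← F.exact_succ i]; exact ⟨_, rfl⟩
  exact this

theorem aug_d (x : Fin (F.rank 1) → R) : F.aug (F.d 0 x) = 0 := by
  have : F.d 0 x ∈ LinearMap.ker F.aug := by
    rw [← F.exact_zero]; exact ⟨_, rfl⟩
  exact this

theorem mem_range_succ {i : ℕ} {x : Fin (F.rank (i + 1)) → R} (h : F.d i x = 0) :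
    x ∈ LinearMap.range (F.d (i + 1)) := by
  rw [F.exact_succ i]; exact h

theorem mem_range_zero {x : Fin (F.rank 0) → R} (h : F.aug x = 0) :
    x ∈ LinearMap.range (F.d 0) := by
  rw [F.exact_zero]; exact h

theorem fil_anti (i : ℕ) {w v : ℕ} (h : w ≤ v) : F.fil i v ≤ F.fil i w := by
  unfold fil
  exact Submodule.smul_mono_left (Ideal.pow_le_pow_right h)

/-- Comparison maps. -/
theorem exists_chainMap : ∃ f : ∀ i, (Fin (F.rank i) → R) →ₗ[R] (Fin (F'.rank i) → R),
    (∀ x, F'.aug (f 0 x) = F.aug x) ∧ ∀ i x, F'.d i (f (i + 1) x) = f i (F.d i x) := by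
  obtain ⟨f0, hf0⟩ := exists_lift F.aug F'.aug
    (fun x => by rw [LinearMap.range_eq_top.2 F'.aug_surjective]; trivial)
  obtain ⟨f, h1, h2⟩ := exists_dep_seq
    (α := fun i => (Fin (F.rank i) → R) →ₗ[R] (Fin (F'.rank i) → R))
    (fun i φ => ∀ x, φ (F.d i x) ∈ LinearMap.range (F'.d i))
    (fun i φ ψ => ∀ x, F'.d i (ψ x) = φ (F.d i x)) f0
    (fun x => F'.mem_range_zero (by rw [hf0, F.aug_d]))
    (fun i φ hφ => by
      obtain ⟨ψ, hψ⟩ := exists_lift (φ ∘ₗ F.d i) (F'.d i) hφ
      refine ⟨ψ, fun x => F'.mem_range_succ ?_, hψ⟩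
      rw [hψ, LinearMap.comp_apply, F.d_comp_d, map_zero])
  refine ⟨f, ?_, h2⟩
  rw [h1]
  exact hf0

/-- A chain map lifting zero is homotopic to zero. -/
theorem exists_htpy (e : ∀ i, (Fin (F.rank i) → R) →ₗ[R] (Fin (F.rank i) → R))
    (h0 : ∀ x, F.aug (e 0 x) = 0) (he : ∀ i x, F.d i (e (i + 1) x) = e i (F.d i x)) :
    ∃ s : ∀ i, (Fin (F.rank i) → R) →ₗ[R] (Fin (F.rank (i + 1)) → R),
      (∀ x, F.d 0 (s 0 x) = e 0 x) ∧
      ∀ i x, F.d (i + 1) (s (i + 1) x) + s i (F.d i x) = e (i + 1) x := by
  obtain ⟨s0, hs0⟩ := exists_lift (e 0) (F.d 0) (fun x => F.mem_range_zero (h0 x))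
  obtain ⟨s, h1, h2⟩ := exists_dep_seq
    (α := fun i => (Fin (F.rank i) → R) →ₗ[R] (Fin (F.rank (i + 1)) → R))
    (fun i φ => ∀ x, F.d i (e (i + 1) x - φ (F.d i x)) = 0)
    (fun i φ ψ => ∀ x, F.d (i + 1) (ψ x) + φ (F.d i x) = e (i + 1) x) s0
    (fun x => by rw [map_sub, hs0, he, sub_self])
    (fun i φ hφ => by
      obtain ⟨ψ, hψ⟩ := exists_lift (e (i + 1) - φ ∘ₗ F.d i) (F.d (i + 1))
        (fun x => F.mem_range_succ (hφ x))
      have hψ' : ∀ x, F.d (i + 1) (ψ x) = e (i + 1) x - φ (F.d i x) := hψ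
      refine ⟨ψ, fun x => ?_, fun x => ?_⟩
      · rw [map_sub, hψ', he, F.d_comp_d, map_zero, sub_zero, sub_self]
      · rw [hψ', sub_add_cancel])
  refine ⟨s, ?_, h2⟩
  rw [h1]
  exact hs0

theorem linExactAt_congr {R : Type u} [CommRing R] [IsLocalRing R]
    {M : Type u} [AddCommGroup M] [Module R M]
    (F F' : MinimalFreeResolution R M) (i : ℕ) (h : F.LinExactAt i) : F'.LinExactAt i := by
  obtain ⟨f, hf0, hf⟩ := F.exists_chainMap F'
  obtain ⟨g, hg0, hg⟩ := F'.exists_chainMap F
  obtain ⟨s, hs0, hs⟩ := F'.exists_htpy (fun i => f i ∘ₗ g i - LinearMap.id)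
    (fun x => by
      rw [LinearMap.sub_apply, LinearMap.comp_apply, LinearMap.id_apply, map_sub, hf0, hg0,
        sub_self])
    (fun i x => by
      simp only [LinearMap.sub_apply, LinearMap.comp_apply, LinearMap.id_apply, map_sub, hf, hg])
  have hs' : ∀ i x, F'.d (i + 1) (s (i + 1) x) + s i (F'.d i x) =
      f (i + 1) (g (i + 1) x) - x := fun i x => hs i x
  rw [linExactAt_iff] at h ⊢
  obtain ⟨ha, hb⟩ := h
  refine ⟨fun x' hx' => ?_, fun w x' hx' hd => ?_⟩
  · have h1 : g (i + 1) x' ∈ F.fil (i + 1) 1 := by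
      apply ha
      rw [hg]
      exact map_fil (g i) hx'
    have h2 : f (i + 1) (g (i + 1) x') ∈ F'.fil (i + 1) 1 := map_fil (f (i + 1)) h1
    have h3 : F'.d (i + 1) (s (i + 1) x') ∈ F'.fil (i + 1) 1 :=
      F'.d_mem_fil (F'.mem_fil_zero _ _)
    have h4 : s i (F'.d i x') ∈ F'.fil (i + 1) 1 :=
      map_fil (s i) (F'.fil_anti i (by norm_num) hx')
    have h5 : x' = f (i + 1) (g (i + 1) x') -
        (F'.d (i + 1) (s (i + 1) x') + s i (F'.d i x')) := by
      rw [hs', sub_sub_cancel]
    rw [h5]
    exact Submodule.sub_mem _ h2 (Submodule.add_mem _ h3 h4)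
  · obtain ⟨y, hy, hxy⟩ := hb w (g (i + 1) x') (map_fil (g (i + 1)) hx')
      (by rw [hg]; exact map_fil (g i) hd)
    refine ⟨f (i + 2) y - s (i + 1) x', Submodule.sub_mem _ (map_fil (f (i + 2)) hy)
      (F'.fil_anti _ (Nat.le_succ w) (map_fil (s (i + 1)) hx')), ?_⟩
    have h5 : x' - F'.d (i + 1) (f (i + 2) y - s (i + 1) x') =
        f (i + 1) (g (i + 1) x' - F.d (i + 1) y) - s i (F'.d i x') := by
      rw [map_sub, map_sub, hf (i + 1) y]
      have := hs' i x'
      rw [← sub_eq_zero] at this ⊢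
      rw [← this]
      abel
    rw [h5]
    exact Submodule.sub_mem _ (map_fil (f (i + 1)) hxy)
      (F'.fil_anti _ (Nat.le_succ _) (map_fil (s i) hd))

end MinimalFreeResolution

end Independence

end Pool.Agent.Lib.MP_d42622_al
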