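import Pool.Agent.Lib.MP_d42622_al.Tail

/-!
The strands of high internal degree of the linear part of the minimal free resolution of the
residue field are exact as soon as the linear part is exact in high homological degrees, and the
consequence for the resolution itself (Artin-Rees arguments).
-/

namespace Pool.Agent.Lib.MP_d42622_al

open IsLocalRing

universe u

namespace MinimalFreeResolution

section general

variable {R : Type u} [CommRing R] [IsLocalRing R] {M : Type u} [AddCommGroup M] [Module R M]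
variable (F : MinimalFreeResolution R M)

theorem d_d (i : ℕ) (y : Fin (F.rank (i + 2)) → R) : F.d i (F.d (i + 1) y) = 0 := by
  have : F.d (i + 1) y ∈ LinearMap.ker (F.d i) := by
    rw [← F.exact_succ i]; exact ⟨_, rfl⟩
  exact this

theorem fil_mono {i v w : ℕ} (h : v ≤ w) : F.fil i w ≤ F.fil i v := by
  unfold fil
  exact Submodule.smul_mono_left (Ideal.pow_le_pow_right h)

theorem map_mem_fil {i j : ℕ} (f : (Fin (F.rank i) → R) →ₗ[R] (Fin (F.rank j) → R)) {w : ℕ}
    {x : Fin (F.rank i) → R} (hx : x ∈ F.fil i w) : f x ∈ F.fil j w := by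
  have h : (F.fil i w).map f ≤ F.fil j w := by
    unfold fil
    rw [Submodule.map_smul'']
    exact smul_mono_right _ le_top
  exact h ⟨x, hx, rfl⟩

theorem fil_succ (i w : ℕ) : F.fil i (w + 1) = maximalIdeal R • F.fil i w := by
  unfold fil
  rw [pow_succ', mul_smul]

end general

section residue

variable {R : Type u} [CommRing R] [IsLocalRing R]
variable (F : MinimalFreeResolution R (ResidueField R))

theorem smul_mem_range_zero {a : R} (ha : a ∈ maximalIdeal R) (x : Fin (F.rank 0) → R) :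
    a • x ∈ LinearMap.range (F.d 0) := by
  rw [F.exact_zero, LinearMap.mem_ker, map_smul]
  change (residue R a) * F.aug x = 0
  rw [(residue_eq_zero_iff a).2 ha, zero_mul]

theorem exists_h_zero {a : R} (ha : a ∈ maximalIdeal R) :
    ∃ h : (Fin (F.rank 0) → R) →ₗ[R] (Fin (F.rank 1) → R), ∀ x, a • x = F.d 0 (h x) := by
  obtain ⟨h, hh⟩ := Module.projective_lifting_property (F.d 0).rangeRestrict
    ((a • (LinearMap.id : (Fin (F.rank 0) → R) →ₗ[R] (Fin (F.rank 0) → R))).codRestrict
      (LinearMap.range (F.d 0)) (fun x => F.smul_mem_range_zero ha x))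
    (F.d 0).surjective_rangeRestrict
  refine ⟨h, fun x => ?_⟩
  have := congrArg Subtype.val (LinearMap.congr_fun hh x)
  exact this.symm

theorem exists_h_succ {a : R} (i : ℕ) (h : (Fin (F.rank i) → R) →ₗ[R] (Fin (F.rank (i + 1)) → R))
    (hQ : ∀ y, F.d i (a • y - h (F.d i y)) = 0) :
    ∃ h' : (Fin (F.rank (i + 1)) → R) →ₗ[R] (Fin (F.rank (i + 2)) → R),
      ∀ x, a • x = F.d (i + 1) (h' x) + h (F.d i x) := by
  obtain ⟨h', hh⟩ := Module.projective_lifting_property (F.d (i + 1)).rangeRestrict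
    ((a • (LinearMap.id : (Fin (F.rank (i + 1)) → R) →ₗ[R] (Fin (F.rank (i + 1)) → R)) -
      h ∘ₗ F.d i).codRestrict
      (LinearMap.range (F.d (i + 1))) (fun x => by
        rw [F.exact_succ i, LinearMap.mem_ker]
        exact hQ x))
    (F.d (i + 1)).surjective_rangeRestrict
  refine ⟨h', fun x => ?_⟩
  have := congrArg Subtype.val (LinearMap.congr_fun hh x)
  have h2 : F.d (i + 1) (h' x) = a • x - h (F.d i x) := this
  rw [h2]
  abel

/-- Condition carried along the recursion. -/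
def HtpyCond (a : R) (i : ℕ)
    (h : (Fin (F.rank i) → R) →ₗ[R] (Fin (F.rank (i + 1)) → R)) : Prop :=
  ∀ y, F.d i (a • y - h (F.d i y)) = 0

theorem htpyCond_succ {a : R} (i : ℕ)
    (h : (Fin (F.rank i) → R) →ₗ[R] (Fin (F.rank (i + 1)) → R))
    (h' : (Fin (F.rank (i + 1)) → R) →ₗ[R] (Fin (F.rank (i + 2)) → R))
    (hh : ∀ x, a • x = F.d (i + 1) (h' x) + h (F.d i x)) : F.HtpyCond a (i + 1) h' := by
  intro y
  have h1 := hh (F.d (i + 1) y)
  rw [F.d_d, map_zero, add_zero] at h1
  rw [map_sub, map_smul, ← h1, sub_self]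

/-- The homotopy for multiplication by `a ∈ 𝔪`. -/
theorem exists_homotopy {a : R} (ha : a ∈ maximalIdeal R) :
    ∃ h : ∀ i, (Fin (F.rank i) → R) →ₗ[R] (Fin (F.rank (i + 1)) → R),
      (∀ x, a • x = F.d 0 (h 0 x)) ∧
      ∀ i x, a • x = F.d (i + 1) (h (i + 1) x) + h i (F.d i x) := by
  obtain ⟨h0, hh0⟩ := F.exists_h_zero ha
  have hQ0 : F.HtpyCond a 0 h0 := by
    intro y
    rw [map_sub, map_smul, ← hh0 (F.d 0 y), sub_self]
  choose step hstep using fun (i : ℕ)
    (p : {h : (Fin (F.rank i) → R) →ₗ[R] (Fin (F.rank (i + 1)) → R) // F.HtpyCond a i h}) =>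
    F.exists_h_succ (a := a) i p.1 p.2
  let s : ∀ i, {h : (Fin (F.rank i) → R) →ₗ[R] (Fin (F.rank (i + 1)) → R) // F.HtpyCond a i h} :=
    fun i => Nat.rec (motive := fun i =>
      {h : (Fin (F.rank i) → R) →ₗ[R] (Fin (F.rank (i + 1)) → R) // F.HtpyCond a i h})
      ⟨h0, hQ0⟩ (fun i p => ⟨step i p, F.htpyCond_succ i p.1 (step i p) (hstep i p)⟩) i
  refine ⟨fun i => (s i).1, hh0, fun i x => ?_⟩
  exact hstep i (s i) x

theorem smul_mem_of {a : R} (ha : a ∈ maximalIdeal R) {i w : ℕ} {x : Fin (F.rank (i + 1)) → R}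
    (hx : x ∈ F.fil (i + 1) w) (hd : F.d i x ∈ F.fil i (w + 2)) :
    ∃ y ∈ F.fil (i + 2) w, a • x - F.d (i + 1) y ∈ F.fil (i + 1) (w + 2) := by
  obtain ⟨h, -, hh⟩ := F.exists_homotopy ha
  refine ⟨h (i + 1) x, F.map_mem_fil _ hx, ?_⟩
  rw [hh i x, add_sub_cancel_left]
  exact F.map_mem_fil _ hd

theorem zero_exact (w : ℕ) (x : Fin (F.rank 0) → R) (hx : x ∈ F.fil 0 (w + 1)) :
    ∃ y ∈ F.fil 1 w, F.d 0 y = x := by
  rw [F.fil_succ] at hx
  induction hx using Submodule.smul_induction_on' with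
  | smul a ha y hy =>
    obtain ⟨h, hh, -⟩ := F.exists_homotopy ha
    exact ⟨h 0 y, F.map_mem_fil _ hy, (hh y).symm⟩
  | add x _ y _ hx hy =>
    obtain ⟨u, hu, rfl⟩ := hx
    obtain ⟨v, hv, rfl⟩ := hy
    exact ⟨u + v, add_mem hu hv, map_add _ _ _⟩

/-- The filtration used in the Artin-Rees argument. -/
noncomputable def arFiltration (i : ℕ) : (maximalIdeal R).Filtration (Fin (F.rank (i + 1)) → R) where
  N w := F.fil (i + 1) w ⊓ (F.fil i (w + 2)).comap (F.d i)
  mono w := by
    refine inf_le_inf (F.fil_mono (by omega)) (Submodule.comap_mono (F.fil_mono (by omega)))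
  smul_le w := by
    rw [Submodule.smul_le]
    rintro a ha x ⟨hx, hd⟩
    refine ⟨?_, ?_⟩
    · change a • x ∈ F.fil (i + 1) (w + 1)
      rw [F.fil_succ]
      exact Submodule.smul_mem_smul ha hx
    · change F.d i (a • x) ∈ F.fil i (w + 1 + 2)
      rw [map_smul, show w + 1 + 2 = w + 2 + 1 by omega, F.fil_succ]
      exact Submodule.smul_mem_smul ha hd

theorem exists_mid [IsNoetherianRing R] (i : ℕ) :
    ∃ w₀ : ℕ, ∀ w, w₀ ≤ w → ∀ x ∈ F.fil (i + 1) (w + 1), F.d i x ∈ F.fil i (w + 3) →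
      ∃ y ∈ F.fil (i + 2) w, x - F.d (i + 1) y ∈ F.fil (i + 1) (w + 2) := by
  have hs : (F.arFiltration i).Stable := by
    refine Ideal.Filtration.Stable.of_le
      (Ideal.stableFiltration_stable (maximalIdeal R) (⊤ : Submodule R (Fin (F.rank (i + 1)) → R)))
      ?_
    intro w
    exact inf_le_left
  obtain ⟨w₀, hw₀⟩ := hs
  refine ⟨w₀, fun w hw x hx hd => ?_⟩
  have hx' : x ∈ (F.arFiltration i).N (w + 1) := ⟨hx, hd⟩
  rw [← hw₀ w hw] at hx'
  clear hx hd
  induction hx' using Submodule.smul_induction_on' with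
  | smul a ha y hy =>
    exact F.smul_mem_of ha hy.1 hy.2
  | add x _ y _ hx hy =>
    obtain ⟨u, hu, hu'⟩ := hx
    obtain ⟨v, hv, hv'⟩ := hy
    refine ⟨u + v, add_mem hu hv, ?_⟩
    have : x + y - F.d (i + 1) (u + v) = (x - F.d (i + 1) u) + (y - F.d (i + 1) v) := by
      rw [map_add]; abel
    rw [this]
    exact add_mem hu' hv'

end residue

theorem exists_tailExact {R : Type u} [CommRing R] [IsLocalRing R] [IsNoetherianRing R]
    (F : MinimalFreeResolution R (ResidueField R)) (n : ℕ)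
    (hn : ∀ i, n ≤ i → F.LinExactAt i) : ∃ p₀, F.TailExact p₀ := by
  choose w₀ hw₀ using fun i => F.exists_mid i
  refine ⟨n + ∑ i ∈ Finset.range n, w₀ i, ?_, ?_, ?_⟩
  · intro w _ x hx
    obtain ⟨y, hy, rfl⟩ := F.zero_exact w x hx
    exact ⟨y, hy, by rw [sub_self]; exact Submodule.zero_mem _⟩
  · intro i hi
    exact ((F.linExactAt_iff i).1 (hn i (by omega))).1
  · intro i w hi x hx hd
    rcases Nat.lt_or_ge i n with h | h
    · have h1 : w₀ i ≤ ∑ i ∈ Finset.range n, w₀ i :=
        Finset.single_le_sum (f := w₀) (fun _ _ => Nat.zero_le _) (Finset.mem_range.2 h)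
      exact hw₀ i w (by omega) x hx hd
    · exact ((F.linExactAt_iff i).1 (hn i h)).2 w x hx hd

theorem TailExact.closed {R : Type u} [CommRing R] [IsLocalRing R] [IsNoetherianRing R]
    {F : MinimalFreeResolution R (ResidueField R)} {p₀ : ℕ} (h : F.TailExact p₀) (p : ℕ)
    (hp : p₀ ≤ p) :
    ∀ i ≤ p, ∀ x, F.d i x ∈ F.fil i (p + 1 - i) →
      ∃ y ∈ F.fil (i + 1) (p - i), F.d i y = F.d i x := by
  intro i hi x hx
  -- approximation to any order
  have key : ∀ n : ℕ, F.d i x ∈ (F.fil (i + 1) (p - i)).map (F.d i) ⊔ F.fil i n := by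
    intro n
    have key' : ∃ y ∈ F.fil (i + 1) (p - i), F.d i x - F.d i y ∈ F.fil i (p - i + n + 1) := by
      induction n with
      | zero =>
        refine ⟨0, Submodule.zero_mem _, ?_⟩
        rw [map_zero, sub_zero]
        have : p - i + 0 + 1 = p + 1 - i := by omega
        rw [this]
        exact hx
      | succ n ih =>
        obtain ⟨y, hy, hxy⟩ := ih
        cases i with
        | zero =>
          obtain ⟨y', hy', h'⟩ := h.zero (p - 0 + n) (by omega) _ hxy
          refine ⟨y + y', add_mem hy (F.fil_mono (by omega) hy'), ?_⟩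
          rw [map_add, ← sub_sub]
          exact h'
        | succ i =>
          obtain ⟨y', hy', h'⟩ := h.mid i (p - (i + 1) + n) (by omega) _ hxy (by
            rw [← map_sub, F.d_d]
            exact Submodule.zero_mem _)
          refine ⟨y + y', add_mem hy (F.fil_mono (by omega) hy'), ?_⟩
          rw [map_add, ← sub_sub]
          exact h'
    obtain ⟨y, hy, hxy⟩ := key'
    have : F.d i x = F.d i y + (F.d i x - F.d i y) := by abel
    rw [this]
    exact Submodule.add_mem_sup ⟨y, hy, rfl⟩ (F.fil_mono (by omega) hxy)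
  -- Krull
  have hK := Ideal.iInf_pow_smul_eq_bot_of_isLocalRing (M := (Fin (F.rank i) → R) ⧸
    (F.fil (i + 1) (p - i)).map (F.d i)) (maximalIdeal R) (Ideal.IsPrime.ne_top inferInstance)
  have h0 : (Submodule.Quotient.mk (F.d i x) : (Fin (F.rank i) → R) ⧸
      (F.fil (i + 1) (p - i)).map (F.d i)) = 0 := by
    have hmem : (Submodule.Quotient.mk (F.d i x) : (Fin (F.rank i) → R) ⧸
      (F.fil (i + 1) (p - i)).map (F.d i)) ∈ (⨅ n : ℕ, maximalIdeal R ^ n •
        (⊤ : Submodule R ((Fin (F.rank i) → R) ⧸ (F.fil (i + 1) (p - i)).map (F.d i)))) := by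
      rw [Submodule.mem_iInf]
      intro n
      have h1 : ((F.fil (i + 1) (p - i)).map (F.d i) ⊔ F.fil i n).map
          ((F.fil (i + 1) (p - i)).map (F.d i)).mkQ ≤ maximalIdeal R ^ n • ⊤ := by
        rw [Submodule.map_sup, Submodule.mkQ_map_self, bot_sup_eq]
        unfold fil
        exact (Submodule.map_smul'' _ _ _).le.trans (Submodule.smul_mono le_rfl le_top)
      exact h1 ⟨_, key n, rfl⟩
    rw [hK] at hmem
    exact (Submodule.mem_bot R).1 hmem
  rw [Submodule.Quotient.mk_eq_zero] at h0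
  obtain ⟨y, hy, hxy⟩ := h0
  exact ⟨y, hy, hxy⟩

end MinimalFreeResolution

end Pool.Agent.Lib.MP_d42622_al
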