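import Pool.Agent.Lib.MP_d42622_al.TotDefs

/-!
The total complex of a minimal free resolution of the residue field.
-/

namespace Pool.Agent.Lib.MP_d42622_al

open IsLocalRing

universe u

namespace MinimalFreeResolution

variable {R : Type u} [CommRing R] [IsLocalRing R] {M : Type u} [AddCommGroup M] [Module R M]
variable (F : MinimalFreeResolution R M)

theorem emb_eq_sum (i : ℕ) (x : Fin (F.rank i) → R) :
    F.emb i x = ∑ a : Fin (F.rank i), Finsupp.single (⟨i, a⟩ : F.Idx) (x a) := by
  unfold emb
  rw [LinearMap.sum_apply]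
  rfl

theorem emb_apply_self (i : ℕ) (x : Fin (F.rank i) → R) (a : Fin (F.rank i)) :
    F.emb i x ⟨i, a⟩ = x a := by
  classical
  rw [emb_eq_sum, Finsupp.finsetSum_apply, Finset.sum_eq_single a]
  · rw [Finsupp.single_eq_same]
  · intro b _ hb
    rw [Finsupp.single_apply, if_neg]
    intro h
    apply hb
    have := congrArg (fun s : F.Idx => s) h
    simpa using this
  · intro h
    exact absurd (Finset.mem_univ a) h

theorem emb_apply_ne {i : ℕ} (x : Fin (F.rank i) → R) (b : F.Idx) (hb : b.1 ≠ i) :
    F.emb i x b = 0 := by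
  classical
  rw [emb_eq_sum, Finsupp.finsetSum_apply]
  refine Finset.sum_eq_zero fun a _ => ?_
  rw [Finsupp.single_apply, if_neg]
  intro h
  exact hb (by rw [← h])

theorem totD_single (β : F.Idx) (r : R) : F.totD (Finsupp.single β r) = r • F.totX β := by
  unfold totD
  rw [Finsupp.linearCombination_single]

theorem totD_emb_succ (i : ℕ) (x : Fin (F.rank (i + 1)) → R) :
    F.totD (F.emb (i + 1) x) = F.emb i (F.d i x) := by
  rw [emb_eq_sum, map_sum]
  have h : ∀ a : Fin (F.rank (i + 1)), F.totD (Finsupp.single (⟨i + 1, a⟩ : F.Idx) (x a)) =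
      F.emb i (F.d i (x a • (Pi.single a 1 : Fin (F.rank (i + 1)) → R))) := by
    intro a
    rw [totD_single, map_smul, map_smul]
    rfl
  rw [Finset.sum_congr rfl fun a _ => h a, ← map_sum, ← map_sum, ← pi_eq_sum_univ' x]

theorem totD_emb_zero (x : Fin (F.rank 0) → R) : F.totD (F.emb 0 x) = 0 := by
  rw [emb_eq_sum, map_sum]
  refine Finset.sum_eq_zero fun a _ => ?_
  rw [totD_single]
  exact smul_zero _

theorem coord_mem {R : Type u} [CommRing R] {n : ℕ} {I : Ideal R} {x : Fin n → R}
    (hx : x ∈ I • (⊤ : Submodule R (Fin n → R))) (j : Fin n) : x j ∈ I := by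
  refine Submodule.smul_induction_on hx (fun r hr y _ => ?_) (fun y z hy hz => ?_)
  · exact I.mul_mem_right _ hr
  · exact I.add_mem hy hz

theorem rank_zero_eq_one (F : MinimalFreeResolution R (ResidueField R)) : F.rank 0 = 1 := by
  have hker : ∀ x, F.aug x = 0 → ∀ j, x j ∈ maximalIdeal R := by
    intro x hx j
    have h1 : x ∈ LinearMap.range (F.d 0) := by
      rw [F.exact_zero]
      exact hx
    exact coord_mem (F.minimal 0 h1) j
  have hpos : F.rank 0 ≠ 0 := by
    intro h0
    obtain ⟨x, hx⟩ := F.aug_surjective 1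
    have : IsEmpty (Fin (F.rank 0)) := by rw [h0]; infer_instance
    have hx0 : x = 0 := Subsingleton.elim _ _
    rw [hx0, map_zero] at hx
    exact zero_ne_one hx
  by_contra hne
  have h2 : 2 ≤ F.rank 0 := by omega
  let p : Fin (F.rank 0) := ⟨0, by omega⟩
  let q : Fin (F.rank 0) := ⟨1, by omega⟩
  have hpq : p ≠ q := by
    intro h
    have := congrArg Fin.val h
    simp [p, q] at this
  obtain ⟨u, hu⟩ := residue_surjective (F.aug (Pi.single p 1))
  obtain ⟨v, hv⟩ := residue_surjective (F.aug (Pi.single q 1))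
  have hsmul : ∀ (r : R) (t : ResidueField R), r • t = residue R r * t := by
    intro r t
    rw [Algebra.smul_def]
    rfl
  have h3 := hker (v • Pi.single p 1 - u • Pi.single q 1) (by
    rw [map_sub, map_smul, map_smul, hsmul, hsmul, hu, hv, mul_comm, sub_self])
  have h4 := h3 q
  rw [Pi.sub_apply, Pi.smul_apply, Pi.smul_apply, Pi.single_eq_of_ne hpq.symm,
    Pi.single_eq_same, smul_zero, zero_sub, smul_eq_mul, mul_one, neg_mem_iff] at h4
  have h5 : F.aug (Pi.single p 1) = 0 := by
    rw [← hu]
    exact (residue_eq_zero_iff _).2 h4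
  have h6 := hker _ h5 p
  rw [Pi.single_eq_same] at h6
  exact (mem_maximalIdeal _).1 h6 isUnit_one

theorem exists_totRes (F : MinimalFreeResolution R (ResidueField R)) :
    F.rank 0 = 1 ∧ ∃ K : TotRes R F.Idx, K.deg = Sigma.fst ∧ K.D = F.totD := by
  have h1 := rank_zero_eq_one F
  have hdd : ∀ (i : ℕ) (x : Fin (F.rank (i + 2)) → R), F.d i (F.d (i + 1) x) = 0 := by
    intro i x
    have : F.d (i + 1) x ∈ LinearMap.ker (F.d i) := by
      rw [← F.exact_succ i]; exact ⟨_, rfl⟩
    exact this
  have hs : ∀ β : F.Idx, F.totD (Finsupp.single β 1) = F.totX β := by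
    intro β
    rw [totD_single, one_smul]
  refine ⟨h1, ⟨{
    deg := Sigma.fst
    finite_deg := ?_
    o := ⟨0, ⟨0, by omega⟩⟩
    deg_o := rfl
    eq_o := ?_
    D := F.totD
    D_deg := ?_
    D_mem := ?_
    D_D := ?_
    exact := ?_
    exact_zero := ?_ }, rfl, rfl⟩⟩
  · intro n
    refine (Set.finite_range (fun a : Fin (F.rank n) => (⟨n, a⟩ : F.Idx))).subset ?_
    rintro ⟨i, a⟩ hi
    obtain rfl : i = n := hi
    exact ⟨a, rfl⟩
  · rintro ⟨i, a⟩ hi
    obtain rfl : i = 0 := hi
    have : a = ⟨0, by omega⟩ := by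
      apply Fin.ext
      have := a.2
      simp only
      omega
    rw [this]
  · rintro ⟨i, a⟩ γ h
    rw [hs] at h
    cases i with
    | zero => exact absurd rfl h
    | succ i =>
      by_contra hne
      exact h (F.emb_apply_ne _ _ fun h' => hne (by rw [h']))
  · rintro ⟨i, a⟩ γ
    rw [hs]
    cases i with
    | zero => exact Ideal.zero_mem _
    | succ i =>
      change F.emb i (F.d i (Pi.single a 1)) γ ∈ _
      by_cases hγ : γ.1 = i
      · obtain ⟨j, b⟩ := γ
        obtain rfl : j = i := hγ
        rw [emb_apply_self]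
        exact coord_mem (F.minimal j ⟨_, rfl⟩) b
      · rw [F.emb_apply_ne _ _ hγ]
        exact Ideal.zero_mem _
  · intro x
    have h : F.totD ∘ₗ F.totD = 0 := by
      refine Finsupp.lhom_ext' fun β => LinearMap.ext_ring ?_
      change F.totD (F.totD (Finsupp.single β 1)) = 0
      rw [hs]
      obtain ⟨i, a⟩ := β
      match i, a with
      | 0, a => exact map_zero _
      | 1, a => exact F.totD_emb_zero _
      | i + 2, a =>
        change F.totD (F.emb (i + 1) (F.d (i + 1) (Pi.single a 1))) = 0
        rw [totD_emb_succ, hdd, map_zero]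
    exact LinearMap.congr_fun h x
  · intro n x hx hDx
    have hx' : x = F.emb (n + 1) (fun a => x ⟨n + 1, a⟩) := by
      ext γ
      by_cases hγ : γ.1 = n + 1
      · obtain ⟨j, b⟩ := γ
        obtain rfl : j = n + 1 := hγ
        rw [emb_apply_self]
      · rw [F.emb_apply_ne _ _ hγ]
        by_contra h0
        exact hγ (hx γ h0)
    rw [hx', totD_emb_succ] at hDx
    have h2 : F.d n (fun a => x ⟨n + 1, a⟩) = 0 := by
      funext b
      have := DFunLike.congr_fun hDx (⟨n, b⟩ : F.Idx)
      rw [emb_apply_self] at this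
      exact this
    have h3 : (fun a => x ⟨n + 1, a⟩) ∈ LinearMap.range (F.d (n + 1)) := by
      rw [F.exact_succ n]
      exact h2
    obtain ⟨y, hy⟩ := h3
    refine ⟨F.emb (n + 2) y, fun γ hγ => ?_, ?_⟩
    · by_contra hne
      exact hγ (F.emb_apply_ne _ _ hne)
    · rw [totD_emb_succ, hy, ← hx']
  · intro a ha
    let p : Fin (F.rank 0) := ⟨0, by omega⟩
    have h2 : Finsupp.single (⟨0, p⟩ : F.Idx) a = F.emb 0 (Pi.single p a) := by
      classical
      ext γ
      by_cases hγ : γ.1 = 0
      · obtain ⟨j, b⟩ := γ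
        obtain rfl : j = 0 := hγ
        have hb : b = p := by
          apply Fin.ext
          have := b.2
          simp only [p]
          omega
        rw [hb, emb_apply_self, Finsupp.single_eq_same, Pi.single_eq_same]
      · rw [F.emb_apply_ne _ _ hγ, Finsupp.single_apply, if_neg]
        intro h
        exact hγ (by rw [← h])
    have h3 : (Pi.single p a : Fin (F.rank 0) → R) ∈ LinearMap.range (F.d 0) := by
      rw [F.exact_zero]
      change F.aug _ = 0
      have h4 : (Pi.single p a : Fin (F.rank 0) → R) = a • Pi.single p 1 := by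
        rw [← Pi.single_smul, smul_eq_mul, mul_one]
      rw [h4, map_smul, Algebra.smul_def]
      have h5 : algebraMap R (ResidueField R) a = 0 := (residue_eq_zero_iff _).2 ha
      rw [h5, zero_mul]
    obtain ⟨y, hy⟩ := h3
    refine ⟨F.emb 1 y, fun γ hγ => ?_, ?_⟩
    · by_contra hne
      exact hγ (F.emb_apply_ne _ _ hne)
    · rw [totD_emb_succ, hy]
      exact h2.symm

end MinimalFreeResolution

end Pool.Agent.Lib.MP_d42622_al
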