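import Pool.Agent.Lib.MP_d42622_al.GrOps
import Pool.Agent.Lib.MP_d42622_al.GrExists
import Pool.Agent.Lib.MP_d42622_al.Euler
import Pool.Agent.Lib.MP_d42622_al.TailExists
import Pool.Agent.Lib.MP_d42622_al.Resol
import Pool.Agent.Lib.MP_d42622_al.Total
import Pool.Agent.Lib.MP_d42622_al.Core5

/-!
A minimal free resolution of the residue field with finite linear defect has linear defect zero.
-/

namespace Pool.Agent.Lib.MP_d42622_al

open IsLocalRing

universe u

namespace MinimalFreeResolution

variable {R : Type u} [CommRing R] [IsLocalRing R]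

theorem mem_fil_iff {M : Type u} [AddCommGroup M] [Module R M] (F : MinimalFreeResolution R M)
    {i w : ℕ} {x : Fin (F.rank i) → R} : x ∈ F.fil i w ↔ ∀ a, x a ∈ maximalIdeal R ^ w :=
  mem_smul_top_pi _ _ _

theorem emb_mem {M : Type u} [AddCommGroup M] [Module R M] (F : MinimalFreeResolution R M)
    {i w : ℕ} {x : Fin (F.rank i) → R} (hx : x ∈ F.fil i w) (a : F.Idx) :
    F.emb i x a ∈ maximalIdeal R ^ w := by
  rw [mem_fil_iff] at hx
  by_cases h : a.1 = i
  · obtain ⟨j, b⟩ := a
    simp only at h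
    subst h
    rw [F.emb_apply_self]
    exact hx b
  · rw [F.emb_apply_ne x a h]
    exact Submodule.zero_mem _

theorem emb_mem' {M : Type u} [AddCommGroup M] [Module R M] (F : MinimalFreeResolution R M)
    {i w : ℕ} {x : Fin (F.rank i) → R} (hx : ∀ a, F.emb i x a ∈ maximalIdeal R ^ w) :
    x ∈ F.fil i w := by
  rw [mem_fil_iff]
  intro a
  have := hx ⟨i, a⟩
  rwa [F.emb_apply_self] at this

theorem eq_emb {M : Type u} [AddCommGroup M] [Module R M] (F : MinimalFreeResolution R M)
    {i : ℕ} {x : F.Idx →₀ R} (hx : ∀ a : F.Idx, a.1 ≠ i → x a = 0) :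
    x = F.emb i fun a => x ⟨i, a⟩ := by
  ext a
  by_cases h : a.1 = i
  · obtain ⟨j, b⟩ := a
    simp only at h
    subst h
    rw [F.emb_apply_self]
  · rw [F.emb_apply_ne _ a h, hx a h]

/-- The data of the core argument for a minimal free resolution of the residue field. -/
theorem exists_coreData [IsNoetherianRing R] (F : MinimalFreeResolution R (ResidueField R))
    (G : GrData R) (p₀ : ℕ) (hT : F.TailExact p₀) :
    ∃ D : CoreData (ResidueField R) G.𝔾 (F.Idx →₀ G.𝔾) G.Λ F.Idx,
      D.g = G.g ∧ D.wt = G.wt ∧ D.X = Finsupp.basisSingleOne ∧ D.dg = Sigma.fst ∧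
      D.del = G.grMap 1 F.totD := by
  obtain ⟨_, K, hKdeg, hKD⟩ := F.exists_totRes
  obtain ⟨O⟩ := G.nonempty_grOps K
  have hD1 : GrData.Ent (R := R) 1 K.D := fun a b => by rw [pow_one]; exact K.D_mem a b
  have hD : ∀ (w : ℕ) (x : F.Idx →₀ R), (∀ a, x a ∈ maximalIdeal R ^ w) →
      G.grMap 1 K.D (G.iniE w x) = G.iniE (1 + w) (K.D x) := fun w x hx =>
    G.grMap_iniE 1 w K.D hD1 x hx
  have hdeg : ∀ β : F.Idx, K.deg β = β.1 := fun β => by rw [hKdeg]
  refine ⟨{
    g := G.g
    wt := G.wt
    X := Finsupp.basisSingleOne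
    dg := K.deg
    finite_wt := G.finite_wt
    finite_dg := K.finite_deg
    g_mul := G.g_mul_supp
    one_wt := G.one_supp
    wt_zero := G.g_wt_zero
    o := K.o
    dg_o := K.deg_o
    eq_o := K.eq_o
    del := G.grMap 1 K.D
    del_supp := ?_
    del_del := ?_
    mul := O.mul
    mul_supp := ?_
    one_mul' := ?_
    mul_one' := ?_
    leibniz := ?_
    E := O.E
    E_supp := ?_
    E_self := ?_
    E_ne := ?_
    E_del := O.E_del
    E_der := ?_
    E_mul := ?_
    exact_zero := ?_
    p₀ := p₀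
    tail := ?_
    euler := ?_ }, rfl, rfl, rfl, hKdeg, by simp only [hKD]⟩
  · intro β γ a h
    rw [Finsupp.coe_basisSingleOne] at h
    have h1 : G.g.repr ((G.grMap 1 K.D (Finsupp.single β 1)) γ) a ≠ 0 := h
    rw [G.grMap_single, G.iniE_apply] at h1
    obtain ⟨h2, h3⟩ := G.ini_mem_supp (hD1 β γ) h1
    exact ⟨K.D_deg β γ h2, h3⟩
  · intro x
    have h1 : G.grMap 1 K.D ∘ₗ G.grMap 1 K.D = 0 := by
      rw [← G.grMap_comp 1 1 K.D K.D hD1 hD1]
      apply G.grMap_eq_zero
      intro a b
      rw [LinearMap.comp_apply, K.D_D, Finsupp.zero_apply]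
      exact Submodule.zero_mem _
    exact LinearMap.congr_fun h1 x
  · intro α β γ a h
    rw [Finsupp.coe_basisSingleOne] at h
    exact O.mul_supp α β γ a h
  · intro x
    rw [Finsupp.coe_basisSingleOne]
    exact O.one_mul' x
  · intro x
    rw [Finsupp.coe_basisSingleOne]
    exact O.mul_one' x
  · intro β y
    rw [Finsupp.coe_basisSingleOne]
    exact O.leibniz β y
  · intro α β γ a h
    rw [Finsupp.coe_basisSingleOne] at h
    exact O.E_supp α β γ a h
  · intro β
    rw [Finsupp.coe_basisSingleOne]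
    exact O.E_self β
  · intro β γ h1 h2
    rw [Finsupp.coe_basisSingleOne]
    exact O.E_ne β γ h1 h2
  · intro l hl β y
    rw [Finsupp.coe_basisSingleOne]
    have := O.E_der l (Finsupp.single β 1) (K.deg β) (by omega) (by
      intro γ hγ
      rw [Finsupp.single_eq_of_ne]
      rintro rfl
      exact hγ rfl) (by intro γ h1 h2; omega) y
    rwa [hl, one_mul] at this
  · intro α x hα hx hmid y
    have hx' : ∀ γ, K.deg γ ≠ K.deg α → x γ = 0 := hx
    have := O.E_der α x (K.deg α) hα hx' hmid y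
    rw [this]
    have h1 : O.E α x = x α • Finsupp.single K.o 1 := by
      conv_lhs => rw [← Finsupp.sum_single x, Finsupp.sum, map_sum]
      rw [Finset.sum_eq_single α]
      · have : (Finsupp.single α (x α) : F.Idx →₀ G.𝔾) = x α • Finsupp.single α 1 := by
          rw [Finsupp.smul_single, smul_eq_mul, mul_one]
        rw [this, map_smul, O.E_self]
      · intro γ _ hne
        by_cases h : K.deg γ = K.deg α
        · have : (Finsupp.single γ (x γ) : F.Idx →₀ G.𝔾) = x γ • Finsupp.single γ 1 := by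
            rw [Finsupp.smul_single, smul_eq_mul, mul_one]
          rw [this, map_smul, O.E_ne α γ h hne, smul_zero]
        · rw [hx' γ h, Finsupp.single_zero, map_zero]
      · intro h
        rw [Finsupp.notMem_support_iff.1 h, Finsupp.single_zero, map_zero]
    rw [h1, map_smul, LinearMap.smul_apply, O.one_mul']
    have h2 : (-1 : G.𝔾) ^ (K.deg α * K.deg α) = (-1) ^ K.deg α := by
      rcases Nat.even_or_odd (K.deg α) with h | h
      · rw [h.neg_one_pow, (h.mul_right _).neg_one_pow]
      · rw [h.neg_one_pow, (h.mul h).neg_one_pow]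
    rw [h2]
    rfl
  · intro w t ht
    obtain ⟨a, ha, rfl⟩ := G.ini_surj (w + 1) t ht
    have key : ∃ x : F.Idx →₀ R, (∀ γ, K.deg γ ≠ 1 → x γ = 0) ∧
        (∀ γ, x γ ∈ maximalIdeal R ^ w) ∧ K.D x = Finsupp.single K.o a := by
      rw [pow_succ'] at ha
      refine Submodule.mul_induction_on ha ?_ ?_
      · intro r hr s hs
        obtain ⟨y, hy1, hy2⟩ := K.exact_zero r hr
        refine ⟨s • y, ?_, ?_, ?_⟩
        · intro γ hγ
          have : y γ = 0 := by
            by_contra h
            exact hγ (hy1 γ h)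
          rw [Finsupp.smul_apply, this, smul_zero]
        · intro γ
          rw [Finsupp.smul_apply, smul_eq_mul]
          exact Ideal.mul_mem_right _ _ hs
        · rw [map_smul, hy2, Finsupp.smul_single, smul_eq_mul, mul_comm]
      · rintro r s ⟨x, hx1, hx2, hx3⟩ ⟨y, hy1, hy2, hy3⟩
        refine ⟨x + y, ?_, ?_, ?_⟩
        · intro γ hγ
          rw [Finsupp.add_apply, hx1 γ hγ, hy1 γ hγ, add_zero]
        · intro γ
          rw [Finsupp.add_apply]
          exact Ideal.add_mem _ (hx2 γ) (hy2 γ)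
        · rw [map_add, hx3, hy3, Finsupp.single_add]
    obtain ⟨x, hx1, hx2, hx3⟩ := key
    refine ⟨G.iniE w x, ?_, ?_⟩
    · intro β b h
      have h' : G.g.repr (G.iniE w x β) b ≠ 0 := h
      rw [G.iniE_apply] at h'
      obtain ⟨h2, h3⟩ := G.ini_mem_supp (hx2 β) h'
      refine ⟨?_, h3⟩
      by_contra hne
      exact h2 (hx1 β hne)
    · rw [hD w x hx2, hx3, Finsupp.coe_basisSingleOne]
      have h4 : (Finsupp.single K.o a : F.Idx →₀ R) = a • Finsupp.single K.o 1 := by
        rw [Finsupp.smul_single, smul_eq_mul, mul_one]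
      have h5 := G.iniE_smul 0 (w + 1) a (Finsupp.single K.o 1) ha
        (fun _ => GrData.mem_pow_zero _)
      rw [h4, add_comm 1 w]
      rw [add_zero] at h5
      rw [h5, G.iniE_single]
  · intro i w hiw x hx hdx
    have hx' : ∀ β a, G.g.repr (x β) a ≠ 0 → K.deg β = i ∧ G.wt a = w := hx
    obtain ⟨x', hx1, hx2, hx3⟩ := G.exists_iniE w x (fun β a h => (hx' β a h).2)
    have hx4 : ∀ β : F.Idx, β.1 ≠ i → x' β = 0 := by
      intro β hβ
      apply hx2
      apply G.g.repr.injective
      rw [map_zero]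
      ext a
      by_contra h
      exact hβ (by rw [← hdeg]; exact (hx' β a h).1)
    have hx5 := F.eq_emb hx4
    set x'' : Fin (F.rank i) → R := fun a => x' ⟨i, a⟩ with hx''
    have hfil : x'' ∈ F.fil i w := F.emb_mem' fun a => by rw [← hx5]; exact hx1 a
    have hdx' : ∀ a, F.totD x' a ∈ maximalIdeal R ^ (w + 2) := by
      rw [← hx3, hD w x' hx1] at hdx
      have h1 := (G.iniE_eq_zero_iff (1 + w) (K.D x') (GrData.Ent.mem hD1 hx1)).1 hdx
      intro a
      have := h1 a
      rw [hKD] at this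
      rwa [show w + 2 = 1 + w + 1 by ring]
    cases i with
    | zero =>
      obtain ⟨v, rfl⟩ : ∃ v, w = v + 1 := ⟨w - 1, by omega⟩
      obtain ⟨y, hy, hxy⟩ := hT.zero v (by omega) x'' hfil
      refine ⟨G.iniE v (F.emb 1 y), ?_, ?_⟩
      · intro β b h
        have h' : G.g.repr (G.iniE v (F.emb 1 y) β) b ≠ 0 := h
        rw [G.iniE_apply] at h'
        obtain ⟨h2, h3⟩ := G.ini_mem_supp (F.emb_mem hy β) h'
        refine ⟨?_, by omega⟩
        rw [hdeg]
        by_contra hne
        exact h2 (F.emb_apply_ne y β (by omega))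
      · rw [hD v _ (F.emb_mem hy), hKD, F.totD_emb_succ, ← hx3, hx5, add_comm 1 v]
        symm
        apply G.iniE_congr
        · exact F.emb_mem (F.d_mem_fil hy)
        · intro a
          have := F.emb_mem hxy a
          rw [map_sub, Finsupp.sub_apply] at this
          exact this
    | succ i =>
      have hd : F.d i x'' ∈ F.fil i (w + 2) := by
        apply F.emb_mem'
        intro a
        rw [← F.totD_emb_succ, ← hx5]
        exact hdx' a
      cases w with
      | zero =>
        refine ⟨0, ?_, ?_⟩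
        · intro β b h
          simp at h
        · have h1 := hT.top i (by omega) x'' hd
          rw [map_zero, ← hx3]
          symm
          rw [G.iniE_eq_zero_iff 0 x' hx1, hx5]
          intro a
          exact F.emb_mem h1 a
      | succ v =>
        obtain ⟨y, hy, hxy⟩ := hT.mid i v (by omega) x'' hfil hd
        refine ⟨G.iniE v (F.emb (i + 2) y), ?_, ?_⟩
        · intro β b h
          have h' : G.g.repr (G.iniE v (F.emb (i + 2) y) β) b ≠ 0 := h
          rw [G.iniE_apply] at h'
          obtain ⟨h2, h3⟩ := G.ini_mem_supp (F.emb_mem hy β) h'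
          refine ⟨?_, by omega⟩
          rw [hdeg]
          by_contra hne
          exact h2 (F.emb_apply_ne y β (by omega))
        · rw [hD v _ (F.emb_mem hy), hKD, F.totD_emb_succ, ← hx3, hx5, add_comm 1 v]
          symm
          apply G.iniE_congr
          · exact F.emb_mem (F.d_mem_fil hy)
          · intro a
            have := F.emb_mem hxy a
            rw [map_sub, Finsupp.sub_apply] at this
            exact this
  · intro p hp
    have h1 := F.euler G p (hT.closed p hp)
    refine Eq.trans ?_ h1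
    apply Finset.sum_congr rfl
    intro i _
    have h2 : Nat.card {β : F.Idx // K.deg β = i} = F.rank i := by
      rw [← Nat.card_fin (F.rank i)]
      refine Nat.card_congr ⟨fun β => ⟨β.1.2.1, ?_⟩, fun a => ⟨⟨i, a⟩, hdeg _⟩, ?_, ?_⟩
      · have h3 : β.1.2.1 < F.rank β.1.1 := β.1.2.2
        have h4 := β.2
        rw [hdeg] at h4
        exact lt_of_lt_of_eq h3 (congrArg F.rank h4)
      · rintro ⟨⟨j, a⟩, h⟩
        have h' : j = i := by rw [hdeg] at h; exact h
        subst h'
        rfl
      · intro a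
        rfl
    rw [h2]

/-- A minimal free resolution of the residue field of a Noetherian local ring which has finite
linear defect has a linear part which is exact in all positive degrees. -/
theorem linExactAt_of_tail [IsNoetherianRing R] (F : MinimalFreeResolution R (ResidueField R))
    (n : ℕ) (hn : ∀ i, n ≤ i → F.LinExactAt i) (i : ℕ) : F.LinExactAt i := by
  obtain ⟨p₀, hT⟩ := F.exists_tailExact n hn
  obtain ⟨G⟩ := exists_grData R
  obtain ⟨D, hg, hwt, hX, hdg, hdel⟩ := F.exists_coreData G p₀ hT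
  have hD1 : GrData.Ent (R := R) 1 F.totD := by
    obtain ⟨_, K, _, hKD⟩ := F.exists_totRes
    intro a b
    rw [pow_one, ← hKD]
    exact K.D_mem a b
  have hmem : ∀ {j w : ℕ} {x : F.Idx →₀ G.𝔾}, x ∈ D.V.PP j w ↔
      ∀ β a, G.g.repr (x β) a ≠ 0 → β.1 = j ∧ G.wt a = w := by
    intro j w x
    rw [D.mem_PP, hg, hwt, hX, hdg]
    constructor
    · intro h β a hne
      exact_mod_cast h β a hne
    · intro h β a hne
      exact_mod_cast h β a hne
  have hin : ∀ {j w : ℕ} {x : Fin (F.rank j) → R}, x ∈ F.fil j w →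
      G.iniE w (F.emb j x) ∈ D.V.PP j w := by
    intro j w x hx
    rw [hmem]
    intro β a h
    rw [G.iniE_apply] at h
    obtain ⟨h2, h3⟩ := G.ini_mem_supp (F.emb_mem hx β) h
    refine ⟨?_, h3⟩
    by_contra hne
    exact h2 (F.emb_apply_ne x β hne)
  have hdel' : ∀ {j w : ℕ} {x : Fin (F.rank (j + 1)) → R}, x ∈ F.fil (j + 1) w →
      D.del (G.iniE w (F.emb (j + 1) x)) = G.iniE (w + 1) (F.emb j (F.d j x)) := by
    intro j w x hx
    rw [hdel, G.grMap_iniE 1 w _ hD1 _ (F.emb_mem hx), F.totD_emb_succ, add_comm]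
  rw [linExactAt_iff]
  constructor
  · intro x hx
    have hx0 := F.mem_fil_zero (i + 1) x
    have h1 : G.iniE 0 (F.emb (i + 1) x) = 0 := by
      apply D.coc_zero (i + 1) (by omega)
      · exact_mod_cast hin hx0
      · rw [hdel' hx0, G.iniE_eq_zero_iff 1 _ (F.emb_mem (F.d_mem_fil hx0))]
        exact F.emb_mem hx
    rw [G.iniE_eq_zero_iff 0 _ (F.emb_mem hx0)] at h1
    exact F.emb_mem' h1
  · intro w x hx hdx
    obtain ⟨y, hy, hdy⟩ := D.exact_pos (i + 1) w (G.iniE (w + 1) (F.emb (i + 1) x))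
      (by exact_mod_cast hin hx) (by
        rw [hdel' hx, G.iniE_eq_zero_iff (w + 1 + 1) _ (F.emb_mem (F.d_mem_fil hx))]
        exact F.emb_mem hdx)
    have hy' : y ∈ D.V.PP ((i + 2 : ℕ) : ℤ) (w : ℕ) := by
      have : (((i + 1 : ℕ) : ℤ) + 1) = ((i + 2 : ℕ) : ℤ) := by push_cast; ring
      rwa [this] at hy
    rw [hmem] at hy'
    obtain ⟨y', hy1, hy2, hy3⟩ := G.exists_iniE w y (fun β a h => (hy' β a h).2)
    have hy4 : ∀ β : F.Idx, β.1 ≠ i + 2 → y' β = 0 := by
      intro β hβ
      apply hy2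
      apply G.g.repr.injective
      rw [map_zero]
      ext a
      by_contra h
      exact hβ (hy' β a h).1
    have hy5 := F.eq_emb hy4
    set y'' : Fin (F.rank (i + 2)) → R := fun a => y' ⟨i + 2, a⟩ with hy''
    have hfil : y'' ∈ F.fil (i + 2) w := F.emb_mem' fun a => by rw [← hy5]; exact hy1 a
    refine ⟨y'', hfil, ?_⟩
    apply F.emb_mem'
    have hs : x - F.d (i + 1) y'' ∈ F.fil (i + 1) (w + 1) :=
      Submodule.sub_mem _ hx (F.d_mem_fil hfil)
    rw [← G.iniE_eq_zero_iff (w + 1) _ (F.emb_mem hs)]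
    have h1 : G.iniE (w + 1) (F.emb (i + 1) (F.d (i + 1) y'')) =
        G.iniE (w + 1) (F.emb (i + 1) x) := by
      rw [← hdel' hfil, ← hdy, ← hy5, hy3]
    have h2 : F.emb (i + 1) x = F.emb (i + 1) (x - F.d (i + 1) y'') +
        F.emb (i + 1) (F.d (i + 1) y'') := by
      rw [← map_add, sub_add_cancel]
    rw [h2, G.iniE_add _ _ _ (F.emb_mem hs) (F.emb_mem (F.d_mem_fil hfil))] at h1
    exact right_eq_add.1 h1

end MinimalFreeResolution

end Pool.Agent.Lib.MP_d42622_al
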