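import Pool.Agent.Lib.MP_d42622_al.Statement
import Pool.Agent.Lib.MP_d42622_al.Tail
import Pool.Agent.Lib.MP_d42622_al.Euler
import Pool.Agent.Lib.MP_d42622_al.Resol

/-!
Comparison of minimal free resolutions with and without a chosen basis.
-/

namespace Pool.Agent.Lib.MP_d42622_al

open IsLocalRing

universe u

section Gr

variable {R : Type u} [CommRing R] [IsLocalRing R]
variable {N : Type u} [AddCommGroup N] [Module R N] {N' : Type u} [AddCommGroup N'] [Module R N']
variable {N'' : Type u} [AddCommGroup N''] [Module R N'']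

/-- The class of an element. -/
def grMk (w : ℕ) : mPow R N w →ₗ[R] GrPiece R N w :=
  Submodule.mkQ ((mPow R N (w + 1)).submoduleOf (mPow R N w))

theorem grMk_surjective (w : ℕ) (m : GrPiece R N w) : ∃ x, grMk w x = m :=
  Submodule.Quotient.mk_surjective _ m

theorem grMk_eq_zero {w : ℕ} (x : mPow R N w) : grMk w x = 0 ↔ x.1 ∈ mPow R N (w + 1) :=
  Submodule.Quotient.mk_eq_zero ((mPow R N (w + 1)).submoduleOf (mPow R N w))

theorem grPieceMap_mk (f : N →ₗ[R] N') (hf : LinearMap.range f ≤ mPow R N' 1) {w : ℕ}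
    (x : mPow R N w) : grPieceMap f hf w (grMk w x) = grMk (w + 1) ⟨f x.1, map_mem_mPow f hf w _ x.2⟩ :=
  rfl

theorem ker_grPieceMap (f : N →ₗ[R] N') (hf : LinearMap.range f ≤ mPow R N' 1) (w : ℕ) :
    LinearMap.ker (grPieceMap f hf w) = ⊥ ↔
      ∀ x ∈ mPow R N w, f x ∈ mPow R N' (w + 2) → x ∈ mPow R N (w + 1) := by
  rw [LinearMap.ker_eq_bot']
  constructor
  · intro h x hx hd
    have := h (grMk w ⟨x, hx⟩) (by rw [grPieceMap_mk, grMk_eq_zero]; exact hd)
    rw [grMk_eq_zero] at this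
    exact this
  · intro h m hm
    obtain ⟨x, rfl⟩ := grMk_surjective _ m
    rw [grPieceMap_mk, grMk_eq_zero] at hm
    rw [grMk_eq_zero]
    exact h x.1 x.2 hm

theorem ker_eq_range_grPieceMap (f : N →ₗ[R] N') (hf : LinearMap.range f ≤ mPow R N' 1)
    (g : N'' →ₗ[R] N) (hg : LinearMap.range g ≤ mPow R N 1) (hfg : ∀ y, f (g y) = 0) (w : ℕ) :
    LinearMap.ker (grPieceMap f hf (w + 1)) = LinearMap.range (grPieceMap g hg w) ↔
      ∀ x ∈ mPow R N (w + 1), f x ∈ mPow R N' (w + 3) →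
        ∃ y ∈ mPow R N'' w, x - g y ∈ mPow R N (w + 2) := by
  have key : ∀ (y : mPow R N'' w) (x : mPow R N (w + 1)),
      grPieceMap g hg w (grMk w y) = grMk (w + 1) x ↔ x.1 - g y.1 ∈ mPow R N (w + 2) := by
    intro y x
    rw [grPieceMap_mk, eq_comm, ← sub_eq_zero, ← map_sub, grMk_eq_zero]
    rfl
  constructor
  · intro h x hx hd
    have h1 : grMk (w + 1) ⟨x, hx⟩ ∈ LinearMap.ker (grPieceMap f hf (w + 1)) := by
      rw [LinearMap.mem_ker, grPieceMap_mk, grMk_eq_zero]
      exact hd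
    rw [h] at h1
    obtain ⟨m, hm⟩ := h1
    obtain ⟨y, rfl⟩ := grMk_surjective _ m
    exact ⟨y.1, y.2, (key y ⟨x, hx⟩).1 hm⟩
  · intro h
    apply le_antisymm
    · intro m hm
      obtain ⟨x, rfl⟩ := grMk_surjective _ m
      rw [LinearMap.mem_ker, grPieceMap_mk, grMk_eq_zero] at hm
      obtain ⟨y, hy, hxy⟩ := h x.1 x.2 hm
      exact ⟨grMk w ⟨y, hy⟩, (key ⟨y, hy⟩ x).2 hxy⟩
    · rintro _ ⟨m, rfl⟩
      obtain ⟨y, rfl⟩ := grMk_surjective _ m
      rw [LinearMap.mem_ker, grPieceMap_mk, grPieceMap_mk, grMk_eq_zero]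
      change f (g y.1) ∈ _
      rw [hfg]
      exact Submodule.zero_mem _

theorem mem_mPow_equiv (e : N ≃ₗ[R] N') {w : ℕ} {x : N} :
    e x ∈ mPow R N' w ↔ x ∈ mPow R N w := by
  have h : (mPow R N w).map e.toLinearMap = mPow R N' w := by
    unfold mPow
    rw [Submodule.map_smul'', Submodule.map_top, LinearEquiv.range]
  rw [← h]
  constructor
  · rintro ⟨y, hy, hxy⟩
    have : y = x := e.injective hxy
    rwa [← this]
  · intro hx
    exact ⟨x, hx, rfl⟩

end Gr

namespace MinFreeRes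

variable {R : Type u} [CommRing R] [IsLocalRing R] {M : Type u} [AddCommGroup M] [Module R M]
variable (F : MinFreeRes R M)

theorem d_d (i : ℕ) (y : F.F (i + 2)) : F.d i (F.d (i + 1) y) = 0 := by
  have : F.d (i + 1) y ∈ LinearMap.ker (F.d i) := by
    rw [← F.exact_succ i]; exact ⟨_, rfl⟩
  exact this

theorem linExactAt_iff (i : ℕ) : F.LinExactAt i ↔
    (∀ x, F.d i x ∈ mPow R (F.F i) 2 → x ∈ mPow R (F.F (i + 1)) 1) ∧
    ∀ w, ∀ x ∈ mPow R (F.F (i + 1)) (w + 1), F.d i x ∈ mPow R (F.F i) (w + 3) →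
      ∃ y ∈ mPow R (F.F (i + 2)) w, x - F.d (i + 1) y ∈ mPow R (F.F (i + 1)) (w + 2) := by
  unfold LinExactAt lin
  rw [ker_grPieceMap]
  refine and_congr ?_ (forall_congr' fun w => ?_)
  · constructor
    · intro h x hx
      refine h x ?_ hx
      unfold mPow
      rw [pow_zero, Ideal.one_eq_top, Submodule.top_smul]
      trivial
    · intro h x _ hx
      exact h x hx
  · exact ker_eq_range_grPieceMap _ _ _ _ (F.d_d i) w

/-- Coordinates on the modules of the resolution. -/
noncomputable def e (i : ℕ) : F.F i ≃ₗ[R] (Fin (Module.finrank R (F.F i)) → R) :=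
  haveI := F.free i
  haveI := F.finite i
  (Module.finBasis R (F.F i)).equivFun

/-- The resolution with chosen bases. -/
noncomputable def toFin : MinimalFreeResolution R M where
  rank i := Module.finrank R (F.F i)
  d i := (F.e i).toLinearMap ∘ₗ F.d i ∘ₗ (F.e (i + 1)).symm.toLinearMap
  aug := F.aug ∘ₗ (F.e 0).symm.toLinearMap
  aug_surjective := F.aug_surjective.comp (F.e 0).symm.surjective
  exact_zero := by
    ext x
    rw [LinearMap.mem_ker, LinearMap.mem_range]
    constructor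
    · rintro ⟨y, rfl⟩
      have : F.d 0 ((F.e 1).symm y) ∈ LinearMap.ker F.aug := by
        rw [← F.exact_zero]; exact ⟨_, rfl⟩
      simpa using this
    · intro hx
      have h1 : (F.e 0).symm x ∈ LinearMap.ker F.aug := hx
      rw [← F.exact_zero] at h1
      obtain ⟨y, hy⟩ := h1
      refine ⟨F.e 1 y, ?_⟩
      simp [hy]
  exact_succ i := by
    ext x
    rw [LinearMap.mem_ker, LinearMap.mem_range]
    constructor
    · rintro ⟨y, rfl⟩
      have : F.d i (F.d (i + 1) ((F.e (i + 2)).symm y)) = 0 := F.d_d i _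
      simp [this]
    · intro hx
      have h1 : (F.e (i + 1)).symm x ∈ LinearMap.ker (F.d i) := by
        rw [LinearMap.mem_ker]
        simpa using hx
      rw [← F.exact_succ] at h1
      obtain ⟨y, hy⟩ := h1
      refine ⟨F.e (i + 2) y, ?_⟩
      simp [hy]
  minimal i := by
    rintro _ ⟨y, rfl⟩
    have h1 : F.d i ((F.e (i + 1)).symm y) ∈ mPow R (F.F i) 1 := F.minimal i ⟨_, rfl⟩
    have h2 := (mem_mPow_equiv (F.e i)).2 h1
    unfold mPow at h2
    rw [pow_one] at h2
    exact h2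

/-- Coordinates on the modules of the resolution. -/
noncomputable def c (i : ℕ) : F.F i ≃ₗ[R] (Fin (F.toFin.rank i) → R) := F.e i

theorem mem_fil {i w : ℕ} (x : F.F i) : F.c i x ∈ F.toFin.fil i w ↔ x ∈ mPow R (F.F i) w :=
  mem_mPow_equiv (F.c i)

theorem toFin_d (i : ℕ) (x : F.F (i + 1)) :
    F.toFin.d i (F.c (i + 1) x) = F.c i (F.d i x) := by
  have : F.toFin.d i (F.c (i + 1) x) = F.c i (F.d i ((F.e (i + 1)).symm (F.e (i + 1) x))) := rfl
  rw [this, LinearEquiv.symm_apply_apply]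

theorem linExactAt_toFin (i : ℕ) : F.toFin.LinExactAt i ↔ F.LinExactAt i := by
  rw [F.toFin.linExactAt_iff, F.linExactAt_iff]
  constructor
  · rintro ⟨h1, h2⟩
    refine ⟨fun x hx => ?_, fun w x hx hd => ?_⟩
    · rw [← F.mem_fil]
      apply h1
      rw [F.toFin_d, F.mem_fil]
      exact hx
    · obtain ⟨y, hy, hxy⟩ := h2 w (F.c (i + 1) x) ((F.mem_fil x).2 hx)
        (by rw [F.toFin_d, F.mem_fil]; exact hd)
      obtain ⟨y, rfl⟩ := (F.c (i + 2)).surjective y
      refine ⟨y, (F.mem_fil y).1 hy, ?_⟩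
      rw [F.toFin_d (i + 1), ← map_sub, F.mem_fil] at hxy
      exact hxy
  · rintro ⟨h1, h2⟩
    refine ⟨fun x hx => ?_, fun w x hx hd => ?_⟩
    · obtain ⟨x, rfl⟩ := (F.c (i + 1)).surjective x
      rw [F.toFin_d, F.mem_fil] at hx
      exact (F.mem_fil x).2 (h1 x hx)
    · obtain ⟨x, rfl⟩ := (F.c (i + 1)).surjective x
      rw [F.toFin_d, F.mem_fil] at hd
      obtain ⟨y, hy, hxy⟩ := h2 w x ((F.mem_fil x).1 hx) hd
      refine ⟨F.c (i + 2) y, (F.mem_fil y).2 hy, ?_⟩
      rw [F.toFin_d (i + 1), ← map_sub, F.mem_fil]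
      exact hxy

/-- A resolution with chosen bases as a resolution. -/
noncomputable def ofFin (F : MinimalFreeResolution R M) : MinFreeRes R M where
  F i := Fin (F.rank i) → R
  free _ := inferInstance
  finite _ := inferInstance
  d := F.d
  aug := F.aug
  aug_surjective := F.aug_surjective
  exact_zero := F.exact_zero
  exact_succ := F.exact_succ
  minimal i := by
    unfold mPow
    rw [pow_one]
    exact F.minimal i

end MinFreeRes

end Pool.Agent.Lib.MP_d42622_al
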