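import Pool.Agent.Lib.MP_d42622_al.CoreDefs

/-!
Basic operators on the linear part.
-/

namespace Pool.Agent.Lib.MP_d42622_al

open Finset

namespace CoreData

variable {k 𝔾 P Λ I : Type*} [Field k] [CommRing 𝔾] [Algebra k 𝔾]
    [AddCommGroup P] [Module 𝔾 P] [Module k P] [IsScalarTower k 𝔾 P]
    (D : CoreData k 𝔾 P Λ I)

theorem finite_le_wt (n : ℕ) : {a | D.wt a ≤ n}.Finite := by
  have : {a | D.wt a ≤ n} = ⋃ w ∈ Set.Iic n, {a | D.wt a = w} := by
    ext a; simp
  rw [this]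
  exact Set.Finite.biUnion (Set.finite_Iic n) fun w _ => D.finite_wt w

theorem finite_le_dg (n : ℕ) : {a | D.dg a ≤ n}.Finite := by
  have : {a | D.dg a ≤ n} = ⋃ w ∈ Set.Iic n, {a | D.dg a = w} := by
    ext a; simp
  rw [this]
  exact Set.Finite.biUnion (Set.finite_Iic n) fun w _ => D.finite_dg w

/-- The bigraded vector space `P`. -/
noncomputable def V : Bigr k P (Λ × I) where
  B := D.g.smulTower D.X
  dg c := D.dg c.2
  wt c := D.wt c.1
  fin j := by
    refine Set.Finite.subset ((D.finite_le_wt j.toNat).prod (D.finite_le_dg j.toNat)) ?_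
    rintro ⟨a, β⟩ h
    simp only [Set.mem_ofPred_eq, Set.mem_prod] at h ⊢
    omega

theorem V_dg (c : Λ × I) : D.V.dg c = D.dg c.2 := rfl

theorem V_wt (c : Λ × I) : D.V.wt c = D.wt c.1 := rfl

theorem V_B (c : Λ × I) : D.V.B c = D.g c.1 • D.X c.2 := by
  simp [V, Module.Basis.smulTower_apply]

theorem V_repr (x : P) (c : Λ × I) : D.V.B.repr x c = D.g.repr (D.X.repr x c.2) c.1 := by
  simp [V, Module.Basis.smulTower_repr]

theorem mem_PP {i w : ℤ} {x : P} : x ∈ D.V.PP i w ↔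
    ∀ β a, D.g.repr (D.X.repr x β) a ≠ 0 → (D.dg β : ℤ) = i ∧ (D.wt a : ℤ) = w := by
  rw [Bigr.mem_PP]
  constructor
  · intro h β a hne
    exact h (a, β) (by rw [V_repr]; exact hne)
  · rintro h ⟨a, β⟩ hne
    rw [V_repr] at hne
    exact h β a hne

/-- Homogeneous elements of the graded ring. -/
def GG (w : ℤ) : Submodule k 𝔾 := Submodule.span k (D.g '' {a | (D.wt a : ℤ) = w})

theorem mem_GG {w : ℤ} {t : 𝔾} :
    t ∈ D.GG w ↔ ∀ a, D.g.repr t a ≠ 0 → (D.wt a : ℤ) = w := by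
  unfold GG
  rw [Module.Basis.mem_span_image]
  constructor
  · intro h c hc
    exact h (by simpa using hc)
  · intro h c hc
    exact h c (by simpa using hc)

theorem g_mem (a : Λ) : D.g a ∈ D.GG (D.wt a) := Submodule.subset_span ⟨a, rfl, rfl⟩

theorem one_mem : (1 : 𝔾) ∈ D.GG 0 := by
  rw [mem_GG]
  intro a ha
  simpa using D.one_wt a ha

theorem algebraMap_mem (t : k) : algebraMap k 𝔾 t ∈ D.GG 0 := by
  rw [Algebra.algebraMap_eq_smul_one]
  exact Submodule.smul_mem _ _ D.one_mem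

theorem GG_mul {v w u : ℤ} {s t : 𝔾} (hs : s ∈ D.GG v) (ht : t ∈ D.GG w) (hu : u = v + w) :
    s * t ∈ D.GG u := by
  subst hu
  have h := Submodule.mul_mem_mul hs ht
  unfold GG at h
  rw [Submodule.span_mul_span] at h
  refine (Submodule.span_le.2 ?_) h
  rintro _ ⟨_, ⟨a, ha, rfl⟩, _, ⟨b, hb, rfl⟩, rfl⟩
  rw [SetLike.mem_coe, mem_GG]
  intro c hc
  have := D.g_mul a b c hc
  simp only [Set.mem_ofPred_eq] at ha hb
  omega

theorem mem_PP_iff {i w : ℤ} {x : P} : x ∈ D.V.PP i w ↔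
    (∀ β, D.X.repr x β ∈ D.GG w) ∧ ∀ β, (D.dg β : ℤ) ≠ i → D.X.repr x β = 0 := by
  rw [mem_PP]
  constructor
  · intro h
    refine ⟨fun β => D.mem_GG.2 fun a ha => (h β a ha).2, fun β hβ => ?_⟩
    apply D.g.repr.injective
    ext a
    by_contra hne
    exact hβ (h β a (by simpa using hne)).1
  · rintro ⟨h1, h2⟩ β a ha
    refine ⟨?_, D.mem_GG.1 (h1 β) a ha⟩
    by_contra hne
    rw [h2 β hne] at ha
    simp at ha

theorem smul_mem {i w v u : ℤ} {x : P} {t : 𝔾} (ht : t ∈ D.GG v) (hx : x ∈ D.V.PP i w)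
    (hu : u = v + w) : t • x ∈ D.V.PP i u := by
  rw [mem_PP_iff] at hx ⊢
  refine ⟨fun β => ?_, fun β hβ => ?_⟩
  · rw [map_smul]
    exact D.GG_mul ht (hx.1 β) hu
  · rw [map_smul, Finsupp.smul_apply, hx.2 β hβ, smul_zero]

theorem X_mem (β : I) : D.X β ∈ D.V.PP (D.dg β) 0 := by
  classical
  rw [mem_PP_iff]
  refine ⟨fun γ => ?_, fun γ hγ => ?_⟩
  · rw [D.X.repr_self, Finsupp.single_apply]
    split_ifs
    · exact D.one_mem
    · exact Submodule.zero_mem _
  · rw [D.X.repr_self, Finsupp.single_apply, if_neg]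
    rintro rfl
    exact hγ rfl

theorem V_B_mem (c : Λ × I) : D.V.B c ∈ D.V.PP (D.dg c.2) (D.wt c.1) := D.V.B_mem c

/-- The elements of a given degree. -/
noncomputable def deg (n : ℕ) : Finset I := (D.finite_dg n).toFinset

theorem mem_deg {n : ℕ} {β : I} : β ∈ D.deg n ↔ D.dg β = n := by simp [deg]

theorem sum_repr {i : ℕ} {w : ℤ} {x : P} (hx : x ∈ D.V.PP i w) :
    x = ∑ β ∈ D.deg i, D.X.repr x β • D.X β := by
  conv_lhs => rw [← D.X.linearCombination_repr x, Finsupp.linearCombination_apply, Finsupp.sum]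
  apply Finset.sum_subset
  · intro β hβ
    rw [mem_deg]
    by_contra hne
    apply (Finsupp.mem_support_iff.1 hβ)
    exact (D.mem_PP_iff.1 hx).2 β (by exact_mod_cast hne)
  · intro β _ hβ
    rw [Finsupp.notMem_support_iff.1 hβ, zero_smul]

/-- A `𝔾`-linear map as an operator over `k`. -/
def op (f : P →ₗ[𝔾] P) : Module.End k P := f.restrictScalars k

@[simp] theorem op_apply (f : P →ₗ[𝔾] P) (x : P) : (op f : Module.End k P) x = f x := rfl

theorem op_hm {f : P →ₗ[𝔾] P} {a b : ℤ} (h : ∀ β, f (D.X β) ∈ D.V.PP (D.dg β + a) b) :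
    D.V.Hm a b (op f) := by
  intro c
  rw [V_B, op_apply, map_smul]
  exact D.smul_mem (D.g_mem c.1) (h c.2) rfl

theorem op_hm_ext {f f' : P →ₗ[𝔾] P} (h : ∀ β, f (D.X β) = f' (D.X β)) : f = f' := D.X.ext h

theorem op_injective {f f' : P →ₗ[𝔾] P} (h : (op f : Module.End k P) = op f') : f = f' := by
  ext x; exact LinearMap.congr_fun h x

/-- The sign operator is `𝔾`-linear. -/
noncomputable def epG : P →ₗ[𝔾] P := D.X.constr 𝔾 fun β => ((-1 : 𝔾) ^ (D.dg β)) • D.X β

theorem epG_X (β : I) : D.epG (D.X β) = ((-1 : 𝔾) ^ (D.dg β)) • D.X β := by simp [epG]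

theorem neg_one_pow_smul (n : ℕ) (x : P) : ((-1 : k) ^ n) • x = ((-1 : 𝔾) ^ n) • x := by
  rcases Nat.even_or_odd n with h | h <;> simp [h]

theorem ep_eq : D.V.ep = op D.epG := by
  apply D.V.B.ext
  intro c
  rw [Bigr.ep_B, V_B, op_apply, map_smul, epG_X, V_dg, zpow_natCast, neg_one_pow_smul (𝔾 := 𝔾),
    smul_comm]

theorem ep_apply' (x : P) : D.V.ep x = D.epG x := by rw [ep_eq]; rfl

/-- The differential. -/
def pd : Module.End k P := op D.del

theorem pd_apply (x : P) : D.pd x = D.del x := rfl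

theorem pd_hm : D.V.Hm (-1) 1 D.pd := by
  apply D.op_hm
  intro β
  rw [mem_PP]
  intro γ a h
  have := D.del_supp β γ a h
  omega

theorem pd_pd : D.pd * D.pd = 0 := by
  ext x
  exact D.del_del x

/-- The contraction operators. -/
def ee (β : I) : Module.End k P := op (D.E β)

theorem ee_apply (β : I) (x : P) : D.ee β x = D.E β x := rfl

theorem ee_hm (β : I) : D.V.Hm (-(D.dg β : ℤ)) 0 (D.ee β) := by
  apply D.op_hm
  intro γ
  rw [mem_PP]
  intro δ a h
  have := D.E_supp β γ δ a h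
  omega

theorem ee_hm1 {l : I} (hl : D.dg l = 1) : D.V.Hm (-1) 0 (D.ee l) := by
  have := D.ee_hm l
  rw [hl] at this
  simpa using this

theorem ee_pd (β : I) : D.ee β * D.pd = ((-1 : k) ^ (D.dg β)) • (D.pd * D.ee β) := by
  ext x
  rw [Module.End.mul_apply, LinearMap.smul_apply, Module.End.mul_apply, pd_apply, pd_apply,
    ee_apply, ee_apply, D.E_del, neg_one_pow_smul (𝔾 := 𝔾)]

theorem ee_pd1 {l : I} (hl : D.dg l = 1) : D.ee l * D.pd = - (D.pd * D.ee l) := by
  rw [ee_pd, hl]; simp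

/-- Left multiplications. -/
def lam : P →ₗ[k] Module.End k P where
  toFun y := op (D.mul y)
  map_add' x y := by ext; simp
  map_smul' t x := by
    ext y
    simp only [op_apply, RingHom.id_apply, LinearMap.smul_apply]
    rw [← algebraMap_smul 𝔾 t x, map_smul, LinearMap.smul_apply, algebraMap_smul]

theorem lam_apply (x y : P) : D.lam x y = D.mul x y := rfl

theorem lam_smul (t : 𝔾) (x y : P) : D.lam (t • x) y = t • D.lam x y := by
  rw [lam_apply, lam_apply, map_smul, LinearMap.smul_apply]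

theorem lam_hm {i w : ℤ} {x : P} (hx : x ∈ D.V.PP i w) : D.V.Hm i w (D.lam x) := by
  apply D.op_hm
  intro β
  have h1 : D.mul x (D.X β) = D.mul.flip (D.X β) x := rfl
  rw [h1, ← D.X.linearCombination_repr x, Finsupp.linearCombination_apply, Finsupp.sum, map_sum]
  apply Submodule.sum_mem
  intro γ _
  rw [map_smul, LinearMap.flip_apply]
  by_cases h : (D.dg γ : ℤ) = i
  · refine D.smul_mem ((D.mem_PP_iff.1 hx).1 γ) (w := 0) ?_ (by omega)
    rw [mem_PP]
    intro δ a h'
    have := D.mul_supp γ β δ a h'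
    omega
  · rw [(D.mem_PP_iff.1 hx).2 γ h, zero_smul]
    exact Submodule.zero_mem _

theorem leibniz' (x y : P) :
    D.del (D.mul x y) = D.mul (D.del x) y + D.mul (D.epG x) (D.del y) := by
  have h : D.mul.compr₂ D.del = D.mul ∘ₗ D.del + (D.mul.compl₂ D.del) ∘ₗ D.epG := by
    apply D.X.ext
    intro β
    apply LinearMap.ext
    intro y
    simp only [LinearMap.compr₂_apply, LinearMap.add_apply, LinearMap.comp_apply,
      LinearMap.compl₂_apply, D.leibniz, D.epG_X, map_smul, LinearMap.smul_apply]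
  exact LinearMap.congr_fun (LinearMap.congr_fun h x) y

theorem E_der' {l : I} (hl : D.dg l = 1) (x y : P) :
    D.E l (D.mul x y) = D.mul (D.E l x) y + D.mul (D.epG x) (D.E l y) := by
  have h : D.mul.compr₂ (D.E l) = D.mul ∘ₗ (D.E l) + (D.mul.compl₂ (D.E l)) ∘ₗ D.epG := by
    apply D.X.ext
    intro β
    apply LinearMap.ext
    intro y
    simp only [LinearMap.compr₂_apply, LinearMap.add_apply, LinearMap.comp_apply,
      LinearMap.compl₂_apply, D.E_der l hl, D.epG_X, map_smul, LinearMap.smul_apply]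
  exact LinearMap.congr_fun (LinearMap.congr_fun h x) y

theorem epG_mul (x y : P) : D.epG (D.mul x y) = D.mul (D.epG x) (D.epG y) := by
  have h : D.mul.compr₂ D.epG = (D.mul.compl₂ D.epG) ∘ₗ D.epG := by
    apply D.X.ext
    intro β
    apply D.X.ext
    intro γ
    simp only [LinearMap.compr₂_apply, LinearMap.comp_apply,
      LinearMap.compl₂_apply, D.epG_X, map_smul, LinearMap.smul_apply]
    have h1 : D.mul (D.X β) (D.X γ) ∈ D.V.PP ((D.dg β + D.dg γ : ℕ) : ℤ) 0 := by
      rw [mem_PP]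
      intro δ a h'
      have := D.mul_supp β γ δ a h'
      omega
    rw [← ep_apply', D.V.ep_apply h1, zpow_natCast, neg_one_pow_smul (𝔾 := 𝔾), pow_add, mul_smul]
  exact LinearMap.congr_fun (LinearMap.congr_fun h x) y

theorem pd_lam (x : P) : D.pd * D.lam x = D.lam (D.pd x) + D.lam (D.V.ep x) * D.pd := by
  ext y
  rw [LinearMap.add_apply, Module.End.mul_apply, Module.End.mul_apply, lam_apply, lam_apply,
    lam_apply, pd_apply, pd_apply, pd_apply, leibniz', ep_apply']

theorem ee_lam {l : I} (hl : D.dg l = 1) (x : P) :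
    D.ee l * D.lam x = D.lam (D.ee l x) + D.lam (D.V.ep x) * D.ee l := by
  ext y
  rw [LinearMap.add_apply, Module.End.mul_apply, Module.End.mul_apply, lam_apply, lam_apply,
    lam_apply, ee_apply, ee_apply, ee_apply, D.E_der' hl, ep_apply']

theorem cj_lam (x : P) : D.V.cj (D.lam x) = D.lam (D.V.ep x) := by
  ext y
  have h1 : D.V.cj (D.lam x) y = D.V.ep (D.lam x (D.V.ep y)) := rfl
  have h2 : D.V.ep (D.V.ep y) = y := LinearMap.congr_fun D.V.ep_ep y
  rw [h1, lam_apply, ep_apply', epG_mul, lam_apply, ← ep_apply', ← ep_apply', h2]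

theorem lam_one : D.lam (D.X D.o) = 1 := by
  ext y; exact D.one_mul' y

end CoreData

end Pool.Agent.Lib.MP_d42622_al
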