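import Pool.Agent.Lib.MP_d42622_al.Core1

/-!
The contracting homotopy on the tail, the Euler characteristic, and the injectivity of the
differential in weight zero.
-/

namespace Pool.Agent.Lib.MP_d42622_al

open Finset

namespace CoreData

variable {k 𝔾 P Λ I : Type*} [Field k] [CommRing 𝔾] [Algebra k 𝔾]
    [AddCommGroup P] [Module 𝔾 P] [Module k P] [IsScalarTower k 𝔾 P]
    (D : CoreData k 𝔾 P Λ I)

/-- The commutator with the differential. -/
noncomputable def br (φ : Module.End k P) : Module.End k P := D.pd * φ - D.V.cj φ * D.pd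

theorem br_add (φ ψ : Module.End k P) : D.br (φ + ψ) = D.br φ + D.br ψ := by
  unfold br; rw [D.V.cj_add]; noncomm_ring

theorem str_br (j : ℤ) (φ : Module.End k P) : D.V.str j (D.br φ) = 0 := by
  unfold br
  rw [map_sub, D.pd_hm.str_cj_mul φ (j' := j) (by omega), sub_self]

/-- Operators whose range lies in the strands `≤ p₀`. -/
def Low (φ : Module.End k P) : Prop :=
  ∀ c c', (D.p₀ : ℤ) < D.V.dg c + D.V.wt c → D.V.ent φ c c' = 0

variable {D}

theorem Low.str_eq_zero {φ : Module.End k P} (h : D.Low φ) {j : ℤ} (hj : (D.p₀ : ℤ) < j) :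
    D.V.str j φ = 0 :=
  Bigr.str_eq_zero_of_range fun c c' hc => h c c' (by omega)

theorem Low.mul_right {φ : Module.End k P} (h : D.Low φ) (ψ : Module.End k P) :
    D.Low (φ * ψ) := by
  intro c c' hc
  rw [D.V.ent_mul φ ψ c c' ∅, Finset.sum_empty]
  intro d _
  rw [h c d hc, zero_mul]

theorem Low.mul_left {φ ψ : Module.End k P} (h : D.Low φ) {a b : ℤ} (hψ : D.V.Hm a b ψ)
    (hab : a + b ≤ 0) : D.Low (ψ * φ) := by
  intro c c' hc
  rw [D.V.ent_mul ψ φ c c' ∅, Finset.sum_empty]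
  intro d _
  by_cases h0 : D.V.ent ψ c d = 0
  · rw [h0, zero_mul]
  · have := hψ.ent_ne h0
    rw [h d c' (by omega), mul_zero]

theorem Low.sub {φ ψ : Module.End k P} (h : D.Low φ) (h' : D.Low ψ) : D.Low (φ - ψ) := by
  intro c c' hc
  have h1 := h c c' hc
  have h2 := h' c c' hc
  unfold Bigr.ent at h1 h2 ⊢
  rw [LinearMap.sub_apply, map_sub, Finsupp.sub_apply, h1, h2, sub_zero]

theorem Low.cj {φ : Module.End k P} (h : D.Low φ) : D.Low (D.V.cj φ) := by
  intro c c' hc
  rw [D.V.ent_cj, h c c' hc, mul_zero]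

variable (D)

theorem exists_inv : ∃ κ : Module.End k P, D.pd * κ * D.pd = D.pd := by
  obtain ⟨s, hs⟩ := LinearMap.exists_rightInverse_of_surjective D.pd.rangeRestrict
    (LinearMap.range_eq_top.2 D.pd.surjective_rangeRestrict)
  obtain ⟨κ, hκ⟩ := s.exists_extend
  refine ⟨κ, ?_⟩
  ext x
  have h1 : κ (D.pd x) = s (D.pd.rangeRestrict x) := by
    rw [← hκ]; rfl
  have h2 : D.pd.rangeRestrict (s (D.pd.rangeRestrict x)) = D.pd.rangeRestrict x :=
    LinearMap.congr_fun hs _
  rw [Module.End.mul_apply, Module.End.mul_apply, h1]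
  exact congrArg Subtype.val h2

open Classical in
/-- Projection onto a bidegree. -/
noncomputable def proj (i w : ℤ) : Module.End k P :=
  D.V.B.constr k fun c => if D.V.dg c = i ∧ D.V.wt c = w then D.V.B c else 0

open Classical in
theorem proj_B (i w : ℤ) (c : Λ × I) : D.proj i w (D.V.B c) =
    if D.V.dg c = i ∧ D.V.wt c = w then D.V.B c else 0 := by
  simp [proj]

theorem proj_mem (i w : ℤ) (x : P) : D.proj i w x ∈ D.V.PP i w := by
  classical
  rw [← D.V.B.linearCombination_repr x, Finsupp.linearCombination_apply, Finsupp.sum, map_sum]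
  apply Submodule.sum_mem
  intro c _
  rw [map_smul, proj_B]
  split_ifs with h
  · exact Submodule.smul_mem _ _ (D.V.B_mem' h.1 h.2)
  · rw [smul_zero]; exact Submodule.zero_mem _

theorem proj_eq {i w : ℤ} {x : P} (hx : x ∈ D.V.PP i w) : D.proj i w x = x := by
  classical
  unfold Bigr.PP at hx
  induction hx using Submodule.span_induction with
  | mem x hx =>
    obtain ⟨c, hc, rfl⟩ := hx
    rw [proj_B]
    exact if_pos hc
  | zero => simp
  | add x y _ _ hx hy => rw [map_add, hx, hy]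
  | smul t x _ hx => rw [map_smul, hx]

theorem proj_ne {i w i' w' : ℤ} {x : P} (hx : x ∈ D.V.PP i' w') (h : ¬ (i' = i ∧ w' = w)) :
    D.proj i w x = 0 := by
  classical
  unfold Bigr.PP at hx
  induction hx using Submodule.span_induction with
  | mem x hx =>
    obtain ⟨c, hc, rfl⟩ := hx
    rw [proj_B, if_neg]
    rintro ⟨h1, h2⟩
    exact h ⟨hc.1.symm.trans h1, hc.2.symm.trans h2⟩
  | zero => simp
  | add x y _ _ hx hy => rw [map_add, hx, hy, add_zero]
  | smul t x _ hx => rw [map_smul, hx, smul_zero]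

theorem pd_proj (i w : ℤ) : D.pd * D.proj (i + 1) (w - 1) = D.proj i w * D.pd := by
  classical
  apply D.V.B.ext
  intro c
  rw [Module.End.mul_apply, Module.End.mul_apply, proj_B]
  have h1 : D.pd (D.V.B c) ∈ D.V.PP (D.V.dg c - 1) (D.V.wt c + 1) := D.pd_hm c
  split_ifs with h
  · rw [D.proj_eq]
    rwa [h.1, h.2, add_sub_cancel_right, sub_add_cancel] at h1
  · rw [D.proj_ne h1, map_zero]
    rintro ⟨h2, h3⟩
    exact h ⟨by omega, by omega⟩

theorem exists_hinv : ∃ κ : Module.End k P, D.V.Hm 1 (-1) κ ∧ D.pd * κ * D.pd = D.pd := by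
  obtain ⟨κ₀, h₀⟩ := D.exists_inv
  set κ : Module.End k P :=
    D.V.B.constr k fun c => D.proj (D.V.dg c + 1) (D.V.wt c - 1) (κ₀ (D.V.B c)) with hκ
  have hB : ∀ c, κ (D.V.B c) = D.proj (D.V.dg c + 1) (D.V.wt c - 1) (κ₀ (D.V.B c)) := by
    intro c; simp [hκ]
  have hP : ∀ i w x, x ∈ D.V.PP i w → κ x = D.proj (i + 1) (w - 1) (κ₀ x) := by
    intro i w x hx
    unfold Bigr.PP at hx
    induction hx using Submodule.span_induction with
    | mem x hx =>
      obtain ⟨c, ⟨rfl, rfl⟩, rfl⟩ := hx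
      exact hB c
    | zero => simp
    | add x y _ _ hx hy => rw [map_add, hx, hy, map_add, map_add]
    | smul t x _ hx => rw [map_smul, hx, map_smul, map_smul]
  refine ⟨κ, ?_, ?_⟩
  · intro c
    rw [hB]
    exact D.proj_mem _ _ _
  · apply D.V.B.ext
    intro c
    have h1 : D.pd (D.V.B c) ∈ D.V.PP (D.V.dg c - 1) (D.V.wt c + 1) := D.pd_hm c
    rw [Module.End.mul_apply, Module.End.mul_apply, hP _ _ _ h1]
    have h2 := LinearMap.congr_fun (D.pd_proj (D.V.dg c - 1) (D.V.wt c + 1)) (κ₀ (D.pd (D.V.B c)))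
    rw [Module.End.mul_apply, Module.End.mul_apply] at h2
    rw [h2]
    have h3 := LinearMap.congr_fun h₀ (D.V.B c)
    rw [Module.End.mul_apply, Module.End.mul_apply] at h3
    rw [h3, D.proj_eq h1]

/-- The contracting homotopy on the tail. -/
theorem exists_kappa : ∃ κ : Module.End k P, D.V.Hm 1 (-1) κ ∧
    D.Low (D.pd * κ + κ * D.pd - 1) := by
  obtain ⟨κ₁, h₁, h₂⟩ := D.exists_hinv
  have hm : D.V.Hm 1 (-1) (κ₁ - κ₁ * κ₁ * D.pd) :=
    h₁.sub ((h₁.mul h₁ (a'' := 2) (b'' := -2) (by norm_num) (by norm_num)).mul D.pd_hm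
      (by norm_num) (by norm_num))
  refine ⟨κ₁ - κ₁ * κ₁ * D.pd, hm, ?_⟩
  intro c c' hc
  have hR : D.V.Hm 0 0 (D.pd * (κ₁ - κ₁ * κ₁ * D.pd) + (κ₁ - κ₁ * κ₁ * D.pd) * D.pd - 1) :=
    ((D.pd_hm.mul hm (by norm_num) (by norm_num)).add
      (hm.mul D.pd_hm (by norm_num) (by norm_num))).sub Bigr.Hm.one
  by_contra hne
  have h3 := hR.ent_ne hne
  have h4 : D.V.ent (D.pd * (κ₁ - κ₁ * κ₁ * D.pd) + (κ₁ - κ₁ * κ₁ * D.pd) * D.pd - 1) c c' = 0 := by
    have h5 : (D.p₀ : ℤ) < D.V.dg c' + D.V.wt c' := by omega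
    unfold Bigr.ent
    set q := D.V.B c' with hq
    set q' := q - κ₁ (D.pd q) with hq'
    have hqm : q ∈ D.V.PP (D.V.dg c') (D.V.wt c') := D.V.B_mem c'
    have hdq : D.pd q ∈ D.V.PP (D.V.dg c' - 1) (D.V.wt c' + 1) :=
      D.pd_hm.apply hqm (by omega) (by omega)
    have hk : κ₁ (D.pd q) ∈ D.V.PP (D.V.dg c') (D.V.wt c') :=
      h₁.apply hdq (by omega) (by omega)
    have hq'm : q' ∈ D.V.PP (D.V.dg c') (D.V.wt c') := Submodule.sub_mem _ hqm hk
    have e1 : D.pd (κ₁ (D.pd q)) = D.pd q := LinearMap.congr_fun h₂ q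
    have e2 : D.del q' = 0 := by
      rw [← pd_apply, hq', map_sub, e1, sub_self]
    obtain ⟨y, _, hy⟩ := D.tail (D.dg c'.2) (D.wt c'.1)
      (by simp only [V_dg, V_wt] at h5; exact_mod_cast h5) q'
      (fun β a h => by
        have := D.mem_PP.1 hq'm β a h
        simp only [V_dg, V_wt] at this
        exact_mod_cast this) e2
    have e3 : D.pd (κ₁ q') = q' := by
      rw [← hy, ← pd_apply]; exact LinearMap.congr_fun h₂ y
    have e4 : D.pd (D.pd q) = 0 := D.del_del q
    have e5 : (D.pd * (κ₁ - κ₁ * κ₁ * D.pd) + (κ₁ - κ₁ * κ₁ * D.pd) * D.pd - 1) q = 0 := by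
      simp only [LinearMap.sub_apply, LinearMap.add_apply, Module.End.mul_apply,
        Module.End.one_apply, e4, map_zero, sub_zero]
      rw [← map_sub, ← hq', e3, hq']
      abel
    rw [e5]
    simp
  exact hne h4

/-- A fixed contracting homotopy on the tail. -/
noncomputable def kap : Module.End k P := D.exists_kappa.choose

theorem kap_hm : D.V.Hm 1 (-1) D.kap := D.exists_kappa.choose_spec.1

/-- The defect of the homotopy. -/
noncomputable def RR : Module.End k P := D.pd * D.kap + D.kap * D.pd - 1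

theorem RR_low : D.Low D.RR := D.exists_kappa.choose_spec.2

theorem kap_pd : D.kap * D.pd = 1 + D.RR - D.pd * D.kap := by
  unfold RR; abel

theorem pd_kap : D.pd * D.kap = 1 + D.RR - D.kap * D.pd := by
  unfold RR; abel

theorem cj_kap : D.V.cj D.kap = - D.kap := D.kap_hm.cj_odd'

theorem cj_pd : D.V.cj D.pd = - D.pd := D.pd_hm.cj_odd

/-- The supertrace of a chain endomorphism vanishes on the tail. -/
theorem str_tail {ψ : Module.End k P} (h : D.V.Hm 0 0 ψ) (hc : ψ * D.pd = D.pd * ψ) {j : ℤ}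
    (hj : (D.p₀ : ℤ) < j) : D.V.str j ψ = 0 := by
  have h1 : D.V.cj (ψ * D.kap) = - (ψ * D.kap) := by
    have : D.V.Hm 1 (-1) (ψ * D.kap) := h.mul D.kap_hm (by norm_num) (by norm_num)
    exact this.cj_odd'
  have h2 : ψ = D.br (ψ * D.kap) - ψ * D.RR := by
    unfold br
    rw [h1, ← mul_assoc, ← hc]
    unfold RR
    noncomm_ring
  rw [h2, map_sub, str_br, (D.RR_low.mul_left h (by norm_num)).str_eq_zero hj, sub_zero]

theorem str_neg (φ : Module.End k P) {j : ℤ} (hj : j < 0) : D.V.str j φ = 0 := by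
  rw [Bigr.str_apply]
  apply Finset.sum_eq_zero
  intro c hc
  rw [Bigr.mem_strand] at hc
  simp only [V_dg, V_wt] at hc
  omega

theorem str_one (j : ℤ) : D.V.str j 1 = ∑ c ∈ D.V.strand j, (-1 : k) ^ (D.dg c.2) := by
  rw [Bigr.str_apply]
  apply Finset.sum_congr rfl
  intro c _
  have : D.V.ent 1 c c = 1 := by simp [Bigr.ent]
  rw [this, mul_one, V_dg, zpow_natCast]

/-- The elements of weight `w`. -/
noncomputable def wts (n : ℕ) : Finset Λ := (D.finite_wt n).toFinset

theorem mem_wts {n : ℕ} {a : Λ} : a ∈ D.wts n ↔ D.wt a = n := by simp [wts]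

theorem card_wts (n : ℕ) : Nat.card {a // D.wt a = n} = (D.wts n).card := by
  rw [wts, ← Set.ncard_eq_toFinset_card _ (D.finite_wt n)]
  rfl

theorem card_deg (n : ℕ) : Nat.card {a // D.dg a = n} = (D.deg n).card := by
  rw [deg, ← Set.ncard_eq_toFinset_card _ (D.finite_dg n)]
  rfl

theorem euler' {p : ℕ} (hp : D.p₀ ≤ p) : ∑ j ∈ range (p + 1), D.V.str (j : ℤ) 1 = 1 := by
  classical
  have hfin : {c : Λ × I | D.dg c.2 + D.wt c.1 ≤ p}.Finite := by
    refine Set.Finite.subset ((D.finite_le_wt p).prod (D.finite_le_dg p)) ?_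
    rintro ⟨a, β⟩ h
    simp only [Set.mem_ofPred_eq, Set.mem_prod] at h ⊢
    omega
  set U : Finset (Λ × I) := hfin.toFinset with hU
  have memU : ∀ c, c ∈ U ↔ D.dg c.2 + D.wt c.1 ≤ p := by intro c; simp [hU]
  have e1 : ∑ j ∈ range (p + 1), D.V.str (j : ℤ) 1 = ∑ c ∈ U, (-1 : k) ^ (D.dg c.2) := by
    rw [← Finset.sum_fiberwise_of_maps_to (s := U) (t := range (p + 1))
      (g := fun c => D.dg c.2 + D.wt c.1)
      (fun c hc => by rw [mem_range]; rw [memU] at hc; omega)]
    apply Finset.sum_congr rfl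
    intro j hj
    rw [mem_range] at hj
    rw [str_one]
    apply Finset.sum_congr _ fun _ _ => rfl
    ext c
    rw [Bigr.mem_strand, mem_filter, memU, V_dg, V_wt]
    omega
  have e2 : ∑ c ∈ U, (-1 : k) ^ (D.dg c.2) = ((∑ i ∈ range (p + 1),
      (-1 : ℤ) ^ i * (Nat.card {β // D.dg β = i} : ℤ) *
        ∑ w ∈ range (p + 1 - i), (Nat.card {a // D.wt a = w} : ℤ) : ℤ) : k) := by
    rw [← Finset.sum_fiberwise_of_maps_to (s := U) (t := range (p + 1))
      (g := fun c => D.dg c.2)
      (fun c hc => by rw [mem_range]; rw [memU] at hc; omega)]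
    rw [Int.cast_sum]
    apply Finset.sum_congr rfl
    intro i hi
    rw [mem_range] at hi
    have e3 : ∑ c ∈ U with D.dg c.2 = i, (-1 : k) ^ (D.dg c.2) =
        ∑ w ∈ range (p + 1 - i), ∑ c ∈ D.wts w ×ˢ D.deg i, (-1 : k) ^ i := by
      rw [← Finset.sum_fiberwise_of_maps_to (s := U.filter fun c => D.dg c.2 = i)
        (t := range (p + 1 - i)) (g := fun c => D.wt c.1)
        (fun c hc => by
          rw [mem_range]; rw [mem_filter, memU] at hc; omega)]
      apply Finset.sum_congr rfl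
      intro w hw
      rw [mem_range] at hw
      have : (U.filter fun c => D.dg c.2 = i).filter (fun c => D.wt c.1 = w) =
          D.wts w ×ˢ D.deg i := by
        ext c
        simp only [mem_filter, memU, mem_product, mem_wts, mem_deg]
        omega
      rw [this]
      apply Finset.sum_congr rfl
      intro c hc
      rw [mem_product, mem_deg] at hc
      rw [hc.2]
    rw [e3]
    simp only [Finset.sum_const, Finset.card_product, card_wts, card_deg, nsmul_eq_mul]
    push_cast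
    rw [Finset.mul_sum]
    apply Finset.sum_congr rfl
    intro w _
    ring
  rw [e1, e2, D.euler p hp]
  simp

end CoreData

end Pool.Agent.Lib.MP_d42622_al
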