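import Pool.Agent.Lib.MP_d42622_al.Core2

/-!
Injectivity of the differential in weight zero and its consequences.
-/

namespace Pool.Agent.Lib.MP_d42622_al

open Finset

namespace CoreData

variable {k 𝔾 P Λ I : Type*} [Field k] [CommRing 𝔾] [Algebra k 𝔾]
    [AddCommGroup P] [Module 𝔾 P] [Module k P] [IsScalarTower k 𝔾 P]
    (D : CoreData k 𝔾 P Λ I)

theorem exists_algebraMap {s : 𝔾} (hs : s ∈ D.GG 0) : ∃ t : k, s = algebraMap k 𝔾 t := by
  unfold GG at hs
  induction hs using Submodule.span_induction with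
  | mem x hx =>
    obtain ⟨a, ha, rfl⟩ := hx
    exact D.wt_zero a (by simpa using ha)
  | zero => exact ⟨0, by simp⟩
  | add x y _ _ hx hy =>
    obtain ⟨s, rfl⟩ := hx
    obtain ⟨t, rfl⟩ := hy
    exact ⟨s + t, by simp⟩
  | smul r x _ hx =>
    obtain ⟨s, rfl⟩ := hx
    exact ⟨r * s, by rw [map_mul, Algebra.smul_def]⟩

theorem PP_neg {i w : ℤ} (hi : i < 0) {x : P} (hx : x ∈ D.V.PP i w) : x = 0 := by
  apply D.X.repr.injective
  rw [map_zero]
  ext β
  rw [(D.mem_PP_iff.1 hx).2 β (by omega), Finsupp.zero_apply]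

theorem PP_neg' {i w : ℤ} (hw : w < 0) {x : P} (hx : x ∈ D.V.PP i w) : x = 0 := by
  apply D.V.B.repr.injective
  rw [map_zero]
  ext c
  by_contra hne
  have := (D.V.mem_PP.1 hx c hne).2
  rw [V_wt] at this
  omega

theorem sum_shift (f : ℤ → k) (p i : ℕ) (h1 : ∀ j, j < 0 → f j = 0)
    (h2 : ∀ j : ℤ, (p : ℤ) < j → f j = 0) :
    ∑ j ∈ range (p + i + 1), f j = ∑ j ∈ range (p + i + 1), f (j - i) := by
  have e1 : ∑ j ∈ range (p + i + 1), f j = ∑ j ∈ range (p + 1), f j := by
    rw [show p + i + 1 = (p + 1) + i by ring, Finset.sum_range_add,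
      Finset.sum_eq_zero (s := range i), add_zero]
    intro x _
    exact h2 _ (by push_cast; omega)
  have e2 : ∑ j ∈ range (p + i + 1), f (j - i) = ∑ j ∈ range (p + 1), f j := by
    rw [show p + i + 1 = i + (p + 1) by ring, Finset.sum_range_add,
      Finset.sum_eq_zero (s := range i), zero_add]
    · apply Finset.sum_congr rfl
      intro x _
      congr 1
      push_cast
      ring
    · intro x hx
      rw [mem_range] at hx
      exact h1 _ (by omega)
  rw [e1, e2]

theorem neg_one_pow_mul_self (n : ℕ) : (-1 : k) ^ n * (-1 : k) ^ n = 1 := by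
  rw [← mul_pow]; simp

/-- Cocycles of weight zero and positive degree vanish. -/
theorem coc_zero (i : ℕ) (hi : 1 ≤ i) (z : P) (hz : z ∈ D.V.PP i 0) (hd : D.del z = 0) :
    z = 0 := by
  induction i using Nat.strong_induction_on generalizing z with
  | _ i ih =>
  by_contra hne
  obtain ⟨α, hα⟩ : ∃ α, D.X.repr z α ≠ 0 := by
    by_contra h
    push Not at h
    apply hne
    apply D.X.repr.injective
    rw [map_zero]
    ext α
    exact h α
  have hdα : D.dg α = i := by
    by_contra h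
    exact hα ((D.mem_PP_iff.1 hz).2 α (by exact_mod_cast h))
  obtain ⟨t, ht⟩ := D.exists_algebraMap ((D.mem_PP_iff.1 hz).1 α)
  have ht0 : t ≠ 0 := by
    rintro rfl
    exact hα (by rw [ht, map_zero])
  have hE : ∀ γ, 0 < D.dg γ → D.dg γ < D.dg α → D.E γ z = 0 := by
    intro γ h1 h2
    apply ih (i - D.dg γ) (by omega) (by omega)
    · exact (D.ee_hm γ).apply hz (by push_cast [Nat.cast_sub (show D.dg γ ≤ i by omega)]; ring)
        (by ring)
    · have h3 := D.E_del γ z
      rw [hd, map_zero] at h3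
      have h4 : D.del (D.E γ z) = (-1 : 𝔾) ^ D.dg γ • ((-1 : 𝔾) ^ D.dg γ • D.del (D.E γ z)) := by
        rw [smul_smul, ← mul_pow]; simp
      rw [h4, ← h3, smul_zero]
  have key : D.ee α * D.lam z = t • (1 : Module.End k P) + ((-1 : k) ^ i) • (D.lam z * D.ee α) := by
    ext y
    rw [LinearMap.add_apply, LinearMap.smul_apply, LinearMap.smul_apply, Module.End.mul_apply,
      Module.End.mul_apply, Module.End.one_apply, lam_apply, lam_apply, ee_apply, ee_apply,
      D.E_mul α z (by omega) (fun γ hγ => (D.mem_PP_iff.1 hz).2 γ (by rw [hdα] at hγ; exact_mod_cast hγ)) hE,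
      ht, algebraMap_smul, hdα, neg_one_pow_smul (𝔾 := 𝔾)]
  set ψ := D.ee α * D.lam z with hψ
  have hψm : D.V.Hm 0 0 ψ := (D.ee_hm α).mul (D.lam_hm hz) (by omega) (by omega)
  have hcomm : ψ * D.pd = D.pd * ψ := by
    have h1 : D.lam z * D.pd = ((-1 : k) ^ i) • (D.pd * D.lam z) := by
      rw [pd_lam, pd_apply, hd, map_zero, zero_add, D.V.ep_apply hz, map_smul, zpow_natCast,
        smul_mul_assoc, smul_smul, neg_one_pow_mul_self, one_smul]
    rw [hψ, mul_assoc, h1, mul_smul_comm, ← mul_assoc, ee_pd, hdα, smul_mul_assoc, smul_smul,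
      neg_one_pow_mul_self, one_smul, mul_assoc]
  have hs := sum_shift (fun j => D.V.str j ψ) D.p₀ i (fun j hj => D.str_neg ψ hj)
    (fun j hj => D.str_tail hψm hcomm hj)
  have hkey : ∀ j : ℤ, D.V.str j ψ = t * D.V.str j 1 + D.V.str (j - i) ψ := by
    intro j
    conv_lhs => rw [key]
    rw [map_add, map_smul, map_smul, (D.ee_hm α).str_mul (D.lam z) (j' := j - i) (by omega),
      smul_eq_mul, smul_eq_mul, ← mul_assoc, hdα, zpow_neg, zpow_natCast, mul_inv_cancel₀, one_mul]
    exact pow_ne_zero _ (by simp)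
  have h5 : ∑ j ∈ range (D.p₀ + i + 1), D.V.str (j : ℤ) ψ =
      t + ∑ j ∈ range (D.p₀ + i + 1), D.V.str ((j : ℤ) - i) ψ := by
    have h6 : ∑ j ∈ range (D.p₀ + i + 1), D.V.str (j : ℤ) ψ = ∑ j ∈ range (D.p₀ + i + 1),
        (t * D.V.str (j : ℤ) 1 + D.V.str ((j : ℤ) - i) ψ) :=
      Finset.sum_congr rfl fun j _ => hkey j
    rw [h6, Finset.sum_add_distrib, ← Finset.mul_sum, D.euler' (by omega), mul_one]
  rw [hs] at h5
  exact ht0 (by simpa using h5)

/-- A `𝔾`-linear operator of weight zero commuting with the differential up to sign and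
vanishing in the degree of its degree is zero. -/
theorem eq_zero_of_top (f : P →ₗ[𝔾] P) (n m : ℕ)
    (hf : ∀ β, f (D.X β) ∈ D.V.PP (D.dg β - n) 0)
    (hc : ∀ x, f (D.del x) = (-1 : 𝔾) ^ m • D.del (f x))
    (h0 : ∀ β, D.dg β = n → f (D.X β) = 0) : f = 0 := by
  have key : ∀ d β, D.dg β = d → f (D.X β) = 0 := by
    intro d
    induction d using Nat.strong_induction_on with
    | _ d ih =>
    intro β hβ
    rcases lt_trichotomy (D.dg β) n with h | h | h
    · exact D.PP_neg (by omega) (hf β)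
    · exact h0 β h
    · have h1 : f (D.del (D.X β)) = 0 := by
        rw [← D.X.linearCombination_repr (D.del (D.X β)), Finsupp.linearCombination_apply,
          Finsupp.sum, map_sum]
        apply Finset.sum_eq_zero
        intro γ _
        rw [map_smul]
        by_cases hγ : D.dg γ + 1 = D.dg β
        · rw [ih (D.dg γ) (by omega) γ rfl, smul_zero]
        · have : D.X.repr (D.del (D.X β)) γ = 0 := by
            apply D.g.repr.injective
            rw [map_zero]
            ext a
            by_contra hne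
            exact hγ (D.del_supp β γ a hne).1
          rw [this, zero_smul]
      have h2 : D.del (f (D.X β)) = 0 := by
        have h3 := hc (D.X β)
        rw [h1] at h3
        have h4 : D.del (f (D.X β)) = (-1 : 𝔾) ^ m • ((-1 : 𝔾) ^ m • D.del (f (D.X β))) := by
          rw [smul_smul, ← mul_pow]; simp
        rw [h4, ← h3, smul_zero]
      apply D.coc_zero (D.dg β - n) (by omega) _ _ h2
      have := hf β
      rwa [← Nat.cast_sub h.le] at this
  apply D.X.ext
  intro β
  rw [key _ β rfl, LinearMap.zero_apply]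

/-- The coefficient `x_l` of `∂ X_l`. -/
noncomputable def xx (l : I) : 𝔾 := D.X.repr (D.del (D.X l)) D.o

theorem xx_mem {l : I} (hl : D.dg l = 1) : D.xx l ∈ D.GG 1 := by
  have h := D.pd_hm.apply (D.X_mem l) (i' := 0) (w' := 1) (by omega) (by omega)
  exact (D.mem_PP_iff.1 h).1 D.o

theorem deg_zero : D.deg 0 = {D.o} := by
  ext β
  rw [mem_deg, mem_singleton]
  constructor
  · exact D.eq_o β
  · rintro rfl; exact D.dg_o

theorem PP_zero {w : ℤ} {x : P} (hx : x ∈ D.V.PP 0 w) : x = D.X.repr x D.o • D.X D.o := by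
  have := D.sum_repr (i := 0) (by simpa using hx)
  rwa [deg_zero, Finset.sum_singleton] at this

theorem del_X {l : I} (hl : D.dg l = 1) : D.del (D.X l) = D.xx l • D.X D.o := by
  have h := D.pd_hm.apply (D.X_mem l) (i' := 0) (w' := 1) (by omega) (by omega)
  exact D.PP_zero h

theorem E_one {l : I} (hl : D.dg l = 1) {w : ℤ} {v : P} (hv : v ∈ D.V.PP 1 w) :
    D.E l v = D.X.repr v l • D.X D.o := by
  classical
  have hv' : v = _ := D.sum_repr (i := 1) (w := w) (by simpa using hv)
  conv_lhs => rw [hv']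
  rw [map_sum, Finset.sum_eq_single l]
  · rw [map_smul, D.E_self]
  · intro γ hγ hne
    rw [mem_deg] at hγ
    rw [map_smul, D.E_ne l γ (by omega) hne, smul_zero]
  · intro h
    exact absurd (D.mem_deg.2 hl) h

theorem del_one {w : ℤ} {v : P} (hv : v ∈ D.V.PP 1 w) :
    D.del v = ∑ l ∈ D.deg 1, D.xx l • D.E l v := by
  have hv' : v = _ := D.sum_repr (i := 1) (w := w) (by simpa using hv)
  conv_lhs => rw [hv']
  rw [map_sum]
  apply Finset.sum_congr rfl
  intro l hl
  rw [mem_deg] at hl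
  rw [map_smul, D.del_X hl, D.E_one hl hv, smul_smul, smul_smul, mul_comm]

theorem sum_xx {τ : I} (hτ : D.dg τ = 2) :
    ∑ l ∈ D.deg 1, ∑ l' ∈ D.deg 1, (D.xx l * D.xx l') • D.E l' (D.E l (D.X τ)) = 0 := by
  have hτm : D.X τ ∈ D.V.PP 2 0 := by
    have := D.X_mem τ
    rwa [hτ] at this
  have h1 : ∀ l ∈ D.deg 1, ∑ l' ∈ D.deg 1, (D.xx l * D.xx l') • D.E l' (D.E l (D.X τ)) =
      - (D.xx l • D.E l (D.del (D.X τ))) := by
    intro l hl
    rw [mem_deg] at hl
    have h2 : D.E l (D.X τ) ∈ D.V.PP 1 0 := (D.ee_hm1 hl).apply hτm (by norm_num) (by norm_num)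
    have h3 : D.E l (D.del (D.X τ)) = - D.del (D.E l (D.X τ)) := by
      rw [D.E_del, hl, pow_one, neg_smul, one_smul]
    rw [h3, D.del_one h2, smul_neg, neg_neg, Finset.smul_sum]
    apply Finset.sum_congr rfl
    intro l' _
    rw [smul_smul]
  rw [Finset.sum_congr rfl h1, Finset.sum_neg_distrib]
  have h4 : D.del (D.X τ) ∈ D.V.PP 1 1 := D.pd_hm.apply hτm (by norm_num) (by norm_num)
  rw [← D.del_one h4, D.del_del, neg_zero]

theorem repr_mul_algebraMap (s : 𝔾) (t : k) (a : Λ) :
    D.g.repr (s * algebraMap k 𝔾 t) a = t * D.g.repr s a := by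
  rw [mul_comm, ← Algebra.smul_def, map_smul, Finsupp.smul_apply, smul_eq_mul]

/-- The relations between the quadratic words. -/
theorem quad_rel (a : Λ) : ∑ l ∈ D.deg 1, ∑ l' ∈ D.deg 1,
    D.g.repr (D.xx l * D.xx l') a • (D.ee l' * D.ee l) = 0 := by
  set f : P →ₗ[𝔾] P := ∑ l ∈ D.deg 1, ∑ l' ∈ D.deg 1,
    algebraMap k 𝔾 (D.g.repr (D.xx l * D.xx l') a) • (D.E l' ∘ₗ D.E l) with hf
  have hfa : ∀ x, f x = ∑ l ∈ D.deg 1, ∑ l' ∈ D.deg 1,
      algebraMap k 𝔾 (D.g.repr (D.xx l * D.xx l') a) • D.E l' (D.E l x) := by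
    intro x
    simp [hf, LinearMap.sum_apply]
  have hf0 : f = 0 := by
    apply D.eq_zero_of_top f 2 0
    · intro β
      rw [hfa]
      refine Submodule.sum_mem _ fun l hl => Submodule.sum_mem _ fun l' hl' => ?_
      rw [mem_deg] at hl hl'
      rw [algebraMap_smul]
      apply Submodule.smul_mem
      have h1 : D.E l (D.X β) ∈ D.V.PP (D.dg β - 1) 0 :=
        (D.ee_hm1 hl).apply (D.X_mem β) (by ring) (by norm_num)
      exact (D.ee_hm1 hl').apply h1 (by push_cast; ring) (by norm_num)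
    · intro x
      rw [hfa, hfa, pow_zero, one_smul, map_sum]
      apply Finset.sum_congr rfl
      intro l hl
      rw [map_sum]
      apply Finset.sum_congr rfl
      intro l' hl'
      rw [mem_deg] at hl hl'
      rw [map_smul, D.E_del l, hl, map_smul, D.E_del l', hl', smul_smul]
      simp
    · intro τ hτ
      have hτm : D.X τ ∈ D.V.PP 2 0 := by
        have := D.X_mem τ
        rwa [hτ] at this
      have ht : ∀ l l', ∃ t : k, l ∈ D.deg 1 → l' ∈ D.deg 1 →
          D.E l' (D.E l (D.X τ)) = algebraMap k 𝔾 t • D.X D.o := by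
        intro l l'
        by_cases hl : l ∈ D.deg 1
        · by_cases hl' : l' ∈ D.deg 1
          · rw [mem_deg] at hl hl'
            have h1 : D.E l (D.X τ) ∈ D.V.PP 1 0 :=
              (D.ee_hm1 hl).apply hτm (by norm_num) (by norm_num)
            have h2 : D.E l' (D.E l (D.X τ)) ∈ D.V.PP 0 0 :=
              (D.ee_hm1 hl').apply h1 (by norm_num) (by norm_num)
            obtain ⟨t, ht⟩ := D.exists_algebraMap ((D.mem_PP_iff.1 h2).1 D.o)
            refine ⟨t, fun _ _ => ?_⟩
            rw [← ht]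
            exact D.PP_zero h2
          · exact ⟨0, fun _ h => absurd h hl'⟩
        · exact ⟨0, fun h => absurd h hl⟩
      choose t ht using ht
      have h1 := D.sum_xx hτ
      have h2 : (∑ l ∈ D.deg 1, ∑ l' ∈ D.deg 1, (D.xx l * D.xx l') * algebraMap k 𝔾 (t l l')) •
          D.X D.o = 0 := by
        rw [← h1, Finset.sum_smul]
        apply Finset.sum_congr rfl
        intro l hl
        rw [Finset.sum_smul]
        apply Finset.sum_congr rfl
        intro l' hl'
        rw [ht l l' hl hl', smul_smul]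
      have h3 : ∑ l ∈ D.deg 1, ∑ l' ∈ D.deg 1, (D.xx l * D.xx l') * algebraMap k 𝔾 (t l l') = 0 := by
        have h4 := congrArg (fun y => D.X.repr y D.o) h2
        simpa using h4
      have h5 : ∑ l ∈ D.deg 1, ∑ l' ∈ D.deg 1,
          t l l' * D.g.repr (D.xx l * D.xx l') a = 0 := by
        have h6 := congrArg (fun y => D.g.repr y a) h3
        simp only [map_sum, Finsupp.coe_finsetSum, Finset.sum_apply, repr_mul_algebraMap,
          map_zero, Finsupp.zero_apply] at h6
        exact h6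
      rw [hfa]
      have h7 : ∀ l ∈ D.deg 1, ∀ l' ∈ D.deg 1,
          algebraMap k 𝔾 (D.g.repr (D.xx l * D.xx l') a) • D.E l' (D.E l (D.X τ)) =
          (t l l' * D.g.repr (D.xx l * D.xx l') a) • D.X D.o := by
        intro l hl l' hl'
        rw [ht l l' hl hl', smul_smul, ← map_mul, algebraMap_smul, mul_comm]
      rw [Finset.sum_congr rfl fun l hl => Finset.sum_congr rfl (h7 l hl)]
      simp only [← Finset.sum_smul]
      rw [h5, zero_smul]
  have h8 : (op f : Module.End k P) = 0 := by rw [hf0]; rfl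
  rw [← h8]
  ext x
  rw [op_apply, hfa]
  simp only [LinearMap.sum_apply, LinearMap.smul_apply, Module.End.mul_apply, ee_apply,
    algebraMap_smul]

/-- The quadratic relations, contracted with an arbitrary functional. -/
theorem mc (Φ : Module.End k P →ₗ[k] 𝔾) (φ : Module.End k P) :
    ∑ l ∈ D.deg 1, ∑ l' ∈ D.deg 1, (D.xx l * D.xx l') * Φ (D.ee l' * D.ee l * φ) = 0 := by
  have h1 : ∀ l ∈ D.deg 1, ∀ l' ∈ D.deg 1, D.xx l * D.xx l' =
      ∑ a ∈ D.wts 2, D.g.repr (D.xx l * D.xx l') a • D.g a := by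
    intro l hl l' hl'
    rw [mem_deg] at hl hl'
    conv_lhs => rw [← D.g.linearCombination_repr (D.xx l * D.xx l'),
      Finsupp.linearCombination_apply, Finsupp.sum]
    apply Finset.sum_subset
    · intro a ha
      have := D.mem_GG.1 (D.GG_mul (D.xx_mem hl) (D.xx_mem hl') (u := 2) (by norm_num)) a
        (Finsupp.mem_support_iff.1 ha)
      rw [mem_wts]
      exact_mod_cast this
    · intro a _ ha
      rw [Finsupp.notMem_support_iff.1 ha, zero_smul]
  have h2 : ∀ l ∈ D.deg 1, ∀ l' ∈ D.deg 1, (D.xx l * D.xx l') * Φ (D.ee l' * D.ee l * φ) =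
      ∑ a ∈ D.wts 2, D.g a * Φ (D.g.repr (D.xx l * D.xx l') a • (D.ee l' * D.ee l) * φ) := by
    intro l hl l' hl'
    conv_lhs => rw [h1 l hl l' hl', Finset.sum_mul]
    apply Finset.sum_congr rfl
    intro a _
    rw [smul_mul_assoc, smul_mul_assoc, map_smul, mul_smul_comm]
  rw [Finset.sum_congr rfl fun l hl => Finset.sum_congr rfl (h2 l hl)]
  have h3 : ∑ l ∈ D.deg 1, ∑ l' ∈ D.deg 1, ∑ a ∈ D.wts 2,
      D.g a * Φ (D.g.repr (D.xx l * D.xx l') a • (D.ee l' * D.ee l) * φ) =
      ∑ a ∈ D.wts 2, D.g a * Φ ((∑ l ∈ D.deg 1, ∑ l' ∈ D.deg 1,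
        D.g.repr (D.xx l * D.xx l') a • (D.ee l' * D.ee l)) * φ) := by
    have : ∀ l ∈ D.deg 1, ∑ l' ∈ D.deg 1, ∑ a ∈ D.wts 2,
      D.g a * Φ (D.g.repr (D.xx l * D.xx l') a • (D.ee l' * D.ee l) * φ) =
      ∑ a ∈ D.wts 2, ∑ l' ∈ D.deg 1,
      D.g a * Φ (D.g.repr (D.xx l * D.xx l') a • (D.ee l' * D.ee l) * φ) :=
      fun l _ => Finset.sum_comm
    rw [Finset.sum_congr rfl this, Finset.sum_comm]
    apply Finset.sum_congr rfl
    intro a _
    rw [Finset.sum_mul, map_sum, Finset.mul_sum]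
    apply Finset.sum_congr rfl
    intro l _
    rw [Finset.sum_mul, map_sum, Finset.mul_sum]
  rw [h3]
  apply Finset.sum_eq_zero
  intro a _
  rw [quad_rel, zero_mul, map_zero, mul_zero]

open Classical in
/-- The component of an element along the basis element `g a` of `𝔾`. -/
noncomputable def comp (a : Λ) : P →ₗ[k] P :=
  D.V.B.constr k fun c => if c.1 = a then D.X c.2 else 0

open Classical in
theorem comp_B (a : Λ) (c : Λ × I) :
    D.comp a (D.V.B c) = if c.1 = a then D.X c.2 else 0 := by simp [comp]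

open Classical in
theorem comp_smul (a b : Λ) {i : ℤ} {y : P} (hy : y ∈ D.V.PP i 0) :
    D.comp a (D.g b • y) = if b = a then y else 0 := by
  unfold Bigr.PP at hy
  induction hy using Submodule.span_induction with
  | mem x hx =>
    obtain ⟨c, ⟨_, hc⟩, rfl⟩ := hx
    have hc' : D.wt c.1 = 0 := by rw [V_wt] at hc; exact_mod_cast hc
    obtain ⟨t, ht⟩ := D.wt_zero c.1 hc'
    rw [V_B, ht, algebraMap_smul]
    have h1 : D.g b • t • D.X c.2 = t • D.V.B (b, c.2) := by
      rw [V_B, ← algebraMap_smul 𝔾 t, smul_comm, algebraMap_smul]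
    rw [h1, map_smul, comp_B]
    split_ifs <;> simp
  | zero => simp
  | add x y _ _ hx hy => rw [smul_add, map_add, hx, hy]; split_ifs <;> simp
  | smul t x _ hx =>
    have h1 : D.g b • t • x = t • D.g b • x := by
      rw [← algebraMap_smul 𝔾 t x, smul_comm, algebraMap_smul]
    rw [h1, map_smul, hx]
    split_ifs <;> simp

theorem comp_op (a : Λ) (f : P →ₗ[𝔾] P) (hf : ∀ β, ∃ i, f (D.X β) ∈ D.V.PP i 0) (x : P) :
    D.comp a (f x) = f (D.comp a x) := by
  classical
  have : D.comp a ∘ₗ (op f : Module.End k P) = (op f : Module.End k P) ∘ₗ D.comp a := by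
    apply D.V.B.ext
    intro c
    obtain ⟨i, hi⟩ := hf c.2
    rw [LinearMap.comp_apply, LinearMap.comp_apply, op_apply, op_apply, comp_B]
    rw [V_B, map_smul, D.comp_smul a c.1 hi]
    split_ifs <;> simp
  exact LinearMap.congr_fun this x

theorem comp_mem (a : Λ) {i w : ℤ} {x : P} (hx : x ∈ D.V.PP i w) : D.comp a x ∈ D.V.PP i 0 := by
  classical
  unfold Bigr.PP at hx
  induction hx using Submodule.span_induction with
  | mem x hx =>
    obtain ⟨c, ⟨hc, _⟩, rfl⟩ := hx
    rw [comp_B]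
    split_ifs
    · have := D.X_mem c.2
      rw [V_dg] at hc
      rwa [hc] at this
    · exact Submodule.zero_mem _
  | zero => simp
  | add x y _ _ hx hy => rw [map_add]; exact Submodule.add_mem _ hx hy
  | smul t x _ hx => rw [map_smul]; exact Submodule.smul_mem _ _ hx

theorem repr_comp (a : Λ) (x : P) (β : I) :
    D.X.repr (D.comp a x) β = algebraMap k 𝔾 (D.V.B.repr x (a, β)) := by
  classical
  have : ((D.X.coord β).restrictScalars k) ∘ₗ D.comp a =
      (Algebra.linearMap k 𝔾) ∘ₗ (D.V.B.coord (a, β)) := by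
    apply D.V.B.ext
    rintro ⟨b, γ⟩
    rw [LinearMap.comp_apply, LinearMap.comp_apply, comp_B]
    simp only [Module.Basis.coord_apply, Module.Basis.repr_self, LinearMap.coe_restrictScalars,
      Algebra.linearMap_apply, Finsupp.single_apply, Prod.mk.injEq]
    split_ifs with h1 h2 h2 <;> simp_all
  exact LinearMap.congr_fun this x

theorem eq_zero_of_comp {x : P} (h : ∀ a, D.comp a x = 0) : x = 0 := by
  by_contra hne
  have : Nontrivial P := ⟨x, 0, hne⟩
  have : Nontrivial 𝔾 := Module.nontrivial 𝔾 P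
  apply hne
  apply D.V.B.repr.injective
  rw [map_zero]
  ext ⟨a, β⟩
  have h1 := D.repr_comp a x β
  rw [h a, map_zero, Finsupp.zero_apply] at h1
  exact (map_eq_zero_iff _ (algebraMap k 𝔾).injective).1 h1.symm

theorem detect_aux (i : ℕ)
    (h0 : ∀ x ∈ D.V.PP i 0, (∀ l, D.dg l = 1 → D.E l x = 0) → x = 0) (w : ℤ) (x : P)
    (hx : x ∈ D.V.PP i w) (h : ∀ l, D.dg l = 1 → D.E l x = 0) : x = 0 := by
  apply D.eq_zero_of_comp
  intro a
  apply h0 _ (D.comp_mem a hx)
  intro l hl
  rw [← D.comp_op a (D.E l), h l hl, map_zero]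
  intro β
  exact ⟨_, (D.ee_hm1 hl).apply (D.X_mem β) rfl (by norm_num)⟩

/-- The contraction operators of degree one detect the elements of positive degree. -/
theorem detect (i : ℕ) (hi : 1 ≤ i) (w : ℤ) (x : P) (hx : x ∈ D.V.PP i w)
    (h : ∀ l, D.dg l = 1 → D.E l x = 0) : x = 0 := by
  induction i, hi using Nat.le_induction generalizing w x with
  | base =>
    apply D.X.repr.injective
    rw [map_zero]
    ext l
    by_cases hl : D.dg l = 1
    · have h1 := D.E_one hl (by simpa using hx)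
      rw [h l hl] at h1
      have h2 := congrArg (fun y => D.X.repr y D.o) h1
      simp only [map_zero, Finsupp.zero_apply, map_smul, Module.Basis.repr_self,
        Finsupp.smul_apply, Finsupp.single_eq_same, smul_eq_mul, mul_one] at h2
      rw [← h2]; rfl
    · exact (D.mem_PP_iff.1 hx).2 l (by exact_mod_cast hl)
  | succ i hi ih =>
    refine D.detect_aux (i + 1) ?_ w x hx h
    intro y hy hl
    apply D.coc_zero (i + 1) (by omega) y (by exact_mod_cast hy)
    apply ih 1
    · exact D.pd_hm.apply hy (by push_cast; ring) (by norm_num)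
    · intro l hl1
      have := D.E_del l y
      rw [hl l hl1, map_zero, smul_zero] at this
      exact this

end CoreData

end Pool.Agent.Lib.MP_d42622_al
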