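import Pool.Agent.Lib.MP_d42622_al.Core3

/-!
The operator `Ups` which turns left multiplications by contractions into supercommutators.
-/

namespace Pool.Agent.Lib.MP_d42622_al

open Finset

namespace CoreData

variable {k 𝔾 P Λ I : Type*} [Field k] [CommRing 𝔾] [Algebra k 𝔾]
    [AddCommGroup P] [Module 𝔾 P] [Module k P] [IsScalarTower k 𝔾 P]
    (D : CoreData k 𝔾 P Λ I)

theorem E_top (γ : I) {w : ℤ} {v : P} (hv : v ∈ D.V.PP (D.dg γ) w) :
    D.E γ v = D.X.repr v γ • D.X D.o := by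
  classical
  have hv' : v = _ := D.sum_repr hv
  conv_lhs => rw [hv']
  rw [map_sum, Finset.sum_eq_single γ]
  · rw [map_smul, D.E_self]
  · intro β hβ hne
    rw [mem_deg] at hβ
    rw [map_smul, D.E_ne γ β (by omega) hne, smul_zero]
  · intro h
    exact absurd (D.mem_deg.2 rfl) h

theorem smul_X_o_injective {s t : 𝔾} (h : s • D.X D.o = t • D.X D.o) : s = t := by
  have := congrArg (fun y => D.X.repr y D.o) h
  simpa using this

/-- Expansion of an operator commuting with the differential. -/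
theorem expand (f : P →ₗ[𝔾] P) (n : ℕ)
    (hf : ∀ β, f (D.X β) ∈ D.V.PP (D.dg β - n) 0)
    (hc : ∀ x, f (D.del x) = (-1 : 𝔾) ^ n • D.del (f x)) :
    ∃ c : I → k, (∀ β, D.dg β = n → f (D.X β) = algebraMap k 𝔾 (c β) • D.X D.o) ∧
      f = ∑ β ∈ D.deg n, algebraMap k 𝔾 (c β) • D.E β := by
  have h1 : ∀ β, ∃ c : k, D.dg β = n → f (D.X β) = algebraMap k 𝔾 c • D.X D.o := by
    intro β
    by_cases hβ : D.dg β = n
    · have h2 := hf β
      rw [hβ, sub_self] at h2
      obtain ⟨t, ht⟩ := D.exists_algebraMap ((D.mem_PP_iff.1 h2).1 D.o)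
      refine ⟨t, fun _ => ?_⟩
      rw [← ht]
      exact D.PP_zero h2
    · exact ⟨0, fun h => absurd h hβ⟩
  choose c hcβ using h1
  refine ⟨c, hcβ, ?_⟩
  rw [← sub_eq_zero]
  apply D.eq_zero_of_top _ n n
  · intro β
    rw [LinearMap.sub_apply, LinearMap.sum_apply]
    refine Submodule.sub_mem _ (hf β) (Submodule.sum_mem _ fun γ hγ => ?_)
    rw [mem_deg] at hγ
    rw [LinearMap.smul_apply, algebraMap_smul]
    apply Submodule.smul_mem
    exact (D.ee_hm γ).apply (D.X_mem β) (by omega) (by norm_num)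
  · intro x
    rw [LinearMap.sub_apply, LinearMap.sub_apply, hc, map_sub, smul_sub, LinearMap.sum_apply,
      LinearMap.sum_apply, map_sum, Finset.smul_sum]
    congr 1
    apply Finset.sum_congr rfl
    intro γ hγ
    rw [mem_deg] at hγ
    rw [LinearMap.smul_apply, LinearMap.smul_apply, D.E_del, hγ, map_smul, smul_comm]
  · intro β hβ
    rw [LinearMap.sub_apply, LinearMap.sum_apply, hcβ β hβ, Finset.sum_eq_single β]
    · rw [LinearMap.smul_apply, D.E_self, sub_self]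
    · intro γ hγ hne
      rw [mem_deg] at hγ
      rw [LinearMap.smul_apply, D.E_ne γ β (by omega) hne.symm, smul_zero]
    · intro h
      exact absurd (D.mem_deg.2 hβ) h

theorem ee_o : D.ee D.o = 1 := by
  have : D.E D.o - LinearMap.id = 0 := by
    apply D.eq_zero_of_top _ 0 0
    · intro β
      refine Submodule.sub_mem _ ?_ ?_
      · exact (D.ee_hm D.o).apply (D.X_mem β) (by rw [D.dg_o]; push_cast; ring) (by norm_num)
      · have := D.X_mem β
        simpa using this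
    · intro x
      rw [LinearMap.sub_apply, LinearMap.sub_apply, D.E_del, D.dg_o]
      simp
    · intro β hβ
      rw [D.eq_o β hβ, LinearMap.sub_apply, D.E_self]
      simp
  ext x
  have h := LinearMap.congr_fun this x
  rw [LinearMap.sub_apply, LinearMap.zero_apply, sub_eq_zero] at h
  exact h

/-- Right multiplications. -/
noncomputable def rm : P →ₗ[k] Module.End k P where
  toFun y := op (D.mul.flip y)
  map_add' x y := by ext; simp
  map_smul' t x := by
    ext y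
    simp only [op_apply, RingHom.id_apply, LinearMap.smul_apply]
    rw [← algebraMap_smul 𝔾 t x, map_smul, LinearMap.smul_apply, algebraMap_smul]

theorem rm_apply (x y : P) : D.rm x y = D.mul y x := rfl

theorem rm_o : D.rm (D.X D.o) = 1 := by
  ext y
  exact D.mul_one' y

theorem ee_rm {l : I} (hl : D.dg l = 1) (x : P) :
    D.ee l * D.rm x = D.rm x * D.ee l + D.rm (D.ee l x) * D.V.ep := by
  ext y
  rw [LinearMap.add_apply, Module.End.mul_apply, Module.End.mul_apply, Module.End.mul_apply,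
    rm_apply, rm_apply, rm_apply, ee_apply, ee_apply, ee_apply, D.E_der' hl, ep_apply']

theorem ep_rm (γ : I) : D.V.ep * D.rm (D.X γ) =
    ((-1 : k) ^ (D.dg γ)) • (D.rm (D.X γ) * D.V.ep) := by
  ext y
  rw [Module.End.mul_apply, LinearMap.smul_apply, Module.End.mul_apply, rm_apply, rm_apply,
    ep_apply', epG_mul, epG_X, map_smul, ep_apply', neg_one_pow_smul (𝔾 := 𝔾)]

theorem ep_ee {l : I} (hl : D.dg l = 1) : D.V.ep * D.ee l = - (D.ee l * D.V.ep) := by
  have h1 : D.V.ep * D.ee l * D.V.ep = - D.ee l := (D.ee_hm1 hl).cj_odd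
  calc D.V.ep * D.ee l = (D.V.ep * D.ee l * D.V.ep) * D.V.ep := by
        rw [mul_assoc _ D.V.ep D.V.ep, D.V.ep_ep, mul_one]
    _ = _ := by rw [h1, neg_mul]

theorem ep_pow_ee {l : I} (hl : D.dg l = 1) (m : ℕ) :
    D.V.ep ^ m * D.ee l = ((-1 : k) ^ m) • (D.ee l * D.V.ep ^ m) := by
  induction m with
  | zero => simp
  | succ m ih =>
    rw [pow_succ, mul_assoc, D.ep_ee hl, mul_neg, ← mul_assoc, ih, smul_mul_assoc, pow_succ,
      mul_neg_one, neg_smul, mul_assoc]

/-- One term of `Ups`. -/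
noncomputable def Tb (β : I) (ψ : Module.End k P) : Module.End k P :=
  ((-1 : k) ^ (D.dg β)) • (D.rm (D.X β) * ψ * D.ee β * D.V.ep ^ (D.dg β))

/-- The part of `Ups` of degree `n`. -/
noncomputable def Y (n : ℕ) (ψ : Module.End k P) : Module.End k P := ∑ β ∈ D.deg n, D.Tb β ψ

theorem Y_add (n : ℕ) (ψ ψ' : Module.End k P) : D.Y n (ψ + ψ') = D.Y n ψ + D.Y n ψ' := by
  unfold Y Tb
  rw [← Finset.sum_add_distrib]
  apply Finset.sum_congr rfl
  intro β _
  rw [← smul_add]
  congr 1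
  noncomm_ring

theorem Y_smul (n : ℕ) (t : k) (ψ : Module.End k P) : D.Y n (t • ψ) = t • D.Y n ψ := by
  unfold Y Tb
  rw [Finset.smul_sum]
  apply Finset.sum_congr rfl
  intro β _
  rw [mul_smul_comm, smul_mul_assoc, smul_mul_assoc, smul_comm]

theorem Y_zero' (ψ : Module.End k P) : D.Y 0 ψ = ψ := by
  unfold Y Tb
  rw [deg_zero, Finset.sum_singleton, D.dg_o, ee_o, rm_o]
  simp

theorem coeff_rel {l : I} (hl : D.dg l = 1) (n : ℕ) : ∃ c : I → I → k,
    (∀ β, D.dg β = n + 1 → D.ee l (D.X β) = ∑ γ ∈ D.deg n, c γ β • D.X γ) ∧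
    ∀ γ, D.dg γ = n → ∑ β ∈ D.deg (n + 1), c γ β • D.ee β = D.ee γ * D.ee l := by
  have h1 : ∀ γ, ∃ c : I → k, D.dg γ = n →
      (∀ β, D.dg β = n + 1 → D.E γ (D.E l (D.X β)) = algebraMap k 𝔾 (c β) • D.X D.o) ∧
      D.E γ ∘ₗ D.E l = ∑ β ∈ D.deg (n + 1), algebraMap k 𝔾 (c β) • D.E β := by
    intro γ
    by_cases hγ : D.dg γ = n
    · obtain ⟨c, h2, h3⟩ := D.expand (D.E γ ∘ₗ D.E l) (n + 1) (by
        intro β
        have h4 : D.E l (D.X β) ∈ D.V.PP (D.dg β - 1) 0 :=
          (D.ee_hm1 hl).apply (D.X_mem β) (by ring) (by norm_num)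
        exact (D.ee_hm γ).apply h4 (by push_cast; rw [hγ]; ring) (by norm_num)) (by
        intro x
        rw [LinearMap.comp_apply, LinearMap.comp_apply, D.E_del, hl, map_smul, D.E_del, hγ,
          smul_smul, pow_one, pow_succ, mul_comm])
      exact ⟨c, fun _ => ⟨h2, h3⟩⟩
    · exact ⟨fun _ => 0, fun h => absurd h hγ⟩
  choose c hc using h1
  refine ⟨c, ?_, ?_⟩
  · intro β hβ
    have h4 : D.E l (D.X β) ∈ D.V.PP n 0 :=
      (D.ee_hm1 hl).apply (D.X_mem β) (by omega) (by norm_num)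
    rw [ee_apply]
    have h5 : D.E l (D.X β) = _ := D.sum_repr h4
    conv_lhs => rw [h5]
    apply Finset.sum_congr rfl
    intro γ hγ
    rw [mem_deg] at hγ
    have h6 := (hc γ hγ).1 β hβ
    rw [D.E_top γ (by rw [hγ]; exact h4)] at h6
    rw [D.smul_X_o_injective h6, algebraMap_smul]
  · intro γ hγ
    ext x
    have h7 := LinearMap.congr_fun (hc γ hγ).2 x
    rw [LinearMap.comp_apply] at h7
    rw [Module.End.mul_apply, ee_apply, ee_apply, h7]
    simp only [LinearMap.sum_apply, LinearMap.smul_apply, ee_apply, algebraMap_smul]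

theorem cj_sum {ι : Type*} (s : Finset ι) (f : ι → Module.End k P) :
    D.V.cj (∑ i ∈ s, f i) = ∑ i ∈ s, D.V.cj (f i) := by
  unfold Bigr.cj
  rw [Finset.mul_sum, Finset.sum_mul]

theorem ee_Y_succ {l : I} (hl : D.dg l = 1) (n : ℕ) (ψ : Module.End k P) :
    D.ee l * D.Y (n + 1) ψ = D.Y (n + 1) (D.ee l * ψ) + D.V.cj (D.Y n ψ) * D.ee l := by
  obtain ⟨c, h1, h2⟩ := D.coeff_rel hl n
  have e1 : ∀ β ∈ D.deg (n + 1), D.ee l * D.Tb β ψ = D.Tb β (D.ee l * ψ) +
      ∑ γ ∈ D.deg n, ((-1 : k) ^ (n + 1)) •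
        (D.rm (D.X γ) * D.V.ep * ψ * (c γ β • D.ee β) * D.V.ep ^ (n + 1)) := by
    intro β hβ
    rw [mem_deg] at hβ
    have e2 : D.ee l * D.Tb β ψ = ((-1 : k) ^ (n + 1)) •
        ((D.ee l * D.rm (D.X β)) * ψ * D.ee β * D.V.ep ^ (n + 1)) := by
      unfold Tb
      rw [hβ, mul_smul_comm]
      simp only [mul_assoc]
    rw [e2, D.ee_rm hl, h1 β hβ, map_sum, add_mul, add_mul, add_mul, smul_add]
    congr 1
    · unfold Tb
      rw [hβ]
      simp only [mul_assoc]
    · rw [Finset.sum_mul, Finset.sum_mul, Finset.sum_mul, Finset.sum_mul, Finset.smul_sum]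
      apply Finset.sum_congr rfl
      intro γ _
      rw [map_smul]
      simp only [smul_mul_assoc, mul_smul_comm]
  have e3 : ∑ β ∈ D.deg (n + 1), ∑ γ ∈ D.deg n, ((-1 : k) ^ (n + 1)) •
        (D.rm (D.X γ) * D.V.ep * ψ * (c γ β • D.ee β) * D.V.ep ^ (n + 1)) =
      D.V.cj (D.Y n ψ) * D.ee l := by
    rw [Finset.sum_comm]
    unfold Y
    rw [cj_sum, Finset.sum_mul]
    apply Finset.sum_congr rfl
    intro γ hγ
    rw [mem_deg] at hγ
    rw [← Finset.smul_sum, ← Finset.sum_mul, ← Finset.mul_sum, h2 γ hγ]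
    have e4 : D.V.cj (D.Tb γ ψ) * D.ee l = ((-1 : k) ^ n) • ((D.V.ep * D.rm (D.X γ)) * ψ *
        D.ee γ * (D.V.ep ^ (n + 1) * D.ee l)) := by
      unfold Bigr.cj Tb
      rw [hγ, pow_succ, mul_smul_comm, smul_mul_assoc, smul_mul_assoc]
      simp only [mul_assoc]
    rw [e4, D.ep_rm, hγ, D.ep_pow_ee hl]
    simp only [smul_mul_assoc, mul_smul_comm, smul_smul, mul_assoc]
    rw [show (-1 : k) ^ n * ((-1) ^ (n + 1) * (-1) ^ n) =
      (-1) ^ (n + 1) * ((-1) ^ n * (-1) ^ n) by ring, neg_one_pow_mul_self, mul_one]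
  unfold Y at e3 ⊢
  rw [Finset.mul_sum, Finset.sum_congr rfl e1, Finset.sum_add_distrib, e3]

theorem Y_kill {n : ℕ} {i w : ℤ} (hi : i < n) {x : P} (hx : x ∈ D.V.PP i w)
    (ψ : Module.End k P) : D.Y n ψ x = 0 := by
  unfold Y Tb
  rw [LinearMap.sum_apply]
  apply Finset.sum_eq_zero
  intro β hβ
  rw [mem_deg] at hβ
  have h1 : (D.V.ep ^ n) x ∈ D.V.PP i w := by
    have : ∀ m : ℕ, (D.V.ep ^ m) x ∈ D.V.PP i w := by
      intro m
      induction m with
      | zero => simpa using hx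
      | succ m ih =>
        rw [pow_succ', Module.End.mul_apply, D.V.ep_apply ih]
        exact Submodule.smul_mem _ _ ih
    exact this n
  have h2 : D.ee β ((D.V.ep ^ n) x) = 0 := by
    apply D.PP_neg (i := i - n) (by omega)
    exact (D.ee_hm β).apply h1 (by rw [hβ]; ring) (by ring)
  rw [hβ, LinearMap.smul_apply, Module.End.mul_apply, Module.End.mul_apply, h2, map_zero,
    smul_zero]

theorem ep_pow_mem {i w : ℤ} {x : P} (hx : x ∈ D.V.PP i w) (m : ℕ) :
    (D.V.ep ^ m) x ∈ D.V.PP i w := by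
  induction m with
  | zero => simpa using hx
  | succ m ih =>
    rw [pow_succ', Module.End.mul_apply, D.V.ep_apply ih]
    exact Submodule.smul_mem _ _ ih

/-- The sum of the parts of degree `≤ N`. -/
noncomputable def Upto (N : ℕ) (ψ : Module.End k P) : Module.End k P :=
  ∑ n ∈ range (N + 1), D.Y n ψ

theorem Upto_eq {i : ℕ} {w : ℤ} {x : P} (hx : x ∈ D.V.PP i w) (ψ : Module.End k P) {N : ℕ}
    (hN : i ≤ N) : D.Upto N ψ x = D.Upto i ψ x := by
  induction N, hN using Nat.le_induction with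
  | base => rfl
  | succ N hN ih =>
    unfold Upto at ih ⊢
    rw [Finset.sum_range_succ, LinearMap.add_apply, ih, D.Y_kill (by push_cast; omega) hx, add_zero]

/-- The operator `Ups`. -/
noncomputable def Ups : Module.End k P →ₗ[k] Module.End k P where
  toFun ψ := D.V.B.constr k fun c => D.Upto (D.dg c.2) ψ (D.V.B c)
  map_add' ψ ψ' := by
    apply D.V.B.ext
    intro c
    rw [LinearMap.add_apply]
    simp [Upto, Y_add, Finset.sum_add_distrib]
  map_smul' t ψ := by
    apply D.V.B.ext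
    intro c
    rw [LinearMap.smul_apply]
    simp [Upto, Y_smul, Finset.smul_sum]

theorem Ups_B (ψ : Module.End k P) (c : Λ × I) :
    D.Ups ψ (D.V.B c) = D.Upto (D.dg c.2) ψ (D.V.B c) := by
  simp [Ups]

theorem Ups_apply (ψ : Module.End k P) {i : ℕ} {w : ℤ} {x : P} (hx : x ∈ D.V.PP i w) :
    D.Ups ψ x = D.Upto i ψ x := by
  unfold Bigr.PP at hx
  induction hx using Submodule.span_induction with
  | mem x hx =>
    obtain ⟨c, ⟨hc, _⟩, rfl⟩ := hx
    have : D.dg c.2 = i := by rw [V_dg] at hc; exact_mod_cast hc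
    rw [Ups_B, this]
  | zero => simp
  | add x y _ _ hx hy => rw [map_add, hx, hy, map_add]
  | smul t x _ hx => rw [map_smul, hx, map_smul]

theorem Ups_apply' (ψ : Module.End k P) {i : ℕ} {w : ℤ} {x : P} (hx : x ∈ D.V.PP i w) {N : ℕ}
    (hN : i ≤ N) : D.Ups ψ x = D.Upto N ψ x := by
  rw [D.Ups_apply ψ hx, D.Upto_eq hx ψ hN]

/-- The supercommutator with a contraction of degree one. -/
noncomputable def ad (l : I) (φ : Module.End k P) : Module.End k P :=
  D.ee l * φ - D.V.cj φ * D.ee l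

theorem ee_Upto {l : I} (hl : D.dg l = 1) (N : ℕ) (ψ : Module.End k P) :
    D.ee l * D.Upto (N + 1) ψ = D.Upto (N + 1) (D.ee l * ψ) +
      D.V.cj (D.Upto N ψ) * D.ee l := by
  induction N with
  | zero =>
    unfold Upto
    rw [Finset.sum_range_succ, Finset.sum_range_succ, Finset.sum_range_succ, Finset.sum_range_succ]
    simp only [Finset.range_zero, Finset.sum_empty, zero_add, mul_add]
    rw [D.ee_Y_succ hl, Y_zero', Y_zero', ← add_assoc]
  | succ N ih =>
    have h1 : ∀ M φ, D.Upto (M + 1) φ = D.Upto M φ + D.Y (M + 1) φ := fun M φ => by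
      unfold Upto; rw [Finset.sum_range_succ]
    rw [h1 (N + 1) ψ, mul_add, ih, D.ee_Y_succ hl, h1 (N + 1) (D.ee l * ψ), h1 N ψ, D.V.cj_add]
    noncomm_ring

theorem ad_Ups {l : I} (hl : D.dg l = 1) (ψ : Module.End k P) :
    D.ad l (D.Ups ψ) = D.Ups (D.ee l * ψ) := by
  apply D.V.B.ext
  intro c
  have hB : D.V.B c ∈ D.V.PP (D.dg c.2) (D.wt c.1) := D.V_B_mem c
  set i := D.dg c.2 with hi
  have h1 : D.ad l (D.Ups ψ) (D.V.B c) = D.ee l (D.Ups ψ (D.V.B c)) -
      D.V.ep (D.Ups ψ (D.V.ep (D.ee l (D.V.B c)))) := rfl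
  rw [h1]
  have h2 : D.Ups ψ (D.V.B c) = D.Upto (i + 1) ψ (D.V.B c) := D.Ups_apply' ψ hB (by omega)
  have h3 : D.Ups (D.ee l * ψ) (D.V.B c) = D.Upto (i + 1) (D.ee l * ψ) (D.V.B c) :=
    D.Ups_apply' _ hB (by omega)
  have h4 : D.Ups ψ (D.V.ep (D.ee l (D.V.B c))) =
      D.Upto i ψ (D.V.ep (D.ee l (D.V.B c))) := by
    have h5 : D.ee l (D.V.B c) ∈ D.V.PP ((i : ℤ) - 1) (D.wt c.1) :=
      (D.ee_hm1 hl).apply hB (by ring) (by ring)
    have h6 : D.V.ep (D.ee l (D.V.B c)) ∈ D.V.PP ((i : ℤ) - 1) (D.wt c.1) := by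
      rw [D.V.ep_apply h5]; exact Submodule.smul_mem _ _ h5
    rcases Nat.eq_zero_or_pos i with h0 | h0
    · have h7 : D.V.ep (D.ee l (D.V.B c)) = 0 := D.PP_neg (by omega) h6
      rw [h7, map_zero, map_zero]
    · have h7 : D.V.ep (D.ee l (D.V.B c)) ∈ D.V.PP ((i - 1 : ℕ) : ℤ) (D.wt c.1) := by
        rw [Nat.cast_sub h0]
        exact_mod_cast h6
      exact D.Ups_apply' ψ h7 (by omega)
  rw [h2, h3, h4]
  have h8 := LinearMap.congr_fun (D.ee_Upto hl i ψ) (D.V.B c)
  rw [Module.End.mul_apply, LinearMap.add_apply] at h8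
  rw [h8]
  have h9 : (D.V.cj (D.Upto i ψ) * D.ee l) (D.V.B c) =
      D.V.ep (D.Upto i ψ (D.V.ep (D.ee l (D.V.B c)))) := rfl
  rw [h9, add_sub_cancel_right]

/-- `Ups ψ - ψ` on elements of degree `i` only depends on `ψ` in degrees `< i`. -/
theorem Ups_sub_eq_zero {n : ℕ} {χ : Module.End k P}
    (hχ : ∀ (i : ℕ) (w : ℤ) (x : P), i < n → x ∈ D.V.PP i w → χ x = 0) {i : ℕ} {w : ℤ} {x : P}
    (hi : i ≤ n) (hx : x ∈ D.V.PP i w) : D.Ups χ x - χ x = 0 := by
  rw [D.Ups_apply χ hx]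
  unfold Upto
  rw [Finset.sum_range_succ', Y_zero', LinearMap.add_apply, add_sub_cancel_right,
    LinearMap.sum_apply]
  apply Finset.sum_eq_zero
  intro m _
  unfold Y Tb
  rw [LinearMap.sum_apply]
  apply Finset.sum_eq_zero
  intro β hβ
  rw [mem_deg] at hβ
  have h1 : D.ee β ((D.V.ep ^ (D.dg β)) x) ∈ D.V.PP ((i : ℤ) - (m + 1)) w :=
    (D.ee_hm β).apply (D.ep_pow_mem hx _) (by rw [hβ]; push_cast; ring) (by ring)
  have h2 : χ (D.ee β ((D.V.ep ^ (D.dg β)) x)) = 0 := by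
    by_cases h0 : m + 1 ≤ i
    · apply hχ (i - (m + 1)) w _ (by omega)
      rw [Nat.cast_sub h0]
      exact_mod_cast h1
    · rw [D.PP_neg (by omega) h1, map_zero]
  rw [LinearMap.smul_apply, Module.End.mul_apply, Module.End.mul_apply, Module.End.mul_apply, h2,
    map_zero, smul_zero]

/-- Approximations to a preimage under `Ups`. -/
noncomputable def approx (φ : Module.End k P) : ℕ → Module.End k P
  | 0 => 0
  | n + 1 => φ - (D.Ups (approx φ n) - approx φ n)

theorem approx_agree (φ : Module.End k P) (n : ℕ) : ∀ (i : ℕ) (w : ℤ) (x : P), i < n →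
    x ∈ D.V.PP i w → (D.approx φ (n + 1) - D.approx φ n) x = 0 := by
  induction n with
  | zero => intro i w x h; omega
  | succ n ih =>
    intro i w x h hx
    have h1 := D.Ups_sub_eq_zero ih (show i ≤ n by omega) hx
    have h2 : (D.approx φ (n + 1 + 1) - D.approx φ (n + 1)) x =
        - (D.Ups (D.approx φ (n + 1) - D.approx φ n) x - (D.approx φ (n + 1) - D.approx φ n) x) := by
      rw [map_sub]
      have e1 : D.approx φ (n + 1 + 1) = φ - (D.Ups (D.approx φ (n + 1)) - D.approx φ (n + 1)) := rfl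
      have e2 : D.approx φ (n + 1) = φ - (D.Ups (D.approx φ n) - D.approx φ n) := rfl
      rw [e1]
      simp only [LinearMap.sub_apply]
      have e3 : D.approx φ (n + 1) x = φ x - (D.Ups (D.approx φ n) x - D.approx φ n x) := by
        rw [e2]; simp only [LinearMap.sub_apply]
      rw [e3]
      abel
    rw [h2, h1, neg_zero]

theorem approx_eq (φ : Module.End k P) {i : ℕ} {w : ℤ} {x : P} (hx : x ∈ D.V.PP i w) {n : ℕ}
    (hn : i + 1 ≤ n) : D.approx φ n x = D.approx φ (i + 1) x := by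
  induction n, hn using Nat.le_induction with
  | base => rfl
  | succ n hn ih =>
    have := D.approx_agree φ n i w x (by omega) hx
    rw [LinearMap.sub_apply, sub_eq_zero] at this
    rw [this, ih]

theorem Ups_surjective : Function.Surjective D.Ups := by
  intro φ
  set ψ : Module.End k P := D.V.B.constr k fun c => D.approx φ (D.dg c.2 + 1) (D.V.B c) with hψ
  have h0 : ∀ (i : ℕ) (w : ℤ) (x : P), x ∈ D.V.PP i w → ψ x = D.approx φ (i + 1) x := by
    intro i w x hx
    unfold Bigr.PP at hx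
    induction hx using Submodule.span_induction with
    | mem x hx =>
      obtain ⟨c, ⟨hc, _⟩, rfl⟩ := hx
      have : D.dg c.2 = i := by rw [V_dg] at hc; exact_mod_cast hc
      rw [← this]
      simp [hψ]
    | zero => simp
    | add x y _ _ hx hy => rw [map_add, hx, hy, map_add]
    | smul t x _ hx => rw [map_smul, hx, map_smul]
  refine ⟨ψ, ?_⟩
  apply D.V.B.ext
  intro c
  have hB : D.V.B c ∈ D.V.PP (D.dg c.2) (D.wt c.1) := D.V_B_mem c
  set i := D.dg c.2 with hi
  have h1 : ∀ (j : ℕ) (w : ℤ) (x : P), j < i → x ∈ D.V.PP j w → (ψ - D.approx φ i) x = 0 := by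
    intro j w x hj hx
    rw [LinearMap.sub_apply, h0 j w x hx, ← D.approx_eq φ hx (n := i) (by omega), sub_self]
  have h2 := D.Ups_sub_eq_zero h1 le_rfl hB
  have h3 : ψ (D.V.B c) = φ (D.V.B c) - (D.Ups (D.approx φ i) (D.V.B c) -
      D.approx φ i (D.V.B c)) := by
    rw [h0 i _ _ hB]
    have e2 : D.approx φ (i + 1) = φ - (D.Ups (D.approx φ i) - D.approx φ i) := rfl
    rw [e2]
    simp only [LinearMap.sub_apply]
  rw [map_sub, LinearMap.sub_apply, LinearMap.sub_apply] at h2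
  have h4 : D.Ups ψ (D.V.B c) = ψ (D.V.B c) + (D.Ups (D.approx φ i) (D.V.B c) -
      D.approx φ i (D.V.B c)) := by
    rw [← sub_eq_zero, ← h2]
    abel
  rw [h4, h3]
  abel

end CoreData

end Pool.Agent.Lib.MP_d42622_al
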