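import Pool.Agent.Lib.MP_d42622_al.Str

/-!
The data on the linear part of the minimal free resolution of the residue field used in the core
argument.
-/

namespace Pool.Agent.Lib.MP_d42622_al

open Finset

/-- A bigraded complex `P` of free modules over a graded ring `𝔾` with a product and contraction
operators. -/
structure CoreData (k 𝔾 P Λ I : Type*) [Field k] [CommRing 𝔾] [Algebra k 𝔾]
    [AddCommGroup P] [Module 𝔾 P] [Module k P] [IsScalarTower k 𝔾 P] where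
  g : Module.Basis Λ k 𝔾
  wt : Λ → ℕ
  X : Module.Basis I 𝔾 P
  dg : I → ℕ
  finite_wt : ∀ w, {a | wt a = w}.Finite
  finite_dg : ∀ n, {β | dg β = n}.Finite
  g_mul : ∀ a b c, g.repr (g a * g b) c ≠ 0 → wt c = wt a + wt b
  one_wt : ∀ c, g.repr 1 c ≠ 0 → wt c = 0
  wt_zero : ∀ a, wt a = 0 → ∃ t : k, g a = algebraMap k 𝔾 t
  o : I
  dg_o : dg o = 0
  eq_o : ∀ β, dg β = 0 → β = o
  del : P →ₗ[𝔾] P
  del_supp : ∀ β γ a, g.repr (X.repr (del (X β)) γ) a ≠ 0 → dg γ + 1 = dg β ∧ wt a = 1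
  del_del : ∀ x, del (del x) = 0
  mul : P →ₗ[𝔾] P →ₗ[𝔾] P
  mul_supp : ∀ α β γ a, g.repr (X.repr (mul (X α) (X β)) γ) a ≠ 0 →
    dg γ = dg α + dg β ∧ wt a = 0
  one_mul' : ∀ x, mul (X o) x = x
  mul_one' : ∀ x, mul x (X o) = x
  leibniz : ∀ β y, del (mul (X β) y) = mul (del (X β)) y + (-1 : 𝔾) ^ (dg β) • mul (X β) (del y)
  E : I → P →ₗ[𝔾] P
  E_supp : ∀ α β γ a, g.repr (X.repr (E α (X β)) γ) a ≠ 0 → dg γ + dg α = dg β ∧ wt a = 0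
  E_self : ∀ β, E β (X β) = X o
  E_ne : ∀ β γ, dg γ = dg β → γ ≠ β → E β (X γ) = 0
  E_del : ∀ β x, E β (del x) = (-1 : 𝔾) ^ (dg β) • del (E β x)
  E_der : ∀ l, dg l = 1 → ∀ β y,
    E l (mul (X β) y) = mul (E l (X β)) y + (-1 : 𝔾) ^ (dg β) • mul (X β) (E l y)
  E_mul : ∀ α x, 0 < dg α → (∀ γ, dg γ ≠ dg α → X.repr x γ = 0) →
    (∀ γ, 0 < dg γ → dg γ < dg α → E γ x = 0) →
    ∀ y, E α (mul x y) = X.repr x α • y + (-1 : 𝔾) ^ (dg α) • mul x (E α y)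
  /-- Exactness in degree `0`. -/
  exact_zero : ∀ (w : ℕ) (t : 𝔾), (∀ a, g.repr t a ≠ 0 → wt a = w + 1) →
    ∃ y : P, (∀ β a, g.repr (X.repr y β) a ≠ 0 → dg β = 1 ∧ wt a = w) ∧ del y = t • X o
  p₀ : ℕ
  tail : ∀ (i w : ℕ), p₀ < i + w → ∀ x : P,
    (∀ β a, g.repr (X.repr x β) a ≠ 0 → dg β = i ∧ wt a = w) → del x = 0 →
    ∃ y : P, (∀ β a, g.repr (X.repr y β) a ≠ 0 → dg β = i + 1 ∧ wt a + 1 = w) ∧ del y = x
  euler : ∀ p, p₀ ≤ p → ∑ i ∈ range (p + 1), (-1 : ℤ) ^ i * (Nat.card {β // dg β = i} : ℤ) *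
    ∑ w ∈ range (p + 1 - i), (Nat.card {a // wt a = w} : ℤ) = 1

end Pool.Agent.Lib.MP_d42622_al
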