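import Mathlib

/-!
Minimal free resolutions over a local ring with a chosen basis, and their linear part. This is the
form used in the proof; the statement uses `Statement.lean`.
-/

namespace Pool.Agent.Lib.MP_d42622_al

open IsLocalRing

universe u

/-- A minimal free resolution `⋯ → F_2 → F_1 → F_0 → M → 0` of the module `M` over the local ring
`R`, with `F_i = R ^ (rank i)`. -/
structure MinimalFreeResolution (R : Type u) [CommRing R] [IsLocalRing R] (M : Type u)
    [AddCommGroup M] [Module R M] where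
  /-- `F_i` is the free module `R ^ (rank i)`. -/
  rank : ℕ → ℕ
  /-- The differential `d i : F_{i+1} → F_i`. -/
  d : ∀ i, (Fin (rank (i + 1)) → R) →ₗ[R] (Fin (rank i) → R)
  /-- The augmentation `F_0 → M`. -/
  aug : (Fin (rank 0) → R) →ₗ[R] M
  aug_surjective : Function.Surjective aug
  exact_zero : LinearMap.range (d 0) = LinearMap.ker aug
  exact_succ : ∀ i, LinearMap.range (d (i + 1)) = LinearMap.ker (d i)
  minimal : ∀ i, LinearMap.range (d i) ≤
    maximalIdeal R • (⊤ : Submodule R (Fin (rank i) → R))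

namespace MinimalFreeResolution

variable {R : Type u} [CommRing R] [IsLocalRing R] {M : Type u} [AddCommGroup M] [Module R M]
variable (F : MinimalFreeResolution R M)

/-- The submodule `𝔪 ^ w F_i` of `F_i`. -/
def fil (i w : ℕ) : Submodule R (Fin (F.rank i) → R) :=
  maximalIdeal R ^ w • (⊤ : Submodule R (Fin (F.rank i) → R))

/-- The module `𝔪 ^ w F_i / 𝔪 ^ (w + 1) F_i`, the term in homological degree `i` of the strand
`lin_{i+w}(F)` of the linear part of `F`. -/
def linPiece (i w : ℕ) : Type u :=
  F.fil i w ⧸ (F.fil i (w + 1)).submoduleOf (F.fil i w)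

/-- The addition of `𝔪 ^ w F_i / 𝔪 ^ (w + 1) F_i`. -/
instance linPieceGroup (i w : ℕ) : AddCommGroup (F.linPiece i w) :=
  Submodule.Quotient.addCommGroup _

/-- The `R`-module structure of `𝔪 ^ w F_i / 𝔪 ^ (w + 1) F_i`. -/
instance linPieceModule (i w : ℕ) : Module R (F.linPiece i w) :=
  Submodule.Quotient.module _

theorem d_mem_fil {i w : ℕ} {x : Fin (F.rank (i + 1)) → R} (hx : x ∈ F.fil (i + 1) w) :
    F.d i x ∈ F.fil i (w + 1) := by
  have h : (F.fil (i + 1) w).map (F.d i) ≤ F.fil i (w + 1) := by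
    unfold fil
    rw [Submodule.map_smul'', pow_succ, mul_smul, Submodule.map_top]
    exact smul_mono_right _ (F.minimal i)
  exact h ⟨x, hx, rfl⟩

/-- The differential `𝔪 ^ w F_{i+1} / 𝔪 ^ (w + 1) F_{i+1} → 𝔪 ^ (w + 1) F_i / 𝔪 ^ (w + 2) F_i` of
the linear part of `F`, induced by the differential of `F`. -/
def linMap (i w : ℕ) : F.linPiece (i + 1) w →ₗ[R] F.linPiece i (w + 1) :=
  Submodule.mapQ _ _ ((F.d i).restrict fun _ hx => F.d_mem_fil hx)
    (fun x hx => F.d_mem_fil (w := w + 1) (x := x.1) hx)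

/-- `H_{i+1}(lin(F)) = 0`: each strand of the linear part of `F` is exact in homological degree
`i + 1`. The first condition is exactness at `F_{i+1} / 𝔪 F_{i+1}`, where nothing comes in, the
second one is exactness at `𝔪 ^ (w + 1) F_{i+1} / 𝔪 ^ (w + 2) F_{i+1}`. -/
def LinExactAt (i : ℕ) : Prop :=
  LinearMap.ker (F.linMap i 0) = ⊥ ∧
    ∀ w, LinearMap.ker (F.linMap i (w + 1)) = LinearMap.range (F.linMap (i + 1) w)

end MinimalFreeResolution

end Pool.Agent.Lib.MP_d42622_al
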