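import Pool.Agent.Lib.MP_d42622_al.Defs

/-!
The associated graded ring of a Noetherian local ring with a homogeneous basis.
-/

namespace Pool.Agent.Lib.MP_d42622_al

open IsLocalRing

universe u

/-- The associated graded ring `𝔾 = ⨁ 𝔪 ^ w / 𝔪 ^ (w + 1)` with its initial form maps
`ini w : 𝔪 ^ w → 𝔾` (extended to `R` in some way) and a homogeneous basis. -/
structure GrData (R : Type u) [CommRing R] [IsLocalRing R] where
  𝔾 : Type u
  [ring : CommRing 𝔾]
  [alg : Algebra (ResidueField R) 𝔾]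
  Λ : Type u
  g : Module.Basis Λ (ResidueField R) 𝔾
  wt : Λ → ℕ
  finite_wt : ∀ w, {a | wt a = w}.Finite
  ini : ℕ → R → 𝔾
  ini_add : ∀ w x y, x ∈ maximalIdeal R ^ w → y ∈ maximalIdeal R ^ w →
    ini w (x + y) = ini w x + ini w y
  ini_mul : ∀ w v x y, x ∈ maximalIdeal R ^ w → y ∈ maximalIdeal R ^ v →
    ini (w + v) (x * y) = ini w x * ini v y
  ini_eq_zero_iff : ∀ w x, x ∈ maximalIdeal R ^ w →
    (ini w x = 0 ↔ x ∈ maximalIdeal R ^ (w + 1))
  ini_zero : ∀ x, ini 0 x = algebraMap (ResidueField R) 𝔾 (residue R x)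
  ini_supp : ∀ w x, x ∈ maximalIdeal R ^ w → ∀ a, g.repr (ini w x) a ≠ 0 → wt a = w
  ini_surj : ∀ w (y : 𝔾), (∀ a, g.repr y a ≠ 0 → wt a = w) →
    ∃ x ∈ maximalIdeal R ^ w, ini w x = y

attribute [instance] GrData.ring GrData.alg

end Pool.Agent.Lib.MP_d42622_al
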