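import Pool.Agent.Lib.MP_d42622_al.TotDefs

/-!
Linear maps on associated graded modules.
-/

namespace Pool.Agent.Lib.MP_d42622_al

open IsLocalRing

universe u

namespace GrData

variable {R : Type u} [CommRing R] [IsLocalRing R] (G : GrData R)

theorem ini_sum {ι : Type*} (w : ℕ) (s : Finset ι) (f : ι → R)
    (h : ∀ i ∈ s, f i ∈ maximalIdeal R ^ w) :
    G.ini w (∑ i ∈ s, f i) = ∑ i ∈ s, G.ini w (f i) := by
  classical
  induction s using Finset.induction_on with
  | empty => simp [G.ini_apply_zero]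
  | insert a s ha ih =>
    rw [Finset.sum_insert ha, Finset.sum_insert ha, G.ini_add w, ih]
    · exact fun i hi => h i (Finset.mem_insert_of_mem hi)
    · exact h a (Finset.mem_insert_self _ _)
    · exact Ideal.sum_mem _ fun i hi => h i (Finset.mem_insert_of_mem hi)

theorem ini_neg (w : ℕ) (x : R) (h : x ∈ maximalIdeal R ^ w) : G.ini w (-x) = - G.ini w x := by
  have h1 := G.ini_add w x (-x) h (neg_mem h)
  rw [add_neg_cancel, G.ini_apply_zero] at h1
  exact (neg_eq_of_add_eq_zero_right h1.symm).symm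

theorem iniE_apply {A : Type*} (w : ℕ) (x : A →₀ R) (a : A) : G.iniE w x a = G.ini w (x a) := by
  simp [iniE]

theorem iniE_zero {A : Type*} (w : ℕ) : G.iniE w (0 : A →₀ R) = 0 := by
  simp [iniE]

theorem iniE_add {A : Type*} (w : ℕ) (x y : A →₀ R) (hx : ∀ a, x a ∈ maximalIdeal R ^ w)
    (hy : ∀ a, y a ∈ maximalIdeal R ^ w) : G.iniE w (x + y) = G.iniE w x + G.iniE w y := by
  ext a
  simp only [iniE_apply, Finsupp.add_apply]
  exact G.ini_add w _ _ (hx a) (hy a)

theorem iniE_smul {A : Type*} (w v : ℕ) (r : R) (x : A →₀ R) (hr : r ∈ maximalIdeal R ^ v)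
    (hx : ∀ a, x a ∈ maximalIdeal R ^ w) :
    G.iniE (v + w) (r • x) = G.ini v r • G.iniE w x := by
  ext a
  simp only [iniE_apply, Finsupp.smul_apply, smul_eq_mul]
  exact G.ini_mul v w _ _ hr (hx a)

theorem iniE_eq_zero_iff {A : Type*} (w : ℕ) (x : A →₀ R) (hx : ∀ a, x a ∈ maximalIdeal R ^ w) :
    G.iniE w x = 0 ↔ ∀ a, x a ∈ maximalIdeal R ^ (w + 1) := by
  constructor
  · intro h a
    have := DFunLike.congr_fun h a
    rw [iniE_apply, Finsupp.zero_apply] at this
    exact (G.ini_eq_zero_iff w _ (hx a)).1 this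
  · intro h
    ext a
    rw [iniE_apply, Finsupp.zero_apply]
    exact (G.ini_eq_zero_iff w _ (hx a)).2 (h a)

theorem map_eq_sum {A B : Type*} (f : (A →₀ R) →ₗ[R] (B →₀ R)) (x : A →₀ R) :
    f x = ∑ a ∈ x.support, x a • f (Finsupp.single a 1) := by
  conv_lhs => rw [← Finsupp.sum_single x]
  rw [Finsupp.sum, map_sum]
  refine Finset.sum_congr rfl fun a _ => ?_
  rw [← map_smul, Finsupp.smul_single, smul_eq_mul, mul_one]

theorem map_apply_eq_sum {A B : Type*} (f : (A →₀ R) →ₗ[R] (B →₀ R)) (x : A →₀ R) (b : B) :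
    f x b = ∑ a ∈ x.support, x a * f (Finsupp.single a 1) b := by
  rw [map_eq_sum f x, Finsupp.finsetSum_apply]
  refine Finset.sum_congr rfl fun a _ => ?_
  rw [Finsupp.smul_apply, smul_eq_mul]

theorem Ent.mem {A B : Type*} {v w : ℕ} {f : (A →₀ R) →ₗ[R] (B →₀ R)} (hf : Ent v f) {x : A →₀ R}
    (hx : ∀ a, x a ∈ maximalIdeal R ^ w) (b : B) :
    f x b ∈ maximalIdeal R ^ (v + w) := by
  rw [map_apply_eq_sum]
  refine Ideal.sum_mem _ fun a _ => ?_
  rw [add_comm, pow_add]
  exact Ideal.mul_mem_mul (hx a) (hf a b)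

theorem grMap_iniE {A B : Type*} (v w : ℕ) (f : (A →₀ R) →ₗ[R] (B →₀ R)) (hf : Ent v f)
    (x : A →₀ R) (hx : ∀ a, x a ∈ maximalIdeal R ^ w) :
    G.grMap v f (G.iniE w x) = G.iniE (v + w) (f x) := by
  classical
  ext b
  have h1 : G.grMap v f (G.iniE w x)
      = ∑ a ∈ x.support, G.ini w (x a) • G.iniE v (f (Finsupp.single a 1)) := by
    rw [grMap, Finsupp.linearCombination_apply]
    rw [Finsupp.sum_of_support_subset (s := x.support)]
    · refine Finset.sum_congr rfl fun a _ => ?_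
      rw [iniE_apply]
    · exact Finsupp.support_mapRange
    · intro a _
      rw [zero_smul]
  rw [h1, iniE_apply, map_apply_eq_sum, G.ini_sum, Finsupp.finsetSum_apply]
  · refine Finset.sum_congr rfl fun a _ => ?_
    rw [Finsupp.smul_apply, smul_eq_mul, iniE_apply, add_comm v w]
    exact (G.ini_mul w v _ _ (hx a) (hf a b)).symm
  · intro a _
    rw [add_comm, pow_add]
    exact Ideal.mul_mem_mul (hx a) (hf a b)

theorem grMap_single {A B : Type*} (v : ℕ) (f : (A →₀ R) →ₗ[R] (B →₀ R)) (a : A) :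
    G.grMap v f (Finsupp.single a 1) = G.iniE v (f (Finsupp.single a 1)) := by
  rw [grMap, Finsupp.linearCombination_single, one_smul]

theorem ini_one : G.ini 0 1 = 1 := by
  rw [G.ini_zero, map_one, map_one]

theorem grMap_comp {A B C : Type*} (v w : ℕ) (f : (A →₀ R) →ₗ[R] (B →₀ R))
    (g : (B →₀ R) →ₗ[R] (C →₀ R)) (hf : Ent v f)
    (hg : Ent w g) : G.grMap (w + v) (g ∘ₗ f) = G.grMap w g ∘ₗ G.grMap v f := by
  refine Finsupp.lhom_ext' fun a => LinearMap.ext_ring ?_
  simp only [LinearMap.comp_apply, Finsupp.lsingle_apply]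
  rw [grMap_single, grMap_single, grMap_iniE G w v g hg]
  · rfl
  · exact fun b => hf a b

theorem grMap_add {A B : Type*} (v : ℕ) (f f' : (A →₀ R) →ₗ[R] (B →₀ R)) (hf : Ent v f)
    (hf' : Ent v f') :
    G.grMap v (f + f') = G.grMap v f + G.grMap v f' := by
  refine Finsupp.lhom_ext' fun a => LinearMap.ext_ring ?_
  simp only [LinearMap.comp_apply, Finsupp.lsingle_apply, LinearMap.add_apply]
  rw [grMap_single, grMap_single, grMap_single, LinearMap.add_apply, iniE_add]
  · exact fun b => hf a b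
  · exact fun b => hf' a b

theorem grMap_smul {A B : Type*} (v w : ℕ) (r : R) (f : (A →₀ R) →ₗ[R] (B →₀ R))
    (hr : r ∈ maximalIdeal R ^ w) (hf : Ent v f) :
    G.grMap (w + v) (r • f) = G.ini w r • G.grMap v f := by
  refine Finsupp.lhom_ext' fun a => LinearMap.ext_ring ?_
  simp only [LinearMap.comp_apply, Finsupp.lsingle_apply, LinearMap.smul_apply]
  rw [grMap_single, grMap_single, LinearMap.smul_apply, iniE_smul]
  · exact hr
  · exact fun b => hf a b

theorem grMap_eq_zero {A B : Type*} (v : ℕ) (f : (A →₀ R) →ₗ[R] (B →₀ R)) (hf : Ent (v + 1) f) :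
    G.grMap v f = 0 := by
  refine Finsupp.lhom_ext' fun a => LinearMap.ext_ring ?_
  simp only [LinearMap.comp_apply, Finsupp.lsingle_apply, LinearMap.zero_apply]
  rw [grMap_single, iniE_eq_zero_iff]
  · exact fun b => hf a b
  · exact fun b => Ideal.pow_le_pow_right (Nat.le_succ v) (hf a b)

theorem ini_neg_one_pow (n : ℕ) : G.ini 0 ((-1 : R) ^ n) = (-1 : G.𝔾) ^ n := by
  rw [G.ini_zero, map_pow, map_pow, map_neg, map_neg, map_one, map_one]

theorem exists_iniE {A : Type*} (w : ℕ) (y : A →₀ G.𝔾)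
    (hy : ∀ a b, G.g.repr (y a) b ≠ 0 → G.wt b = w) :
    ∃ x : A →₀ R, (∀ a, x a ∈ maximalIdeal R ^ w) ∧ (∀ a, y a = 0 → x a = 0) ∧
      G.iniE w x = y := by
  classical
  choose f hf using fun a => G.ini_surj w (y a) (hy a)
  let h : A → R := fun a => if y a = 0 then 0 else f a
  have hh : ∀ a, h a ≠ 0 → a ∈ y.support := by
    intro a ha
    rw [Finsupp.mem_support_iff]
    intro h0
    exact ha (if_pos h0)
  refine ⟨Finsupp.onFinset y.support h hh, ?_, ?_, ?_⟩
  · intro a
    rw [Finsupp.onFinset_apply]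
    by_cases h0 : y a = 0
    · simp only [h, if_pos h0]
      exact Submodule.zero_mem _
    · simp only [h, if_neg h0]
      exact (hf a).1
  · intro a h0
    rw [Finsupp.onFinset_apply]
    exact if_pos h0
  · ext a
    rw [iniE_apply, Finsupp.onFinset_apply]
    by_cases h0 : y a = 0
    · simp only [h, if_pos h0, h0, G.ini_apply_zero]
    · simp only [h, if_neg h0]
      exact (hf a).2

theorem iniE_supp {A : Type*} (w : ℕ) (x : A →₀ R) (hx : ∀ a, x a ∈ maximalIdeal R ^ w) (a : A)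
    (b : G.Λ) (h : G.g.repr (G.iniE w x a) b ≠ 0) : G.wt b = w := by
  rw [iniE_apply] at h
  exact G.ini_supp w _ (hx a) b h

theorem exists_ini_g (a : G.Λ) : ∃ x ∈ maximalIdeal R ^ G.wt a, G.ini (G.wt a) x = G.g a := by
  classical
  refine G.ini_surj _ _ fun c hc => ?_
  rw [Module.Basis.repr_self, Finsupp.single_apply] at hc
  by_cases h : a = c
  · rw [h]
  · rw [if_neg h] at hc
    exact absurd rfl hc

theorem g_mul_supp (a b c : G.Λ) (h : G.g.repr (G.g a * G.g b) c ≠ 0) :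
    G.wt c = G.wt a + G.wt b := by
  obtain ⟨x, hx, hx'⟩ := G.exists_ini_g a
  obtain ⟨y, hy, hy'⟩ := G.exists_ini_g b
  rw [← hx', ← hy', ← G.ini_mul _ _ x y hx hy] at h
  refine G.ini_supp _ _ ?_ c h
  rw [pow_add]
  exact Ideal.mul_mem_mul hx hy

theorem one_supp (c : G.Λ) (h : G.g.repr 1 c ≠ 0) : G.wt c = 0 := by
  rw [← G.ini_one] at h
  exact G.ini_supp 0 1 (by simp) c h

theorem g_wt_zero (a : G.Λ) (h : G.wt a = 0) :
    ∃ t : ResidueField R, G.g a = algebraMap (ResidueField R) G.𝔾 t := by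
  obtain ⟨x, _, hx'⟩ := G.exists_ini_g a
  refine ⟨residue R x, ?_⟩
  rw [← hx', h, G.ini_zero]

end GrData

end Pool.Agent.Lib.MP_d42622_al
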