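import Pool.Agent.Lib.MP_d42622_al.TotDefs

/-!
Lifting and uniqueness of chain maps into the total complex of a minimal free resolution of the
residue field, and the product and contraction operators obtained from it.
-/

namespace Pool.Agent.Lib.MP_d42622_al

open IsLocalRing

universe u

namespace LiftAux

variable {R : Type u} [CommRing R] [IsLocalRing R] {I L : Type}

/-- A graded complex of free modules with a minimal differential, in total form. -/
structure FreeCx (R : Type u) [CommRing R] [IsLocalRing R] (L : Type) where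
  cdeg : L → ℕ
  d : (L →₀ R) →ₗ[R] (L →₀ R)
  d_deg : ∀ c c', d (Finsupp.single c 1) c' ≠ 0 → cdeg c' + 1 = cdeg c
  d_mem : ∀ c c', d (Finsupp.single c 1) c' ∈ maximalIdeal R
  d_d : ∀ x, d (d x) = 0

/-- The underlying free complex of a total resolution. -/
def toCx (K : TotRes R I) : FreeCx R I where
  cdeg := K.deg
  d := K.D
  d_deg := K.D_deg
  d_mem := K.D_mem
  d_d := K.D_D

/-- Elements with entries in the maximal ideal. -/
def mm (R : Type u) [CommRing R] [IsLocalRing R] (L : Type) : Submodule R (L →₀ R) where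
  carrier := {x | ∀ c, x c ∈ maximalIdeal R}
  add_mem' := fun {x y} hx hy c => by
    rw [Finsupp.add_apply]
    exact Ideal.add_mem _ (hx c) (hy c)
  zero_mem' := fun c => by
    rw [Finsupp.zero_apply]
    exact Ideal.zero_mem _
  smul_mem' := fun r x hx c => by
    rw [Finsupp.smul_apply, smul_eq_mul]
    exact Ideal.mul_mem_left _ _ (hx c)

theorem mem_mm {x : L →₀ R} : x ∈ mm R L ↔ ∀ c, x c ∈ maximalIdeal R := Iff.rfl

/-- Homogeneous elements of degree `n`. -/
def hom (R : Type u) [CommRing R] (deg : L → ℕ) (n : ℕ) : Submodule R (L →₀ R) where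
  carrier := {x | ∀ c, x c ≠ 0 → deg c = n}
  add_mem' := fun {x y} hx hy c h => by
    by_cases h1 : x c = 0
    · by_cases h2 : y c = 0
      · exact absurd (by rw [Finsupp.add_apply, h1, h2, add_zero]) h
      · exact hy c h2
    · exact hx c h1
  zero_mem' := fun c h => absurd (Finsupp.zero_apply) h
  smul_mem' := fun r x hx c h => by
    refine hx c fun h0 => h ?_
    rw [Finsupp.smul_apply, h0, smul_zero]

theorem mem_hom {deg : L → ℕ} {n : ℕ} {x : L →₀ R} :
    x ∈ hom R deg n ↔ ∀ c, x c ≠ 0 → deg c = n := Iff.rfl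

section General

variable {V : Type*} [AddCommGroup V] [Module R V]

theorem map_eq_sum (f : (L →₀ R) →ₗ[R] V) (x : L →₀ R) :
    f x = x.sum fun c r => r • f (Finsupp.single c 1) := by
  conv_lhs => rw [← Finsupp.sum_single x]
  rw [Finsupp.sum, map_sum, Finsupp.sum]
  refine Finset.sum_congr rfl fun c _ => ?_
  rw [← map_smul, Finsupp.smul_single, smul_eq_mul, mul_one]

theorem map_mem (f : (L →₀ R) →ₗ[R] V) (S : Submodule R V) (x : L →₀ R)
    (h : ∀ c, x c ≠ 0 → f (Finsupp.single c 1) ∈ S) : f x ∈ S := by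
  rw [map_eq_sum f x, Finsupp.sum]
  exact Submodule.sum_mem _ fun c hc => Submodule.smul_mem _ _ (h c (Finsupp.mem_support_iff.1 hc))

theorem map_congr_of (f g : (L →₀ R) →ₗ[R] V) (x : L →₀ R)
    (h : ∀ c, x c ≠ 0 → f (Finsupp.single c 1) = g (Finsupp.single c 1)) : f x = g x := by
  rw [map_eq_sum f x, map_eq_sum g x, Finsupp.sum, Finsupp.sum]
  exact Finset.sum_congr rfl fun c hc => by rw [h c (Finsupp.mem_support_iff.1 hc)]

theorem map_ext (f g : (L →₀ R) →ₗ[R] V)
    (h : ∀ c, f (Finsupp.single c 1) = g (Finsupp.single c 1)) : f = g :=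
  LinearMap.ext fun x => map_congr_of f g x fun c _ => h c

theorem map_mem_mm (f : (L →₀ R) →ₗ[R] (I →₀ R)) {x : L →₀ R} (hx : x ∈ mm R L) :
    f x ∈ mm R I := by
  rw [map_eq_sum f x, Finsupp.sum]
  refine Submodule.sum_mem _ fun c _ => ?_
  intro γ
  rw [Finsupp.smul_apply, smul_eq_mul]
  exact Ideal.mul_mem_right _ _ (hx c)

theorem map_mem_mm' (f : (L →₀ R) →ₗ[R] (I →₀ R))
    (hf : ∀ c, f (Finsupp.single c 1) ∈ mm R I) (x : L →₀ R) : f x ∈ mm R I :=
  map_mem f _ x fun c _ => hf c

theorem d_mem_mm (C : FreeCx R L) (x : L →₀ R) : C.d x ∈ mm R L :=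
  map_mem_mm' _ (fun c => C.d_mem c) x

/-- Degree bookkeeping: `f` shifts degrees by `-n`. -/
def Shift (dL : L → ℕ) (dI : I → ℕ) (n : ℕ) (f : (L →₀ R) →ₗ[R] (I →₀ R)) : Prop :=
  ∀ c γ, f (Finsupp.single c 1) γ ≠ 0 → dI γ + n = dL c

theorem Shift.map {dL : L → ℕ} {dI : I → ℕ} {n : ℕ} {f : (L →₀ R) →ₗ[R] (I →₀ R)}
    (hf : Shift dL dI n f) {k : ℕ} {x : L →₀ R} (hx : x ∈ hom R dL (k + n)) :
    f x ∈ hom R dI k :=
  map_mem f _ x fun c hc γ hγ => by
    have h1 := hf c γ hγ
    have h2 := hx c hc
    omega

theorem Shift.map_lt {dL : L → ℕ} {dI : I → ℕ} {n : ℕ} {f : (L →₀ R) →ₗ[R] (I →₀ R)}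
    (hf : Shift dL dI n f) {k : ℕ} {x : L →₀ R} (hx : x ∈ hom R dL k) (hk : k < n) :
    f x = 0 := by
  rw [← Submodule.mem_bot R]
  refine map_mem f _ x fun c hc => ?_
  rw [Submodule.mem_bot]
  ext γ
  rw [Finsupp.zero_apply]
  by_contra h
  have h1 := hf c γ h
  have h2 := hx c hc
  omega

theorem Shift.map' {dL : L → ℕ} {dI : I → ℕ} {n : ℕ} {f : (L →₀ R) →ₗ[R] (I →₀ R)}
    (hf : Shift dL dI n f) {k : ℕ} {x : L →₀ R} (hx : x ∈ hom R dL k) {γ : I} (h : f x γ ≠ 0) :
    dI γ + n = k := by
  by_cases hk : k < n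
  · exact absurd (by rw [hf.map_lt hx hk, Finsupp.zero_apply]) h
  · obtain ⟨j, rfl⟩ : ∃ j, k = j + n := ⟨k - n, by omega⟩
    rw [hf.map hx γ h]

theorem single_mem_hom {deg : L → ℕ} (c : L) (r : R) : Finsupp.single c r ∈ hom R deg (deg c) := by
  intro c' h
  by_cases hc : c = c'
  · rw [hc]
  · exact absurd (Finsupp.single_eq_of_ne (Ne.symm hc)) h

end General

section Sig

variable (K : TotRes R I)

theorem D_o : K.D (Finsupp.single K.o 1) = 0 := by
  ext γ
  rw [Finsupp.zero_apply]
  by_contra h
  have := K.D_deg _ _ h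
  rw [K.deg_o] at this
  omega

/-- `x` is a cycle in positive degree `n`, or an element of `𝔪 X_o` (when `n = 0`). -/
def Liftable (n : ℕ) (x : I →₀ R) : Prop :=
  x ∈ hom R K.deg n ∧ K.D x = 0 ∧ (n = 0 → x ∈ mm R I)

theorem exists_sig (n : ℕ) (x : I →₀ R) (hx : Liftable K n x) :
    ∃ y ∈ hom R K.deg (n + 1), K.D y = x := by
  obtain ⟨h1, h2, h3⟩ := hx
  rcases n with _ | n
  · have hx : x = Finsupp.single K.o (x K.o) := by
      ext γ
      by_cases hγ : γ = K.o
      · rw [hγ, Finsupp.single_eq_same]
      · rw [Finsupp.single_eq_of_ne hγ]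
        by_contra h
        exact hγ (K.eq_o γ (h1 γ h))
    obtain ⟨y, hy, hy'⟩ := K.exact_zero (x K.o) (h3 rfl K.o)
    exact ⟨y, hy, by rw [hy', ← hx]⟩
  · exact K.exact n x h1 h2

open Classical in
/-- A chosen preimage under the differential. -/
noncomputable def sig (n : ℕ) (x : I →₀ R) : I →₀ R :=
  if h : Liftable K n x then (exists_sig K n x h).choose else 0

theorem sig_mem (n : ℕ) (x : I →₀ R) : sig K n x ∈ hom R K.deg (n + 1) := by
  unfold sig
  split_ifs with h
  · exact (exists_sig K n x h).choose_spec.1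
  · exact Submodule.zero_mem _

theorem D_sig {n : ℕ} {x : I →₀ R} (h : Liftable K n x) : K.D (sig K n x) = x := by
  unfold sig
  rw [dif_pos h]
  exact (exists_sig K n x h).choose_spec.2

variable (C : FreeCx R L) (N : ℕ) (s : R) (T : (L →₀ R) →ₗ[R] (I →₀ R))

open Classical in
/-- The recursive solution of `D h = T + s h d`. -/
noncomputable def solv : L → (I →₀ R) :=
  (measure C.cdeg).wf.fix fun c ih =>
    if C.cdeg c < N then 0 else
      sig K (C.cdeg c - N) (T (Finsupp.single c 1) + s •
        Finsupp.linearCombination R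
          (fun c' => if h : C.cdeg c' < C.cdeg c then ih c' h else 0) (C.d (Finsupp.single c 1)))

theorem solv_eq (c : L) : solv K C N s T c =
    if C.cdeg c < N then 0 else
      sig K (C.cdeg c - N) (T (Finsupp.single c 1) + s •
        Finsupp.linearCombination R (solv K C N s T) (C.d (Finsupp.single c 1))) := by
  classical
  unfold solv
  rw [WellFounded.fix_eq]
  by_cases hc : C.cdeg c < N
  · rw [if_pos hc, if_pos hc]
  · rw [if_neg hc, if_neg hc]
    congr 3
    refine map_congr_of _ _ _ fun c' hc' => ?_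
    have h := C.d_deg c c' hc'
    rw [Finsupp.linearCombination_single, Finsupp.linearCombination_single, dif_pos (by omega)]

theorem solve (hT : Shift C.cdeg K.deg N T)
    (hT0 : ∀ c, C.cdeg c = N → T (Finsupp.single c 1) ∈ mm R I)
    (hTD : ∀ x, K.D (T x) + s • T (C.d x) = 0) :
    ∃ h : (L →₀ R) →ₗ[R] (I →₀ R),
      (∀ c γ, h (Finsupp.single c 1) γ ≠ 0 → K.deg γ + N = C.cdeg c + 1) ∧
      (∀ c, C.cdeg c < N → h (Finsupp.single c 1) = 0) ∧
      ∀ x, K.D (h x) = T x + s • h (C.d x) := by
  set H := solv K C N s T with hH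
  set h := Finsupp.linearCombination R H with hh
  have hc1 : ∀ c, h (Finsupp.single c 1) = H c := fun c => by
    rw [hh, Finsupp.linearCombination_single, one_smul]
  have hlt : ∀ c, C.cdeg c < N → H c = 0 := fun c hc => by
    rw [hH, solv_eq, if_pos hc]
  have hge : ∀ c, ¬ C.cdeg c < N → H c = sig K (C.cdeg c - N)
      (T (Finsupp.single c 1) + s • h (C.d (Finsupp.single c 1))) := fun c hc => by
    rw [hh, hH, solv_eq, if_neg hc]
  have hdeg : ∀ c γ, H c γ ≠ 0 → K.deg γ + N = C.cdeg c + 1 := by
    intro c γ hγ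
    by_cases hc : C.cdeg c < N
    · exact absurd (by rw [hlt c hc, Finsupp.zero_apply]) hγ
    · rw [hge c hc] at hγ
      have := sig_mem K _ _ γ hγ
      omega
  have main : ∀ k c, C.cdeg c = k →
      K.D (H c) = T (Finsupp.single c 1) + s • h (C.d (Finsupp.single c 1)) := by
    intro k
    induction k using Nat.strong_induction_on with
    | _ k IH =>
      intro c hc
      by_cases hck : C.cdeg c < N
      · have h1 : T (Finsupp.single c 1) = 0 := hT.map_lt (single_mem_hom c 1) hck
        have h2 : h (C.d (Finsupp.single c 1)) = 0 := by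
          rw [← Submodule.mem_bot R]
          refine map_mem h _ _ fun c' hc' => ?_
          have := C.d_deg c c' hc'
          rw [Submodule.mem_bot, hc1, hlt c' (by omega)]
        rw [hlt c hck, h1, h2, map_zero, smul_zero, add_zero]
      · rw [hge c hck]
        apply D_sig
        -- the derivative of `h (d X_c)`
        have hD : K.D (h (C.d (Finsupp.single c 1))) = T (C.d (Finsupp.single c 1)) := by
          have h3 : K.D (h (C.d (Finsupp.single c 1))) =
              T (C.d (Finsupp.single c 1)) + s • h (C.d (C.d (Finsupp.single c 1))) := by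
            have := map_congr_of (K.D ∘ₗ h) (T + s • (h ∘ₗ C.d)) (C.d (Finsupp.single c 1))
              (fun c' hc' => by
                have h4 := C.d_deg c c' hc'
                have h5 := IH (C.cdeg c') (by omega) c' rfl
                simp only [LinearMap.comp_apply, LinearMap.add_apply, LinearMap.smul_apply]
                rw [hc1, h5])
            simpa using this
          rw [h3, C.d_d, map_zero, smul_zero, add_zero]
        refine ⟨?_, ?_, ?_⟩
        · refine Submodule.add_mem _ ?_ (Submodule.smul_mem _ _ ?_)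
          · apply hT.map
            have : C.cdeg c - N + N = C.cdeg c := by omega
            rw [this]
            exact single_mem_hom c 1
          · refine map_mem h _ _ fun c' hc' γ hγ => ?_
            rw [hc1] at hγ
            have h1 := hdeg c' γ hγ
            have h2 := C.d_deg c c' hc'
            omega
        · rw [map_add, map_smul, hD]
          exact hTD _
        · intro h0
          have hcN : C.cdeg c = N := by omega
          refine Submodule.add_mem _ (hT0 c hcN) (Submodule.smul_mem _ _ ?_)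
          exact map_mem_mm h (d_mem_mm C _)
  refine ⟨h, ?_, ?_, ?_⟩
  · intro c γ hγ
    rw [hc1] at hγ
    exact hdeg c γ hγ
  · intro c hc
    rw [hc1]
    exact hlt c hc
  · intro x
    have := map_congr_of (K.D ∘ₗ h) (T + s • (h ∘ₗ C.d)) x (fun c _ => by
      simp only [LinearMap.comp_apply, LinearMap.add_apply, LinearMap.smul_apply]
      rw [hc1, main _ c rfl])
    simpa using this

end Sig

section LiftUniq

variable (K : TotRes R I) (C : FreeCx R L)

theorem lift (n : ℕ) {s : R} (hs : s * s = 1) (φ : L → R) :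
    ∃ f : (L →₀ R) →ₗ[R] (I →₀ R), Shift C.cdeg K.deg n f ∧
      (∀ c, C.cdeg c = n → f (Finsupp.single c 1) = φ c • Finsupp.single K.o 1) ∧
      ∀ x, f (C.d x) = s • K.D (f x) := by
  classical
  set f0 : (L →₀ R) →ₗ[R] (I →₀ R) := Finsupp.linearCombination R
    (fun c => if C.cdeg c = n then φ c • Finsupp.single K.o (1 : R) else 0) with hf0
  have f0s : ∀ c, f0 (Finsupp.single c 1) =
      if C.cdeg c = n then φ c • Finsupp.single K.o (1 : R) else 0 := fun c => by
    rw [hf0, Finsupp.linearCombination_single, one_smul]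
  have f0o : ∀ x γ, f0 x γ ≠ 0 → γ = K.o := by
    intro x
    have : f0 x ∈ hom R K.deg 0 := by
      refine map_mem f0 _ x fun c _ => ?_
      rw [f0s]
      split_ifs
      · refine Submodule.smul_mem _ _ ?_
        have := single_mem_hom (deg := K.deg) K.o (1 : R)
        rwa [K.deg_o] at this
      · exact Submodule.zero_mem _
    intro γ hγ
    exact K.eq_o γ (this γ hγ)
  have Df0 : ∀ x, K.D (f0 x) = 0 := by
    intro x
    have h1 := map_congr_of K.D 0 (f0 x) (fun γ hγ => by
      rw [f0o x γ hγ, D_o, LinearMap.zero_apply])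
    simpa using h1
  obtain ⟨h, h1, h2, h3⟩ := solve K C (n + 1) s (s • (f0 ∘ₗ C.d)) (by
      intro c γ hγ
      rw [LinearMap.smul_apply, LinearMap.comp_apply] at hγ
      have h4 : f0 (C.d (Finsupp.single c 1)) γ ≠ 0 := by
        intro h0
        rw [Finsupp.smul_apply, h0, smul_zero] at hγ
        exact hγ rfl
      rw [f0o _ γ h4, K.deg_o]
      by_contra hne
      apply h4
      have h5 : f0 (C.d (Finsupp.single c 1)) ∈ (⊥ : Submodule R (I →₀ R)) := by
        refine map_mem f0 _ _ fun c' hc' => ?_
        have h6 := C.d_deg c c' hc'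
        rw [f0s, if_neg (by omega)]
        exact Submodule.zero_mem _
      rw [Submodule.mem_bot] at h5
      rw [h5, Finsupp.zero_apply]) (by
      intro c _
      rw [LinearMap.smul_apply, LinearMap.comp_apply]
      exact Submodule.smul_mem _ _ (map_mem_mm f0 (d_mem_mm C _))) (by
      intro x
      simp only [LinearMap.smul_apply, LinearMap.comp_apply]
      rw [map_smul, Df0, C.d_d, map_zero, smul_zero, smul_zero, add_zero])
  refine ⟨f0 + h, ?_, ?_, ?_⟩
  · intro c γ hγ
    rw [LinearMap.add_apply, Finsupp.add_apply] at hγ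
    by_cases h4 : f0 (Finsupp.single c 1) γ = 0
    · rw [h4, zero_add] at hγ
      have := h1 c γ hγ
      omega
    · rw [f0o _ γ h4, K.deg_o]
      rw [f0s] at h4
      by_contra hne
      rw [if_neg (by omega), Finsupp.zero_apply] at h4
      exact h4 rfl
  · intro c hc
    rw [LinearMap.add_apply, f0s, if_pos hc, h2 c (by omega), add_zero]
  · intro x
    have h4 : K.D (h x) = s • f0 (C.d x) + s • h (C.d x) := h3 x
    rw [LinearMap.add_apply, LinearMap.add_apply, map_add, Df0, zero_add, h4, smul_add, smul_smul,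
      smul_smul, hs, one_smul, one_smul]

theorem uniq (n : ℕ) {s : R} (hs : s * s = 1) (f : (L →₀ R) →ₗ[R] (I →₀ R))
    (hf : Shift C.cdeg K.deg n f) (hfd : ∀ x, f (C.d x) = s • K.D (f x))
    (hf0 : ∀ c, C.cdeg c = n → f (Finsupp.single c 1) ∈ mm R I) (x : L →₀ R) : f x ∈ mm R I := by
  obtain ⟨h, -, -, h3⟩ := solve K C n (-s) f hf hf0 (by
    intro x
    rw [hfd, smul_smul, neg_mul, hs, neg_smul, one_smul, add_neg_cancel])
  have h4 : f x = K.D (h x) + s • h (C.d x) := by
    rw [h3 x, neg_smul]
    abel
  rw [h4]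
  refine Submodule.add_mem _ ?_ (Submodule.smul_mem _ _ ?_)
  · exact d_mem_mm (toCx K) _
  · exact map_mem_mm h (d_mem_mm C _)

end LiftUniq

section Product

variable (K : TotRes R I)

/-- The bilinear map `(x, y) ↦ x ⊠ y` with values in the free module on `I × I`. -/
noncomputable def box : (I →₀ R) →ₗ[R] (I →₀ R) →ₗ[R] (I × I →₀ R) :=
  (TensorProduct.mk R (I →₀ R) (I →₀ R)).compr₂ (finsuppTensorFinsupp' R I I).toLinearMap

theorem box_single (a b : I) (r t : R) :
    box (Finsupp.single a r) (Finsupp.single b t) = Finsupp.single (a, b) (r * t) := by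
  simp [box, LinearMap.compr₂_apply]

theorem box_apply (x y : I →₀ R) (p : I × I) : box x y p = x p.1 * y p.2 := by
  obtain ⟨a, b⟩ := p
  simp [box, LinearMap.compr₂_apply]

theorem box_ext {V : Type*} [AddCommGroup V] [Module R V]
    (f g : (I →₀ R) →ₗ[R] (I →₀ R) →ₗ[R] V)
    (h : ∀ a b, f (Finsupp.single a 1) (Finsupp.single b 1) =
      g (Finsupp.single a 1) (Finsupp.single b 1)) : f = g :=
  map_ext f g fun a => map_ext _ _ fun b => h a b

/-- The sign operator. -/
noncomputable def sg : (I →₀ R) →ₗ[R] (I →₀ R) :=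
  Finsupp.linearCombination R fun c => Finsupp.single c ((-1 : R) ^ K.deg c)

theorem sg_single (c : I) :
    sg K (Finsupp.single c 1) = (-1 : R) ^ K.deg c • Finsupp.single c 1 := by
  rw [sg, Finsupp.linearCombination_single, one_smul, Finsupp.smul_single, smul_eq_mul, mul_one]

theorem sg_hom {n : ℕ} {x : I →₀ R} (hx : x ∈ hom R K.deg n) : sg K x = (-1 : R) ^ n • x := by
  have := map_congr_of (sg K) ((-1 : R) ^ n • LinearMap.id) x (fun c hc => by
    rw [sg_single, hx c hc, LinearMap.smul_apply, LinearMap.id_apply])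
  simpa using this

theorem sg_sg (x : I →₀ R) : sg K (sg K x) = x := by
  have := map_ext (sg K ∘ₗ sg K) LinearMap.id (fun c => by
    rw [LinearMap.comp_apply, sg_single, map_smul, sg_single, smul_smul, ← mul_pow,
      neg_one_mul, neg_neg, one_pow, one_smul, LinearMap.id_apply])
  exact congrArg (fun f => f x) this

/-- A shift by `-n` commutes with the sign operator up to `(-1) ^ n`. -/
theorem shift_sg {n : ℕ} {f : (I →₀ R) →ₗ[R] (I →₀ R)} (hf : Shift K.deg K.deg n f)
    (x : I →₀ R) : f (sg K x) = (-1 : R) ^ n • sg K (f x) := by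
  have := map_ext (f ∘ₗ sg K) ((-1 : R) ^ n • (sg K ∘ₗ f)) (fun c => by
    rw [LinearMap.comp_apply, sg_single, map_smul, LinearMap.smul_apply, LinearMap.comp_apply]
    by_cases hc : K.deg c < n
    · rw [hf.map_lt (single_mem_hom c 1) hc, map_zero, smul_zero, smul_zero]
    · have h1 : f (Finsupp.single c 1) ∈ hom R K.deg (K.deg c - n) := by
        apply hf.map
        have : K.deg c - n + n = K.deg c := by omega
        rw [this]
        exact single_mem_hom c 1
      rw [sg_hom K h1, smul_smul, ← pow_add]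
      congr 2
      omega)
  exact congrArg (fun f => f x) this

theorem shift_D : Shift K.deg K.deg 1 K.D := K.D_deg

theorem D_sg (x : I →₀ R) : K.D (sg K x) = - sg K (K.D x) := by
  rw [shift_sg K (shift_D K), pow_one, neg_smul, one_smul]

/-- The differential of the box product. -/
noncomputable def boxD : (I × I →₀ R) →ₗ[R] (I × I →₀ R) :=
  Finsupp.linearCombination R fun p =>
    box (K.D (Finsupp.single p.1 1)) (Finsupp.single p.2 1) +
      box (sg K (Finsupp.single p.1 1)) (K.D (Finsupp.single p.2 1))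

theorem boxD_box (x y : I →₀ R) :
    boxD K (box x y) = box (K.D x) y + box (sg K x) (K.D y) := by
  have := box_ext (box.compr₂ (boxD K)) (box ∘ₗ K.D + (box ∘ₗ sg K).compl₂ K.D) (fun a b => by
    simp only [LinearMap.compr₂_apply, LinearMap.add_apply, LinearMap.comp_apply,
      LinearMap.compl₂_apply]
    rw [box_single, mul_one, boxD, Finsupp.linearCombination_single, one_smul])
  have h2 := congrArg (fun f => f x y) this
  simpa only [LinearMap.compr₂_apply, LinearMap.add_apply, LinearMap.comp_apply,
      LinearMap.compl₂_apply] using h2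

theorem boxD_boxD_box (x y : I →₀ R) : boxD K (boxD K (box x y)) = 0 := by
  rw [boxD_box, map_add, boxD_box, boxD_box, K.D_D, K.D_D, D_sg]
  simp

/-- The box product complex. -/
noncomputable def boxCx : FreeCx R (I × I) where
  cdeg p := K.deg p.1 + K.deg p.2
  d := boxD K
  d_deg := by
    rintro ⟨a, b⟩ ⟨a', b'⟩ h
    have h1 : (Finsupp.single (a, b) (1 : R)) = box (Finsupp.single a 1) (Finsupp.single b 1) := by
      rw [box_single, mul_one]
    rw [h1, boxD_box, Finsupp.add_apply, box_apply, box_apply] at h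
    dsimp only at h ⊢
    by_cases h2 : K.D (Finsupp.single a 1) a' * (Finsupp.single b (1 : R)) b' = 0
    · rw [h2, zero_add, sg_single, Finsupp.smul_apply] at h
      have h3 : K.D (Finsupp.single b 1) b' ≠ 0 := fun h0 => h (by rw [h0, mul_zero])
      have h4 : (Finsupp.single a (1 : R)) a' ≠ 0 := fun h0 => h (by
        rw [h0, smul_zero, zero_mul])
      have h5 := K.D_deg _ _ h3
      have h6 := single_mem_hom (deg := K.deg) a (1 : R) a' h4
      omega
    · have h3 : K.D (Finsupp.single a 1) a' ≠ 0 := fun h0 => h2 (by rw [h0, zero_mul])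
      have h4 : (Finsupp.single b (1 : R)) b' ≠ 0 := fun h0 => h2 (by rw [h0, mul_zero])
      have h5 := K.D_deg _ _ h3
      have h6 := single_mem_hom (deg := K.deg) b (1 : R) b' h4
      omega
  d_mem := by
    rintro ⟨a, b⟩ ⟨a', b'⟩
    have h1 : (Finsupp.single (a, b) (1 : R)) = box (Finsupp.single a 1) (Finsupp.single b 1) := by
      rw [box_single, mul_one]
    rw [h1, boxD_box, Finsupp.add_apply, box_apply, box_apply]
    exact Ideal.add_mem _ (Ideal.mul_mem_right _ _ (K.D_mem _ _))
      (Ideal.mul_mem_left _ _ (K.D_mem _ _))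
  d_d := by
    intro x
    have := map_ext (boxD K ∘ₗ boxD K) 0 (fun p => by
      have h1 : (Finsupp.single p (1 : R)) =
          box (Finsupp.single p.1 1) (Finsupp.single p.2 1) := by
        rw [box_single, mul_one]
      rw [h1, LinearMap.comp_apply, boxD_boxD_box, LinearMap.zero_apply])
    exact congrArg (fun f => f x) this

/-- The signed box product of two operators: `(f ⊠ g) (x ⊠ y) = f (sg^q x) ⊠ g y`. -/
noncomputable def boxMap (f g : (I →₀ R) →ₗ[R] (I →₀ R)) (q : ℕ) :
    (I × I →₀ R) →ₗ[R] (I × I →₀ R) :=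
  Finsupp.linearCombination R fun p =>
    (-1 : R) ^ (q * K.deg p.1) • box (f (Finsupp.single p.1 1)) (g (Finsupp.single p.2 1))

theorem boxMap_single (f g : (I →₀ R) →ₗ[R] (I →₀ R)) (q : ℕ) (a b : I) :
    boxMap K f g q (box (Finsupp.single a 1) (Finsupp.single b 1)) =
      (-1 : R) ^ (q * K.deg a) • box (f (Finsupp.single a 1)) (g (Finsupp.single b 1)) := by
  rw [box_single, mul_one, boxMap, Finsupp.linearCombination_single, one_smul]

theorem boxMap_hom (f g : (I →₀ R) →ₗ[R] (I →₀ R)) (q : ℕ) {k : ℕ} {x : I →₀ R}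
    (hx : x ∈ hom R K.deg k) (y : I →₀ R) :
    boxMap K f g q (box x y) = (-1 : R) ^ (q * k) • box (f x) (g y) := by
  have h1 : ∀ a, K.deg a = k → ∀ y, boxMap K f g q (box (Finsupp.single a 1) y) =
      (-1 : R) ^ (q * k) • box (f (Finsupp.single a 1)) (g y) := by
    intro a ha y
    have := map_ext (boxMap K f g q ∘ₗ box (Finsupp.single a 1))
      ((-1 : R) ^ (q * k) • (box (f (Finsupp.single a 1)) ∘ₗ g)) (fun b => by
        rw [LinearMap.comp_apply, boxMap_single, ha, LinearMap.smul_apply, LinearMap.comp_apply])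
    have h2 := congrArg (fun f => f y) this
    simpa using h2
  have h3 := map_congr_of (boxMap K f g q ∘ₗ box.flip y)
    ((-1 : R) ^ (q * k) • (box.flip (g y) ∘ₗ f)) x (fun a ha => by
      rw [LinearMap.comp_apply, LinearMap.flip_apply, h1 a (hx a ha), LinearMap.smul_apply,
        LinearMap.comp_apply, LinearMap.flip_apply])
  simpa using h3

theorem boxMap_boxD {f g : (I →₀ R) →ₗ[R] (I →₀ R)} {p q : ℕ}
    (hf : Shift K.deg K.deg p f)
    (hfD : ∀ x, f (K.D x) = (-1 : R) ^ p • K.D (f x))
    (hgD : ∀ x, g (K.D x) = (-1 : R) ^ q • K.D (g x)) (z : I × I →₀ R) :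
    boxMap K f g q (boxD K z) = (-1 : R) ^ (p + q) • boxD K (boxMap K f g q z) := by
  have := map_ext (boxMap K f g q ∘ₗ boxD K) ((-1 : R) ^ (p + q) • (boxD K ∘ₗ boxMap K f g q))
    (fun c => by
      obtain ⟨a, b⟩ := c
      have h1 : (Finsupp.single (a, b) (1 : R)) =
          box (Finsupp.single a 1) (Finsupp.single b 1) := by
        rw [box_single, mul_one]
      rw [h1, LinearMap.comp_apply, LinearMap.smul_apply, LinearMap.comp_apply, boxD_box,
        boxMap_single, map_smul, boxD_box, map_add, sg_single, map_smul, LinearMap.smul_apply,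
        map_smul, boxMap_hom K f g q (single_mem_hom a 1) (K.D (Finsupp.single b 1)), hgD]
      have h2 : boxMap K f g q (box (K.D (Finsupp.single a 1)) (Finsupp.single b 1)) =
          ((-1 : R) ^ (p + q) * (-1 : R) ^ (q * K.deg a)) •
            box (K.D (f (Finsupp.single a 1))) (g (Finsupp.single b 1)) := by
        rcases Nat.eq_zero_or_pos (K.deg a) with ha | ha
        · have h3 : K.D (Finsupp.single a 1) = 0 := (shift_D K).map_lt (single_mem_hom a 1)
            (by omega)
          have h4 : K.D (f (Finsupp.single a 1)) = 0 := by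
            have := hfD (Finsupp.single a 1)
            rw [h3, map_zero] at this
            have h5 : ((-1 : R) ^ p * (-1 : R) ^ p) • K.D (f (Finsupp.single a 1)) = 0 := by
              rw [← smul_smul, ← this, smul_zero]
            rwa [← mul_pow, neg_one_mul, neg_neg, one_pow, one_smul] at h5
          rw [h3, h4]
          simp
        · have h3 : K.D (Finsupp.single a 1) ∈ hom R K.deg (K.deg a - 1) := by
            apply (shift_D K).map
            have : K.deg a - 1 + 1 = K.deg a := by omega
            rw [this]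
            exact single_mem_hom a 1
          rw [boxMap_hom K f g q h3, hfD, map_smul, LinearMap.smul_apply, smul_smul]
          congr 1
          obtain ⟨m, hm⟩ : ∃ m, K.deg a = m + 1 := ⟨K.deg a - 1, by omega⟩
          rw [hm, Nat.add_sub_cancel, mul_add, mul_one, pow_add, pow_add]
          have h6 : (-1 : R) ^ q * (-1 : R) ^ q = 1 := by
            rw [← mul_pow, neg_one_mul, neg_neg, one_pow]
          calc (-1 : R) ^ (q * m) * (-1 : R) ^ p
              = (-1 : R) ^ p * (-1 : R) ^ (q * m) * ((-1 : R) ^ q * (-1 : R) ^ q) := by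
                rw [h6]; ring
            _ = _ := by ring
      have h7 : sg K (f (Finsupp.single a 1)) =
          ((-1 : R) ^ p * (-1 : R) ^ K.deg a) • f (Finsupp.single a 1) := by
        have h8 := shift_sg K hf (Finsupp.single a 1)
        rw [sg_single, map_smul] at h8
        have h9 : (-1 : R) ^ p * (-1 : R) ^ p = 1 := by
          rw [← mul_pow, neg_one_mul, neg_neg, one_pow]
        rw [mul_smul, h8, smul_smul, h9, one_smul]
      rw [h2, h7]
      simp only [map_smul, LinearMap.smul_apply, smul_add, smul_smul]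
      congr 2
      have h9 : (-1 : R) ^ p * (-1 : R) ^ p = 1 := by
        rw [← mul_pow, neg_one_mul, neg_neg, one_pow]
      rw [pow_add]
      calc (-1 : R) ^ K.deg a * ((-1 : R) ^ (q * K.deg a) * (-1 : R) ^ q)
          = ((-1 : R) ^ p * (-1 : R) ^ p) * ((-1 : R) ^ K.deg a * (-1 : R) ^ (q * K.deg a) *
              (-1 : R) ^ q) := by rw [h9]; ring
        _ = _ := by ring)
  exact congrArg (fun f => f z) this

end Product

section Ops

variable (K : TotRes R I)

theorem exists_E (β : I) : ∃ E : (I →₀ R) →ₗ[R] (I →₀ R),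
    Shift K.deg K.deg (K.deg β) E ∧
    E (Finsupp.single β 1) = Finsupp.single K.o 1 ∧
    (∀ γ, K.deg γ = K.deg β → γ ≠ β → E (Finsupp.single γ 1) = 0) ∧
    (β = K.o → E = LinearMap.id) ∧
    ∀ x, E (K.D x) = (-1 : R) ^ K.deg β • K.D (E x) := by
  classical
  by_cases hβ : β = K.o
  · subst hβ
    refine ⟨LinearMap.id, ?_, rfl, ?_, fun _ => rfl, ?_⟩
    · intro c γ hγ
      rw [K.deg_o, add_zero]
      exact single_mem_hom c 1 γ hγ
    · intro γ hγ hne
      exact absurd (K.eq_o γ (by rw [hγ, K.deg_o])) hne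
    · intro x
      rw [K.deg_o, pow_zero, one_smul, LinearMap.id_apply, LinearMap.id_apply]
  · obtain ⟨f, h1, h2, h3⟩ := lift K (toCx K) (K.deg β) (s := (-1 : R) ^ K.deg β) (by
      rw [← mul_pow, neg_one_mul, neg_neg, one_pow]) (fun c => if c = β then 1 else 0)
    refine ⟨f, h1, ?_, ?_, fun h => absurd h hβ, h3⟩
    · rw [h2 β rfl, if_pos rfl, one_smul]
    · intro γ hγ hne
      rw [h2 γ hγ, if_neg hne, zero_smul]

end Ops

end LiftAux

open LiftAux in
theorem TotRes.exists_ops {R : Type u} [CommRing R] [IsLocalRing R] {I : Type} (K : TotRes R I) :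
    ∃ (μ : (I →₀ R) →ₗ[R] (I →₀ R) →ₗ[R] (I →₀ R)) (E : I → (I →₀ R) →ₗ[R] (I →₀ R)),
    (∀ α β γ, μ (Finsupp.single α 1) (Finsupp.single β 1) γ ≠ 0 → K.deg γ = K.deg α + K.deg β) ∧
    (∀ β γ, μ (Finsupp.single K.o 1) (Finsupp.single β 1) γ - Finsupp.single β (1 : R) γ ∈
      maximalIdeal R) ∧
    (∀ β γ, μ (Finsupp.single β 1) (Finsupp.single K.o 1) γ - Finsupp.single β (1 : R) γ ∈
      maximalIdeal R) ∧
    (∀ β y, K.D (μ (Finsupp.single β 1) y) = μ (K.D (Finsupp.single β 1)) y +
      (-1 : R) ^ K.deg β • μ (Finsupp.single β 1) (K.D y)) ∧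
    (∀ α β γ, E α (Finsupp.single β 1) γ ≠ 0 → K.deg γ + K.deg α = K.deg β) ∧
    (∀ β, E β (Finsupp.single β 1) = Finsupp.single K.o 1) ∧
    (∀ β γ, K.deg γ = K.deg β → γ ≠ β → E β (Finsupp.single γ 1) = 0) ∧
    (∀ x, E K.o x = x) ∧
    (∀ β x, E β (K.D x) = (-1 : R) ^ K.deg β • K.D (E β x)) ∧
    (∀ (n : ℕ) (S : Finset (I × I)), (∀ p : I × I, p ∈ S ↔ K.deg p.1 + K.deg p.2 = n) →
      ∀ α, K.deg α = n → ∀ ρ σ ν,
      (E α (μ (Finsupp.single ρ 1) (Finsupp.single σ 1)) - ∑ p ∈ S,
        ((-1 : R) ^ (K.deg p.1 * K.deg p.2 + K.deg p.2 * K.deg ρ) *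
          μ (Finsupp.single p.1 1) (Finsupp.single p.2 1) α) •
        μ (E p.1 (Finsupp.single ρ 1)) (E p.2 (Finsupp.single σ 1))) ν ∈ maximalIdeal R) := by
  classical
  obtain ⟨f, f1, f2, f3⟩ := lift K (boxCx K) 0 (s := (1 : R)) (by rw [one_mul]) (fun _ => 1)
  have hf3 : ∀ x, f (boxD K x) = K.D (f x) := fun x => by
    have := f3 x
    rwa [one_smul] at this
  have hE := fun β => exists_E K β
  choose E E1 E2 E3 E4 E5 using hE
  have hsg : ∀ n : ℕ, (-1 : R) ^ n * (-1 : R) ^ n = 1 := fun n => by
    rw [← mul_pow, neg_one_mul, neg_neg, one_pow]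
  let μ : (I →₀ R) →ₗ[R] (I →₀ R) →ₗ[R] (I →₀ R) := box.compr₂ f
  have hμ : ∀ x y, μ x y = f (box x y) := fun x y => rfl
  have hbs : ∀ a b : I, (box (Finsupp.single a (1 : R)) (Finsupp.single b 1)) =
      Finsupp.single (a, b) 1 := fun a b => by rw [box_single, mul_one]
  have hμdeg : ∀ a b, μ (Finsupp.single a 1) (Finsupp.single b 1) ∈
      hom R K.deg (K.deg a + K.deg b) := by
    intro a b γ hγ
    rw [hμ, hbs] at hγ
    have := f1 (a, b) γ hγ
    rw [add_zero] at this
    exact this
  have hμoo : μ (Finsupp.single K.o 1) (Finsupp.single K.o 1) = Finsupp.single K.o 1 := by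
    rw [hμ, hbs, f2 (K.o, K.o) (by change K.deg K.o + K.deg K.o = 0; rw [K.deg_o]), one_smul]
  have hleib : ∀ x y, K.D (μ x y) = μ (K.D x) y + μ (sg K x) (K.D y) := by
    intro x y
    rw [hμ, ← hf3, boxD_box, map_add]
    rfl
  have hsgo : sg K (Finsupp.single K.o 1) = Finsupp.single K.o 1 := by
    rw [sg_single, K.deg_o, pow_zero, one_smul]
  refine ⟨μ, E, ?_, ?_, ?_, ?_, E1, E2, E3, ?_, E5, ?_⟩
  · intro α β γ hγ
    exact hμdeg α β γ hγ
  · intro β γ
    have := uniq K (toCx K) 0 (s := (1 : R)) (by rw [one_mul])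
      (μ (Finsupp.single K.o 1) - LinearMap.id) (by
        intro c γ hγ
        have h1 : (μ (Finsupp.single K.o 1) - LinearMap.id : (I →₀ R) →ₗ[R] (I →₀ R))
            (Finsupp.single c (1 : R)) ∈
            hom R K.deg (K.deg c) := by
          rw [LinearMap.sub_apply, LinearMap.id_apply]
          refine Submodule.sub_mem _ ?_ (single_mem_hom c 1)
          have := hμdeg K.o c
          rwa [K.deg_o, zero_add] at this
        exact h1 γ hγ) (by
        intro x
        change (μ (Finsupp.single K.o 1) - LinearMap.id : (I →₀ R) →ₗ[R] (I →₀ R)) (K.D x) = _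
        rw [one_smul, LinearMap.sub_apply, LinearMap.sub_apply, map_sub, hleib, D_o, hsgo]
        simp) (by
        intro c hc
        have hc' : c = K.o := K.eq_o c hc
        rw [hc', LinearMap.sub_apply, LinearMap.id_apply, hμoo, sub_self]
        exact Submodule.zero_mem _) (Finsupp.single β 1) γ
    simpa using this
  · intro β γ
    have := uniq K (toCx K) 0 (s := (1 : R)) (by rw [one_mul])
      (μ.flip (Finsupp.single K.o 1) - LinearMap.id) (by
        intro c γ hγ
        have h1 : (μ.flip (Finsupp.single K.o 1) - LinearMap.id : (I →₀ R) →ₗ[R] (I →₀ R))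
            (Finsupp.single c (1 : R)) ∈
            hom R K.deg (K.deg c) := by
          rw [LinearMap.sub_apply, LinearMap.id_apply, LinearMap.flip_apply]
          refine Submodule.sub_mem _ ?_ (single_mem_hom c 1)
          have := hμdeg c K.o
          rwa [K.deg_o, add_zero] at this
        exact h1 γ hγ) (by
        intro x
        change (μ.flip (Finsupp.single K.o 1) - LinearMap.id : (I →₀ R) →ₗ[R] (I →₀ R))
          (K.D x) = _
        rw [one_smul, LinearMap.sub_apply, LinearMap.sub_apply, map_sub, LinearMap.flip_apply,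
          LinearMap.flip_apply, hleib, D_o]
        simp) (by
        intro c hc
        have hc' : c = K.o := K.eq_o c hc
        rw [hc', LinearMap.sub_apply, LinearMap.id_apply, LinearMap.flip_apply, hμoo, sub_self]
        exact Submodule.zero_mem _) (Finsupp.single β 1) γ
    simpa using this
  · intro β y
    rw [hleib, sg_single, map_smul, LinearMap.smul_apply]
  · intro x
    rw [E4 K.o rfl, LinearMap.id_apply]
  · intro n S hS α hα ρ σ ν
    set G : I × I → (I × I →₀ R) →ₗ[R] (I × I →₀ R) := fun p =>
      boxMap K (E p.1) (E p.2) (K.deg p.2) with hG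
    set cf : I × I → R := fun p => (-1 : R) ^ (K.deg p.1 * K.deg p.2) *
      μ (Finsupp.single p.1 1) (Finsupp.single p.2 1) α with hcf
    set F : (I × I →₀ R) →ₗ[R] (I →₀ R) := E α ∘ₗ f - ∑ p ∈ S, cf p • (f ∘ₗ G p) with hF
    have hFs : ∀ r t, F (Finsupp.single (r, t) 1) =
        E α (μ (Finsupp.single r 1) (Finsupp.single t 1)) - ∑ p ∈ S,
        ((-1 : R) ^ (K.deg p.1 * K.deg p.2 + K.deg p.2 * K.deg r) *
          μ (Finsupp.single p.1 1) (Finsupp.single p.2 1) α) •
        μ (E p.1 (Finsupp.single r 1)) (E p.2 (Finsupp.single t 1)) := by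
      intro r t
      rw [hF, LinearMap.sub_apply, LinearMap.comp_apply, LinearMap.sum_apply, ← hbs, ← hμ]
      congr 1
      refine Finset.sum_congr rfl fun p _ => ?_
      rw [LinearMap.smul_apply, LinearMap.comp_apply, hG]
      dsimp only
      rw [boxMap_single, map_smul, smul_smul, ← hμ, hcf]
      congr 1
      dsimp only
      rw [pow_add]
      ring
    have key := uniq K (boxCx K) n (s := (-1 : R) ^ n) (hsg n) F ?_ ?_ ?_
      (Finsupp.single (ρ, σ) 1)
    · rw [hFs] at key
      exact key ν
    · -- degrees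
      rintro ⟨r, t⟩ γ hγ
      change K.deg γ + n = K.deg r + K.deg t
      by_cases hrt : K.deg r + K.deg t < n
      · exfalso
        apply hγ
        have h1 : F (Finsupp.single (r, t) 1) = 0 := by
          rw [hFs, (E1 α).map_lt (hμdeg r t) (by omega), zero_sub, neg_eq_zero]
          refine Finset.sum_eq_zero fun p hp => ?_
          have hp' := (hS p).1 hp
          by_cases h2 : K.deg r < K.deg p.1
          · rw [(E1 p.1).map_lt (single_mem_hom r 1) h2, map_zero, LinearMap.zero_apply, smul_zero]
          · rw [(E1 p.2).map_lt (single_mem_hom t 1) (by omega), map_zero, smul_zero]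
        rw [h1, Finsupp.zero_apply]
      · have h1 : F (Finsupp.single (r, t) 1) ∈ hom R K.deg (K.deg r + K.deg t - n) := by
          rw [hFs]
          refine Submodule.sub_mem _ ?_ (Submodule.sum_mem _ fun p hp =>
            Submodule.smul_mem _ _ ?_)
          · apply (E1 α).map
            have : K.deg r + K.deg t - n + K.deg α = K.deg r + K.deg t := by omega
            rw [this]
            exact hμdeg r t
          · have hp' := (hS p).1 hp
            by_cases h2 : K.deg r < K.deg p.1
            · rw [(E1 p.1).map_lt (single_mem_hom r 1) h2, map_zero, LinearMap.zero_apply]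
              exact Submodule.zero_mem _
            by_cases h3 : K.deg t < K.deg p.2
            · rw [(E1 p.2).map_lt (single_mem_hom t 1) h3, map_zero]
              exact Submodule.zero_mem _
            have h4 : E p.1 (Finsupp.single r 1) ∈ hom R K.deg (K.deg r - K.deg p.1) := by
              apply (E1 p.1).map
              have : K.deg r - K.deg p.1 + K.deg p.1 = K.deg r := by omega
              rw [this]
              exact single_mem_hom r 1
            have h5 : E p.2 (Finsupp.single t 1) ∈ hom R K.deg (K.deg t - K.deg p.2) := by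
              apply (E1 p.2).map
              have : K.deg t - K.deg p.2 + K.deg p.2 = K.deg t := by omega
              rw [this]
              exact single_mem_hom t 1
            rw [hμ]
            refine map_mem f _ _ fun q hq γ hγ => ?_
            obtain ⟨q1, q2⟩ := q
            rw [box_apply] at hq
            have h6 := h4 q1 (fun h0 => hq (by dsimp only; rw [h0, zero_mul]))
            have h7 := h5 q2 (fun h0 => hq (by dsimp only; rw [h0, mul_zero]))
            have h8 := f1 (q1, q2) γ hγ
            change K.deg γ + 0 = K.deg q1 + K.deg q2 at h8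
            omega
        have := h1 γ hγ
        omega
    · -- chain map
      intro x
      change F (boxD K x) = _
      rw [hF]
      simp only [LinearMap.sub_apply, LinearMap.comp_apply, LinearMap.sum_apply,
        LinearMap.smul_apply, map_sub, map_sum, map_smul, smul_sub, Finset.smul_sum]
      rw [hf3, E5, hα]
      congr 1
      refine Finset.sum_congr rfl fun p hp => ?_
      have hp' := (hS p).1 hp
      rw [hG]
      dsimp only
      rw [boxMap_boxD K (E1 p.1) (E5 p.1) (E5 p.2), map_smul, hf3, hp', smul_comm]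
    · -- degree `n`
      rintro ⟨r, t⟩ hrt
      change K.deg r + K.deg t = n at hrt
      have h1 : F (Finsupp.single (r, t) 1) = 0 := by
        rw [hFs, sub_eq_zero]
        have h2 : E α (μ (Finsupp.single r 1) (Finsupp.single t 1)) =
            μ (Finsupp.single r 1) (Finsupp.single t 1) α • Finsupp.single K.o 1 := by
          have h3 := map_congr_of (E α)
            ((LinearMap.toSpanSingleton R (I →₀ R) (Finsupp.single K.o 1)) ∘ₗ Finsupp.lapply α)
            (μ (Finsupp.single r 1) (Finsupp.single t 1)) (fun c hc => by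
              have h4 := hμdeg r t c hc
              rw [LinearMap.comp_apply, Finsupp.lapply_apply, LinearMap.toSpanSingleton_apply]
              by_cases hcα : c = α
              · rw [hcα, E2, Finsupp.single_eq_same, one_smul]
              · rw [E3 α c (by omega) hcα, Finsupp.single_eq_of_ne (Ne.symm hcα), zero_smul])
          rw [h3, LinearMap.comp_apply, Finsupp.lapply_apply, LinearMap.toSpanSingleton_apply]
        rw [h2, Finset.sum_eq_single (r, t)]
        · dsimp only
          rw [E2, E2, hμoo, ← Nat.mul_comm (K.deg r) (K.deg t), pow_add, hsg, one_mul]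
        · intro p hp hne
          have hp' := (hS p).1 hp
          by_cases h4 : K.deg r < K.deg p.1
          · rw [(E1 p.1).map_lt (single_mem_hom r 1) h4, map_zero, LinearMap.zero_apply, smul_zero]
          by_cases h5 : K.deg t < K.deg p.2
          · rw [(E1 p.2).map_lt (single_mem_hom t 1) h5, map_zero, smul_zero]
          by_cases h6 : r = p.1
          · have h7 : t ≠ p.2 := fun h7 => hne (by rw [h6, h7])
            rw [E3 p.2 t (by omega) h7, map_zero, smul_zero]
          · rw [E3 p.1 r (by omega) h6, map_zero, LinearMap.zero_apply, smul_zero]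
        · intro h
          exact absurd ((hS (r, t)).2 hrt) h
      rw [h1]
      exact Submodule.zero_mem _

end Pool.Agent.Lib.MP_d42622_al
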