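import Pool.Agent.Lib.MP_d42622_al.GrMap
import Pool.Agent.Lib.MP_d42622_al.Lift

/-!
The product and the contraction operators on the associated graded module of the total complex.
-/

namespace Pool.Agent.Lib.MP_d42622_al

open IsLocalRing

universe u

namespace GrData

variable {R : Type u} [CommRing R] [IsLocalRing R] (G : GrData R)

theorem iniE_congr {A : Type*} {w : ℕ} {x y : A →₀ R} (hy : ∀ a, y a ∈ maximalIdeal R ^ w)
    (h : ∀ a, x a - y a ∈ maximalIdeal R ^ (w + 1)) : G.iniE w x = G.iniE w y := by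
  ext a
  rw [iniE_apply, iniE_apply]
  have h1 : x a = (x a - y a) + y a := by ring
  have h2 : x a - y a ∈ maximalIdeal R ^ w := Ideal.pow_le_pow_right (Nat.le_succ w) (h a)
  rw [h1, G.ini_add w _ _ h2 (hy a), (G.ini_eq_zero_iff w _ h2).2 (h a), zero_add]

theorem iniE_single {A : Type*} (a : A) :
    G.iniE 0 (Finsupp.single a 1) = Finsupp.single a 1 := by
  unfold iniE
  rw [Finsupp.mapRange_single, ini_one]

theorem iniE_sum {A ι : Type*} (w : ℕ) (s : Finset ι) (f : ι → (A →₀ R))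
    (h : ∀ i ∈ s, ∀ a, f i a ∈ maximalIdeal R ^ w) :
    G.iniE w (∑ i ∈ s, f i) = ∑ i ∈ s, G.iniE w (f i) := by
  ext a
  rw [iniE_apply, Finsupp.finsetSum_apply, Finsupp.finsetSum_apply, G.ini_sum w s]
  · simp only [iniE_apply]
  · exact fun i hi => h i hi a

theorem mem_pow_zero (x : R) : x ∈ maximalIdeal R ^ 0 := by simp

theorem iniE_smul_zero {A : Type*} (w : ℕ) (r : R) (x : A →₀ R)
    (hx : ∀ a, x a ∈ maximalIdeal R ^ w) :
    G.iniE w (r • x) = G.ini 0 r • G.iniE w x := by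
  have := G.iniE_smul w 0 r x (mem_pow_zero r) hx
  rwa [zero_add] at this

theorem grMap_zero_iniE {A B : Type*} (w : ℕ) (f : (A →₀ R) →ₗ[R] (B →₀ R)) (x : A →₀ R)
    (hx : ∀ a, x a ∈ maximalIdeal R ^ w) : G.grMap 0 f (G.iniE w x) = G.iniE w (f x) := by
  have := G.grMap_iniE 0 w f (fun a b => mem_pow_zero _) x hx
  rwa [zero_add] at this

theorem map_mem {A B : Type*} {w : ℕ} (f : (A →₀ R) →ₗ[R] (B →₀ R)) {x : A →₀ R}
    (hx : ∀ a, x a ∈ maximalIdeal R ^ w) (b : B) : f x b ∈ maximalIdeal R ^ w := by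
  have := Ent.mem (f := f) (v := 0) (fun a b => mem_pow_zero _) hx b
  rwa [zero_add] at this

/-- The product on the associated graded module. -/
noncomputable def mulG {I : Type*} (μ : (I →₀ R) →ₗ[R] (I →₀ R) →ₗ[R] (I →₀ R)) :
    (I →₀ G.𝔾) →ₗ[G.𝔾] (I →₀ G.𝔾) →ₗ[G.𝔾] (I →₀ G.𝔾) :=
  Finsupp.linearCombination G.𝔾 fun β => G.grMap 0 (μ (Finsupp.single β 1))

theorem mulG_single {I : Type*} (μ : (I →₀ R) →ₗ[R] (I →₀ R) →ₗ[R] (I →₀ R)) (β : I)
    (y : I →₀ G.𝔾) :
    G.mulG μ (Finsupp.single β 1) y = G.grMap 0 (μ (Finsupp.single β 1)) y := by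
  unfold mulG
  rw [Finsupp.linearCombination_single, one_smul]

theorem mulG_iniE {I : Type*} (μ : (I →₀ R) →ₗ[R] (I →₀ R) →ₗ[R] (I →₀ R)) {w v : ℕ}
    {x y : I →₀ R} (hx : ∀ a, x a ∈ maximalIdeal R ^ w) (hy : ∀ a, y a ∈ maximalIdeal R ^ v) :
    G.mulG μ (G.iniE w x) (G.iniE v y) = G.iniE (w + v) (μ x y) := by
  have h1 : μ x y = ∑ β ∈ x.support, x β • μ (Finsupp.single β 1) y := by
    conv_lhs => rw [← Finsupp.sum_single x]
    rw [Finsupp.sum, map_sum, LinearMap.sum_apply]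
    refine Finset.sum_congr rfl fun a _ => ?_
    rw [← LinearMap.smul_apply, ← map_smul, Finsupp.smul_single, smul_eq_mul, mul_one]
  have h2 : G.mulG μ (G.iniE w x) = ∑ β ∈ x.support, G.ini w (x β) •
      G.grMap 0 (μ (Finsupp.single β 1)) := by
    unfold mulG iniE
    rw [Finsupp.linearCombination_apply, Finsupp.sum_mapRange_index]
    · rfl
    · intro a; rw [zero_smul]
  rw [h1, h2, LinearMap.sum_apply, iniE_sum]
  · refine Finset.sum_congr rfl fun β _ => ?_
    rw [LinearMap.smul_apply, G.grMap_zero_iniE v _ y hy, G.iniE_smul v w (x β) _ (hx β)]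
    exact fun b => map_mem _ hy b
  · intro β _ a
    rw [Finsupp.smul_apply, smul_eq_mul, pow_add]
    exact Ideal.mul_mem_mul (hx β) (map_mem _ hy a)

end GrData

/-- The operations on the associated graded module needed in the core argument. -/
structure GrOps {R : Type u} [CommRing R] [IsLocalRing R] (G : GrData R) {I : Type}
    (K : TotRes R I) where
  mul : (I →₀ G.𝔾) →ₗ[G.𝔾] (I →₀ G.𝔾) →ₗ[G.𝔾] (I →₀ G.𝔾)
  E : I → (I →₀ G.𝔾) →ₗ[G.𝔾] (I →₀ G.𝔾)
  mul_supp : ∀ α β γ a, G.g.repr (mul (Finsupp.single α 1) (Finsupp.single β 1) γ) a ≠ 0 →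
    K.deg γ = K.deg α + K.deg β ∧ G.wt a = 0
  one_mul' : ∀ x, mul (Finsupp.single K.o 1) x = x
  mul_one' : ∀ x, mul x (Finsupp.single K.o 1) = x
  leibniz : ∀ β y, G.grMap 1 K.D (mul (Finsupp.single β 1) y) =
    mul (G.grMap 1 K.D (Finsupp.single β 1)) y +
      (-1 : G.𝔾) ^ (K.deg β) • mul (Finsupp.single β 1) (G.grMap 1 K.D y)
  E_supp : ∀ α β γ a, G.g.repr (E α (Finsupp.single β 1) γ) a ≠ 0 →
    K.deg γ + K.deg α = K.deg β ∧ G.wt a = 0
  E_self : ∀ β, E β (Finsupp.single β 1) = Finsupp.single K.o 1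
  E_ne : ∀ β γ, K.deg γ = K.deg β → γ ≠ β → E β (Finsupp.single γ 1) = 0
  E_del : ∀ β x, E β (G.grMap 1 K.D x) = (-1 : G.𝔾) ^ (K.deg β) • G.grMap 1 K.D (E β x)
  E_der : ∀ α x N, 0 < K.deg α → (∀ γ, K.deg γ ≠ N → x γ = 0) →
    (∀ γ, 0 < K.deg γ → K.deg γ < K.deg α → E γ x = 0) →
    ∀ y, E α (mul x y) = mul (E α x) y + (-1 : G.𝔾) ^ (K.deg α * N) • mul x (E α y)

namespace GrData

variable {R : Type u} [CommRing R] [IsLocalRing R] (G : GrData R)

theorem ini_mem_supp {w : ℕ} {x : R} (hx : x ∈ maximalIdeal R ^ w) {a : G.Λ}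
    (h : G.g.repr (G.ini w x) a ≠ 0) : x ≠ 0 ∧ G.wt a = w := by
  refine ⟨?_, G.ini_supp w x hx a h⟩
  rintro rfl
  apply h
  rw [G.ini_apply_zero, map_zero, Finsupp.zero_apply]

theorem lin_ext {I : Type*} {N : Type*} [AddCommGroup N] [Module G.𝔾 N]
    {f f' : (I →₀ G.𝔾) →ₗ[G.𝔾] N}
    (h : ∀ β, f (Finsupp.single β 1) = f' (Finsupp.single β 1)) : f = f' :=
  Finsupp.basisSingleOne.ext fun β => by simpa using h β

theorem nonempty_grOps {I : Type} (K : TotRes R I) : Nonempty (GrOps G K) := by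
  classical
  obtain ⟨μ, E, hμd, hμl, hμr, hμD, hEd, hEs, hEn, hEo, hED, hEμ⟩ := K.exists_ops
  have m0 : ∀ {A : Type} (x : A →₀ R) (a : A), x a ∈ maximalIdeal R ^ 0 := fun x a => mem_pow_zero _
  have hD1 : Ent (R := R) 1 K.D := fun a b => by rw [pow_one]; exact K.D_mem a b
  have hDm : ∀ {w : ℕ} {x : I →₀ R}, (∀ a, x a ∈ maximalIdeal R ^ w) →
      ∀ a, K.D x a ∈ maximalIdeal R ^ (1 + w) := fun hx a => Ent.mem hD1 hx a
  have hDm0 : ∀ (x : I →₀ R), ∀ a, K.D x a ∈ maximalIdeal R ^ 1 := fun x a => by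
    have := hDm (m0 x) a
    rwa [add_zero] at this
  have hD : ∀ (w : ℕ) (x : I →₀ R), (∀ a, x a ∈ maximalIdeal R ^ w) →
      G.grMap 1 K.D (G.iniE w x) = G.iniE (1 + w) (K.D x) := fun w x hx =>
    G.grMap_iniE 1 w K.D hD1 x hx
  have X0 : ∀ β : I, (Finsupp.single β 1 : I →₀ G.𝔾) = G.iniE 0 (Finsupp.single β (1 : R)) :=
    fun β => (G.iniE_single β).symm
  have hpow : ∀ (w n : ℕ) (x : I →₀ R), (∀ a, x a ∈ maximalIdeal R ^ w) →
      (-1 : G.𝔾) ^ n • G.iniE w x = G.iniE w ((-1 : R) ^ n • x) := fun w n x hx => by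
    rw [G.iniE_smul_zero w _ x hx, G.ini_neg_one_pow]
  -- the coproduct formula on basis elements
  have hmulX : ∀ (x y : I →₀ R), G.mulG μ (G.iniE 0 x) (G.iniE 0 y) = G.iniE 0 (μ x y) :=
    fun x y => G.mulG_iniE μ (m0 x) (m0 y)
  have hEX : ∀ (α : I) (x : I →₀ R), G.grMap 0 (E α) (G.iniE 0 x) = G.iniE 0 (E α x) :=
    fun α x => G.grMap_zero_iniE 0 (E α) x (m0 x)
  have hEoG : ∀ x, G.grMap 0 (E K.o) x = x := by
    have : G.grMap 0 (E K.o) = LinearMap.id := by
      apply G.lin_ext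
      intro β
      rw [X0, hEX, hEo, LinearMap.id_apply]
    intro x
    rw [this, LinearMap.id_apply]
  have coefL : ∀ α δ, G.ini 0 (μ (Finsupp.single K.o 1) (Finsupp.single δ 1) α) =
      if δ = α then 1 else 0 := by
    intro α δ
    have h1 := congrFun (congrArg DFunLike.coe (G.iniE_congr
      (x := μ (Finsupp.single K.o 1) (Finsupp.single δ 1))
      (y := Finsupp.single δ (1 : R)) (w := 0) (m0 _)
      (fun a => by rw [zero_add, pow_one]; exact hμl δ a))) α
    rw [iniE_apply, iniE_single, Finsupp.single_apply] at h1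
    exact h1
  have coefR : ∀ α δ, G.ini 0 (μ (Finsupp.single δ 1) (Finsupp.single K.o 1) α) =
      if δ = α then 1 else 0 := by
    intro α δ
    have h1 := congrFun (congrArg DFunLike.coe (G.iniE_congr
      (x := μ (Finsupp.single δ 1) (Finsupp.single K.o 1))
      (y := Finsupp.single δ (1 : R)) (w := 0) (m0 _)
      (fun a => by rw [zero_add, pow_one]; exact hμr δ a))) α
    rw [iniE_apply, iniE_single, Finsupp.single_apply] at h1
    exact h1
  have hfin : ∀ n : ℕ, ∃ S : Finset (I × I), ∀ p : I × I, p ∈ S ↔ K.deg p.1 + K.deg p.2 = n := by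
    intro n
    have hle : {β | K.deg β ≤ n}.Finite := by
      have : {a | K.deg a ≤ n} = ⋃ w ∈ Set.Iic n, {a | K.deg a = w} := by
        ext a; simp
      rw [this]
      exact Set.Finite.biUnion (Set.finite_Iic n) fun w _ => K.finite_deg w
    have hf : {p : I × I | K.deg p.1 + K.deg p.2 = n}.Finite := by
      refine Set.Finite.subset (hle.prod hle) ?_
      rintro ⟨a, b⟩ h
      simp only [Set.mem_ofPred_eq, Set.mem_prod] at h ⊢
      omega
    exact ⟨hf.toFinset, fun p => by simp⟩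
  choose S hS using hfin
  have copX : ∀ α ρ, (G.grMap 0 (E α)) ∘ₗ (G.mulG μ (Finsupp.single ρ 1)) =
      ∑ p ∈ S (K.deg α), ((-1 : G.𝔾) ^ (K.deg p.1 * K.deg p.2 + K.deg p.2 * K.deg ρ) *
        G.ini 0 (μ (Finsupp.single p.1 1) (Finsupp.single p.2 1) α)) •
        (G.mulG μ (G.grMap 0 (E p.1) (Finsupp.single ρ 1)) ∘ₗ G.grMap 0 (E p.2)) := by
    intro α ρ
    apply G.lin_ext
    intro σ
    have h1 := hEμ (K.deg α) (S (K.deg α)) (hS _) α rfl ρ σ
    have h2 := G.iniE_congr (w := 0) (m0 (∑ p ∈ S (K.deg α),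
      ((-1 : R) ^ (K.deg p.1 * K.deg p.2 + K.deg p.2 * K.deg ρ) *
          μ (Finsupp.single p.1 1) (Finsupp.single p.2 1) α) •
        μ (E p.1 (Finsupp.single ρ 1)) (E p.2 (Finsupp.single σ 1))))
      (x := E α (μ (Finsupp.single ρ 1) (Finsupp.single σ 1)))
      (fun a => by
        rw [zero_add, pow_one]
        exact h1 a)
    rw [LinearMap.comp_apply, X0, X0, hmulX, hEX, h2, G.iniE_sum 0 _ _ (fun _ _ a => m0 _ a),
      LinearMap.sum_apply]
    refine Finset.sum_congr rfl fun p _ => ?_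
    rw [G.iniE_smul_zero 0 _ _ (m0 _), ← hmulX, ← hEX, ← hEX, LinearMap.smul_apply,
      LinearMap.comp_apply]
    congr 1
    have h3 := G.ini_mul 0 0 ((-1 : R) ^ (K.deg p.1 * K.deg p.2 + K.deg p.2 * K.deg ρ))
      (μ (Finsupp.single p.1 1) (Finsupp.single p.2 1) α) (mem_pow_zero _) (mem_pow_zero _)
    rw [add_zero] at h3
    rw [h3, G.ini_neg_one_pow]
  have cop : ∀ α x N, (∀ γ, K.deg γ ≠ N → x γ = 0) → ∀ y,
      G.grMap 0 (E α) (G.mulG μ x y) =
      ∑ p ∈ S (K.deg α), ((-1 : G.𝔾) ^ (K.deg p.1 * K.deg p.2 + K.deg p.2 * N) *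
        G.ini 0 (μ (Finsupp.single p.1 1) (Finsupp.single p.2 1) α)) •
        G.mulG μ (G.grMap 0 (E p.1) x) (G.grMap 0 (E p.2) y) := by
    intro α x N hx y
    have hxs : x = ∑ ρ ∈ x.support, x ρ • Finsupp.single ρ (1 : G.𝔾) := by
      conv_lhs => rw [← Finsupp.sum_single x]
      rw [Finsupp.sum]
      refine Finset.sum_congr rfl fun a _ => ?_
      rw [Finsupp.smul_single, smul_eq_mul, mul_one]
    have h1 : ∀ ρ ∈ x.support, G.grMap 0 (E α) (G.mulG μ (Finsupp.single ρ 1) y) =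
        ∑ p ∈ S (K.deg α), ((-1 : G.𝔾) ^ (K.deg p.1 * K.deg p.2 + K.deg p.2 * N) *
        G.ini 0 (μ (Finsupp.single p.1 1) (Finsupp.single p.2 1) α)) •
        G.mulG μ (G.grMap 0 (E p.1) (Finsupp.single ρ 1)) (G.grMap 0 (E p.2) y) := by
      intro ρ hρ
      have hρN : K.deg ρ = N := by
        by_contra h
        exact (Finsupp.mem_support_iff.1 hρ) (hx ρ h)
      have h2 := LinearMap.congr_fun (copX α ρ) y
      rw [LinearMap.comp_apply, LinearMap.sum_apply] at h2
      rw [h2]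
      refine Finset.sum_congr rfl fun p _ => ?_
      rw [LinearMap.smul_apply, LinearMap.comp_apply, hρN]
    have h3 : G.grMap 0 (E α) (G.mulG μ x y) = ∑ ρ ∈ x.support, x ρ •
        G.grMap 0 (E α) (G.mulG μ (Finsupp.single ρ 1) y) := by
      conv_lhs => rw [hxs]
      rw [map_sum, LinearMap.sum_apply, map_sum]
      refine Finset.sum_congr rfl fun ρ _ => ?_
      rw [map_smul, LinearMap.smul_apply, map_smul]
    have h4 : ∀ p : I × I, G.mulG μ (G.grMap 0 (E p.1) x) (G.grMap 0 (E p.2) y) =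
        ∑ ρ ∈ x.support, x ρ •
          G.mulG μ (G.grMap 0 (E p.1) (Finsupp.single ρ 1)) (G.grMap 0 (E p.2) y) := by
      intro p
      conv_lhs => rw [hxs]
      rw [map_sum, map_sum, LinearMap.sum_apply]
      refine Finset.sum_congr rfl fun ρ _ => ?_
      rw [map_smul, map_smul, LinearMap.smul_apply]
    rw [h3, Finset.sum_congr rfl fun ρ hρ => by rw [h1 ρ hρ]]
    simp_rw [h4, Finset.smul_sum]
    rw [Finset.sum_comm]
    refine Finset.sum_congr rfl fun p _ => Finset.sum_congr rfl fun ρ _ => ?_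
    rw [smul_comm]
  refine ⟨{
    mul := G.mulG μ
    E := fun α => G.grMap 0 (E α)
    mul_supp := ?_
    one_mul' := ?_
    mul_one' := ?_
    leibniz := ?_
    E_supp := ?_
    E_self := ?_
    E_ne := ?_
    E_del := ?_
    E_der := ?_ }⟩
  · intro α β γ a h
    rw [X0 α, X0 β, hmulX, iniE_apply] at h
    obtain ⟨h1, h2⟩ := G.ini_mem_supp (mem_pow_zero _) h
    exact ⟨hμd α β γ h1, h2⟩
  · have : G.mulG μ (Finsupp.single K.o 1) = LinearMap.id := by
      apply G.lin_ext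
      intro β
      rw [LinearMap.id_apply, X0 K.o, X0 β, hmulX]
      exact G.iniE_congr (m0 _) fun a => by rw [zero_add, pow_one]; exact hμl β a
    intro x
    rw [this, LinearMap.id_apply]
  · have : (G.mulG μ).flip (Finsupp.single K.o 1) = LinearMap.id := by
      apply G.lin_ext
      intro β
      rw [LinearMap.id_apply, LinearMap.flip_apply, X0 K.o, X0 β, hmulX]
      exact G.iniE_congr (m0 _) fun a => by rw [zero_add, pow_one]; exact hμr β a
    intro x
    have h1 := LinearMap.congr_fun this x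
    rwa [LinearMap.flip_apply, LinearMap.id_apply] at h1
  · intro β y
    have : (G.grMap 1 K.D) ∘ₗ (G.mulG μ (Finsupp.single β 1)) =
        G.mulG μ (G.grMap 1 K.D (Finsupp.single β 1)) +
        (-1 : G.𝔾) ^ (K.deg β) • ((G.mulG μ (Finsupp.single β 1)) ∘ₗ (G.grMap 1 K.D)) := by
      apply G.lin_ext
      intro γ
      rw [LinearMap.comp_apply, LinearMap.add_apply, LinearMap.smul_apply, LinearMap.comp_apply,
        X0 β, X0 γ, hmulX, hD 0 _ (m0 _), hD 0 _ (m0 _), hD 0 _ (m0 _), hμD]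
      simp only [add_zero]
      rw [G.mulG_iniE μ (hDm0 _) (m0 _), G.mulG_iniE μ (m0 _) (hDm0 _)]
      simp only [add_zero, zero_add]
      have h1 : ∀ a, μ (K.D (Finsupp.single β 1)) (Finsupp.single γ 1) a ∈
          maximalIdeal R ^ 1 := by
        intro a
        have := map_mem (μ.flip (Finsupp.single γ 1)) (hDm0 (Finsupp.single β 1)) a
        exact this
      have h2 : ∀ a, μ (Finsupp.single β 1) (K.D (Finsupp.single γ 1)) a ∈
          maximalIdeal R ^ 1 := fun a => map_mem _ (hDm0 _) a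
      rw [G.iniE_add 1 _ _ h1 (fun a => by
        rw [Finsupp.smul_apply, smul_eq_mul]
        exact Ideal.mul_mem_left _ _ (h2 a)), hpow 1 _ _ h2]
    have h1 := LinearMap.congr_fun this y
    exact h1
  · intro α β γ a h
    rw [X0 β, hEX, iniE_apply] at h
    obtain ⟨h1, h2⟩ := G.ini_mem_supp (mem_pow_zero _) h
    exact ⟨hEd α β γ h1, h2⟩
  · intro β
    rw [X0 β, hEX, hEs, ← X0]
  · intro β γ h1 h2
    rw [X0 γ, hEX, hEn β γ h1 h2, G.iniE_zero]
  · intro β x
    have : (G.grMap 0 (E β)) ∘ₗ (G.grMap 1 K.D) =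
        (-1 : G.𝔾) ^ (K.deg β) • ((G.grMap 1 K.D) ∘ₗ (G.grMap 0 (E β))) := by
      apply G.lin_ext
      intro γ
      rw [LinearMap.comp_apply, LinearMap.smul_apply, LinearMap.comp_apply, X0 γ, hD 0 _ (m0 _),
        hEX, hD 0 _ (m0 _)]
      simp only [add_zero]
      rw [G.grMap_zero_iniE 1 _ _ (hDm0 _), hED, hpow 1 _ _ (hDm0 _)]
    exact LinearMap.congr_fun this x
  · intro α x N hα hx hmid y
    have h0 : (α, K.o) ≠ (K.o, α) := by
      intro h
      have : α = K.o := (Prod.mk.inj h).1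
      rw [this, K.deg_o] at hα
      exact lt_irrefl _ hα
    rw [cop α x N hx y, Finset.sum_eq_add (α, K.o) (K.o, α) h0]
    · simp only [K.deg_o, mul_zero, zero_mul, add_zero, zero_add, pow_zero, coefL, coefR,
        if_true, mul_one, one_smul, hEoG]
    · rintro ⟨γ, δ⟩ hp ⟨hne1, hne2⟩
      rw [hS] at hp
      simp only at hp
      rcases Nat.eq_zero_or_pos (K.deg γ) with h | h
      · have hγ := K.eq_o γ h
        subst hγ
        simp only
        rw [coefL, if_neg, mul_zero, zero_smul]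
        rintro rfl
        exact hne2 rfl
      · rcases Nat.eq_zero_or_pos (K.deg δ) with h' | h'
        · have hδ := K.eq_o δ h'
          subst hδ
          simp only
          rw [coefR, if_neg, mul_zero, zero_smul]
          rintro rfl
          exact hne1 rfl
        · simp only
          rw [hmid γ h (by omega), map_zero, LinearMap.zero_apply, smul_zero]
    · intro h
      exact absurd ((hS _ _).2 (by simp [K.deg_o])) h
    · intro h
      exact absurd ((hS _ _).2 (by simp [K.deg_o])) h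

end GrData

end Pool.Agent.Lib.MP_d42622_al
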