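import Pool.Agent.Lib.MP_d42622_al.Assemble
import Pool.Agent.Lib.MP_d42622_al.Bridge

/-!
Finiteness of the linear defect of the residue field forces a Noetherian local ring to be Koszul.
-/

namespace Pool.Agent.Lib.MP_d42622_al

open IsLocalRing

universe u

namespace MinFreeRes

variable {R : Type u} [CommRing R] [IsLocalRing R] {M : Type u} [AddCommGroup M] [Module R M]

theorem linDefect_eq_zero_iff (F : MinFreeRes R M) :
    F.linDefect = 0 ↔ ∀ i, F.LinExactAt i := by
  unfold linDefect
  constructor
  · intro h i
    by_contra hi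
    have h1 : ((i + 1 : ℕ) : ℕ∞) ≤ 0 := by
      rw [← h]
      exact le_iSup₂ (f := fun (i : ℕ) (_ : ¬ F.LinExactAt i) => ((i + 1 : ℕ) : ℕ∞)) i hi
    have h2 : (i + 1 : ℕ) ≤ 0 := by exact_mod_cast h1
    omega
  · intro h
    rw [← bot_eq_zero, iSup₂_eq_bot]
    intro i hi
    exact absurd (h i) hi

theorem exists_of_linDefect_lt_top (F : MinFreeRes R M) (h : F.linDefect < ⊤) :
    ∃ n, ∀ i, n ≤ i → F.LinExactAt i := by
  obtain ⟨n, hn⟩ := ENat.ne_top_iff_exists.1 h.ne
  refine ⟨n, fun i hi => ?_⟩
  by_contra hne
  have h1 : ((i + 1 : ℕ) : ℕ∞) ≤ F.linDefect :=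
    le_iSup₂ (f := fun (i : ℕ) (_ : ¬ F.LinExactAt i) => ((i + 1 : ℕ) : ℕ∞)) i hne
  rw [← hn] at h1
  have h2 : i + 1 ≤ n := by exact_mod_cast h1
  omega

/-- The linear defect does not depend on the minimal free resolution. -/
theorem linDefect_congr (F F' : MinFreeRes R M) : F.linDefect = F'.linDefect := by
  have h : ∀ i, F.LinExactAt i ↔ F'.LinExactAt i := fun i => by
    rw [← F.linExactAt_toFin, ← F'.linExactAt_toFin]
    exact ⟨F.toFin.linExactAt_congr F'.toFin i, F'.toFin.linExactAt_congr F.toFin i⟩
  unfold linDefect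
  simp only [h]

/-- The linear defect of a module is the linear defect of any minimal free resolution of it. -/
theorem linearDefect_eq (F : MinFreeRes R M) : linearDefect R M = F.linDefect := by
  unfold linearDefect
  apply le_antisymm
  · exact iSup_le fun F' => (F'.linDefect_congr F).le
  · exact le_iSup (fun F' : MinFreeRes R M => F'.linDefect) F

/-- Finitely generated modules over Noetherian local rings have minimal free resolutions. -/
theorem nonempty_minFreeRes [IsNoetherianRing R] [Module.Finite R M] :
    Nonempty (MinFreeRes R M) := by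
  obtain ⟨F⟩ := nonempty_minimalFreeResolution (R := R) (M := M)
  exact ⟨ofFin F⟩

end MinFreeRes

/-- If the residue field of a Noetherian local ring has finite linear defect, then its linear
defect is zero. -/
theorem linearDefect_residueField (R : Type u) [CommRing R] [IsLocalRing R] [IsNoetherianRing R]
    (h : linearDefect R (ResidueField R) < ⊤) : linearDefect R (ResidueField R) = 0 := by
  obtain ⟨F⟩ := MinFreeRes.nonempty_minFreeRes (R := R) (M := ResidueField R)
  rw [F.linearDefect_eq] at h ⊢
  obtain ⟨n, hn⟩ := F.exists_of_linDefect_lt_top h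
  rw [F.linDefect_eq_zero_iff]
  intro i
  rw [← F.linExactAt_toFin]
  refine F.toFin.linExactAt_of_tail n (fun j hj => ?_) i
  rw [F.linExactAt_toFin]
  exact hn j hj

end Pool.Agent.Lib.MP_d42622_al
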