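import Mathlib

/-!
Minimal free resolutions over a local ring, the linear part of a minimal free resolution, the
linear defect, Koszul local rings and absolutely Koszul local rings.
-/

namespace Pool.Agent.Lib.MP_d42622_al

open IsLocalRing

universe u

section Gr

variable (R : Type u) [CommRing R] [IsLocalRing R] (N : Type u) [AddCommGroup N] [Module R N]

/-- The submodule `𝔪 ^ w N` of the module `N` over the local ring `R`. -/
def mPow (w : ℕ) : Submodule R N := maximalIdeal R ^ w • ⊤

/-- The module `𝔪 ^ w N / 𝔪 ^ (w + 1) N`. -/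
def GrPiece (w : ℕ) : Type u := mPow R N w ⧸ (mPow R N (w + 1)).submoduleOf (mPow R N w)

instance grPieceGroup (w : ℕ) : AddCommGroup (GrPiece R N w) :=
  Submodule.Quotient.addCommGroup _

instance grPieceModule (w : ℕ) : Module R (GrPiece R N w) :=
  Submodule.Quotient.module _

variable {R N} {N' : Type u} [AddCommGroup N'] [Module R N']

theorem map_mem_mPow (f : N →ₗ[R] N') (hf : LinearMap.range f ≤ mPow R N' 1) (w : ℕ) (x : N)
    (hx : x ∈ mPow R N w) : f x ∈ mPow R N' (w + 1) := by
  have h : (mPow R N w).map f ≤ mPow R N' (w + 1) := by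
    unfold mPow at hf ⊢
    rw [Submodule.map_smul'', pow_succ, mul_smul, Submodule.map_top]
    refine smul_mono_right _ ?_
    rwa [pow_one] at hf
  exact h ⟨x, hx, rfl⟩

/-- The map `𝔪 ^ w N / 𝔪 ^ (w + 1) N → 𝔪 ^ (w + 1) N' / 𝔪 ^ (w + 2) N'` induced by a linear map
`f : N → N'` with `f(N) ⊆ 𝔪 N'`. -/
def grPieceMap (f : N →ₗ[R] N') (hf : LinearMap.range f ≤ mPow R N' 1) (w : ℕ) :
    GrPiece R N w →ₗ[R] GrPiece R N' (w + 1) :=
  Submodule.mapQ _ _ (f.restrict (map_mem_mPow f hf w)) fun x => map_mem_mPow f hf (w + 1) x.1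

end Gr

/-- A minimal free resolution `⋯ → F 2 → F 1 → F 0 → M → 0` of the module `M` over the local ring
`R` by finitely generated free modules. -/
structure MinFreeRes (R : Type u) [CommRing R] [IsLocalRing R] (M : Type u) [AddCommGroup M]
    [Module R M] where
  /-- The free modules `F i`. -/
  F : ℕ → Type u
  [group : ∀ i, AddCommGroup (F i)]
  [module : ∀ i, Module R (F i)]
  free : ∀ i, Module.Free R (F i)
  finite : ∀ i, Module.Finite R (F i)
  /-- The differential `d i : F (i + 1) → F i`. -/
  d : ∀ i, F (i + 1) →ₗ[R] F i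
  /-- The augmentation `F 0 → M`. -/
  aug : F 0 →ₗ[R] M
  aug_surjective : Function.Surjective aug
  exact_zero : LinearMap.range (d 0) = LinearMap.ker aug
  exact_succ : ∀ i, LinearMap.range (d (i + 1)) = LinearMap.ker (d i)
  minimal : ∀ i, LinearMap.range (d i) ≤ mPow R (F i) 1

attribute [instance] MinFreeRes.group MinFreeRes.module

namespace MinFreeRes

variable {R : Type u} [CommRing R] [IsLocalRing R] {M : Type u} [AddCommGroup M] [Module R M]
variable (F : MinFreeRes R M)

/-- The differential `𝔪 ^ w F_{i+1} / 𝔪 ^ (w + 1) F_{i+1} → 𝔪 ^ (w + 1) F_i / 𝔪 ^ (w + 2) F_i` of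
the strand `lin_{i+1+w}(F)` of the linear part of `F`, induced by the differential of `F`. -/
def lin (i w : ℕ) : GrPiece R (F.F (i + 1)) w →ₗ[R] GrPiece R (F.F i) (w + 1) :=
  grPieceMap (F.d i) (F.minimal i) w

/-- `H_{i+1}(lin(F)) = 0`: each strand of the linear part of `F` is exact in homological degree
`i + 1`. The first condition is exactness at `F_{i+1} / 𝔪 F_{i+1}`, where nothing comes in; the
second one is exactness at `𝔪 ^ (w + 1) F_{i+1} / 𝔪 ^ (w + 2) F_{i+1}`. -/
def LinExactAt (i : ℕ) : Prop :=
  LinearMap.ker (F.lin i 0) = ⊥ ∧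
    ∀ w, LinearMap.ker (F.lin i (w + 1)) = LinearMap.range (F.lin (i + 1) w)

/-- The linear defect `sup {j | H_j(lin(F)) ≠ 0}` computed from the minimal free resolution `F`.
The supremum is taken in `ℕ∞`, so `j = 0` does not contribute and only `j = i + 1` is listed. -/
noncomputable def linDefect : ℕ∞ := ⨆ (i : ℕ) (_ : ¬ F.LinExactAt i), ((i + 1 : ℕ) : ℕ∞)

end MinFreeRes

/-- The linear defect `ld_R(M)` of `M`: the linear defect computed from the minimal free
resolutions of `M`. -/
noncomputable def linearDefect (R : Type u) [CommRing R] [IsLocalRing R] (M : Type u)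
    [AddCommGroup M] [Module R M] : ℕ∞ :=
  ⨆ F : MinFreeRes R M, F.linDefect

/-- The local ring `R` is Koszul: its residue field has linear defect `0`. -/
def IsKoszul (R : Type u) [CommRing R] [IsLocalRing R] : Prop :=
  linearDefect R (ResidueField R) = 0

/-- The local ring `R` is absolutely Koszul: every finitely generated module has finite linear
defect. -/
def IsAbsolutelyKoszul (R : Type u) [CommRing R] [IsLocalRing R] : Prop :=
  ∀ (M : Type u) [AddCommGroup M] [Module R M], Module.Finite R M → linearDefect R M < ⊤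

end Pool.Agent.Lib.MP_d42622_al
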