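import Mathlib

/-!
Supertraces on the strands of a bigraded vector space with a homogeneous basis.
-/

namespace Pool.Agent.Lib.MP_d42622_al

/-- A vector space with a basis indexed by `J` whose elements have a degree and a weight, such that
the strands (degree plus weight equal to a given number) are finite. -/
structure Bigr (k P J : Type*) [Field k] [AddCommGroup P] [Module k P] where
  B : Module.Basis J k P
  dg : J → ℤ
  wt : J → ℤ
  fin : ∀ j, {c | dg c + wt c = j}.Finite

namespace Bigr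

variable {k P J : Type*} [Field k] [AddCommGroup P] [Module k P] (V : Bigr k P J)

/-- Homogeneous elements of degree `i` and weight `w`. -/
def PP (i w : ℤ) : Submodule k P := Submodule.span k (V.B '' {c | V.dg c = i ∧ V.wt c = w})

theorem mem_PP {i w : ℤ} {x : P} :
    x ∈ V.PP i w ↔ ∀ c, V.B.repr x c ≠ 0 → V.dg c = i ∧ V.wt c = w := by
  unfold PP
  rw [Module.Basis.mem_span_image]
  constructor
  · intro h c hc
    exact h (by simpa using hc)
  · intro h c hc
    exact h c (by simpa using hc)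

theorem B_mem (c : J) : V.B c ∈ V.PP (V.dg c) (V.wt c) :=
  Submodule.subset_span ⟨c, ⟨rfl, rfl⟩, rfl⟩

theorem B_mem' {c : J} {i w : ℤ} (h : V.dg c = i) (h' : V.wt c = w) : V.B c ∈ V.PP i w := by
  subst h h'; exact V.B_mem c

/-- Homogeneous operators of bidegree `(a, b)`. -/
def Hm (a b : ℤ) (φ : Module.End k P) : Prop :=
  ∀ c, φ (V.B c) ∈ V.PP (V.dg c + a) (V.wt c + b)

variable {V}

theorem Hm.apply {a b : ℤ} {φ : Module.End k P} (h : V.Hm a b φ) {i w i' w' : ℤ} {x : P}
    (hx : x ∈ V.PP i w) (hi : i' = i + a) (hw : w' = w + b) : φ x ∈ V.PP i' w' := by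
  subst hi hw
  unfold PP at hx
  induction hx using Submodule.span_induction with
  | mem x hx =>
    obtain ⟨c, ⟨rfl, rfl⟩, rfl⟩ := hx
    exact h c
  | zero => simp
  | add x y _ _ hx hy => rw [map_add]; exact Submodule.add_mem _ hx hy
  | smul t x _ hx => rw [map_smul]; exact Submodule.smul_mem _ _ hx

theorem Hm.mul {a b a' b' a'' b'' : ℤ} {φ ψ : Module.End k P} (h : V.Hm a b φ)
    (h' : V.Hm a' b' ψ) (ha : a'' = a' + a) (hb : b'' = b' + b) : V.Hm a'' b'' (φ * ψ) := by
  intro c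
  exact h.apply (h' c) (by omega) (by omega)

theorem Hm.add {a b : ℤ} {φ ψ : Module.End k P} (h : V.Hm a b φ)
    (h' : V.Hm a b ψ) : V.Hm a b (φ + ψ) := by
  intro c
  exact Submodule.add_mem _ (h c) (h' c)

theorem Hm.neg {a b : ℤ} {φ : Module.End k P} (h : V.Hm a b φ) : V.Hm a b (-φ) := by
  intro c
  exact Submodule.neg_mem _ (h c)

theorem Hm.sub {a b : ℤ} {φ ψ : Module.End k P} (h : V.Hm a b φ)
    (h' : V.Hm a b ψ) : V.Hm a b (φ - ψ) := by
  intro c
  exact Submodule.sub_mem _ (h c) (h' c)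

theorem Hm.smul {a b : ℤ} {φ : Module.End k P} (h : V.Hm a b φ) (t : k) :
    V.Hm a b (t • φ) := by
  intro c
  exact Submodule.smul_mem _ _ (h c)

theorem Hm.one : V.Hm 0 0 1 := by
  intro c
  simpa using V.B_mem c

variable (V)

/-- The sign operator. -/
noncomputable def ep : Module.End k P := V.B.constr k fun c => ((-1 : k) ^ (V.dg c)) • V.B c

theorem ep_B (c : J) : V.ep (V.B c) = ((-1 : k) ^ (V.dg c)) • V.B c := by
  simp [ep]

theorem ep_apply {i w : ℤ} {x : P} (hx : x ∈ V.PP i w) : V.ep x = ((-1 : k) ^ i) • x := by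
  unfold PP at hx
  induction hx using Submodule.span_induction with
  | mem x hx =>
    obtain ⟨c, ⟨rfl, rfl⟩, rfl⟩ := hx
    exact V.ep_B c
  | zero => simp
  | add x y _ _ hx hy => rw [map_add, hx, hy, smul_add]
  | smul t x _ hx => rw [map_smul, hx, smul_comm]

theorem ep_ep : V.ep * V.ep = 1 := by
  apply V.B.ext
  intro c
  rw [Module.End.mul_apply, V.ep_B, map_smul, V.ep_B, smul_smul, ← mul_zpow]
  simp

/-- Conjugation with the sign operator. -/
noncomputable def cj (φ : Module.End k P) : Module.End k P := V.ep * φ * V.ep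

theorem cj_mul (φ ψ : Module.End k P) : V.cj (φ * ψ) = V.cj φ * V.cj ψ := by
  have : V.cj φ * V.cj ψ = V.ep * φ * (V.ep * V.ep) * ψ * V.ep := by
    unfold cj; noncomm_ring
  rw [this, V.ep_ep]
  unfold cj; noncomm_ring

theorem cj_cj (φ : Module.End k P) : V.cj (V.cj φ) = φ := by
  have : V.cj (V.cj φ) = (V.ep * V.ep) * φ * (V.ep * V.ep) := by
    unfold cj; noncomm_ring
  rw [this, V.ep_ep]; simp

theorem cj_sub (φ ψ : Module.End k P) : V.cj (φ - ψ) = V.cj φ - V.cj ψ := by
  unfold cj; noncomm_ring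

theorem cj_add (φ ψ : Module.End k P) : V.cj (φ + ψ) = V.cj φ + V.cj ψ := by
  unfold cj; noncomm_ring

theorem cj_neg (φ : Module.End k P) : V.cj (-φ) = -V.cj φ := by
  unfold cj; noncomm_ring

variable {V}

theorem Hm.cj {a b : ℤ} {φ : Module.End k P} (h : V.Hm a b φ) :
    V.cj φ = ((-1 : k) ^ a) • φ := by
  apply V.B.ext
  intro c
  have h1 : V.cj φ (V.B c) = V.ep (φ (V.ep (V.B c))) := rfl
  rw [h1, V.ep_B, map_smul, map_smul, V.ep_apply (h c), smul_smul, LinearMap.smul_apply]
  congr 1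
  rw [zpow_add₀ (by simp), ← mul_assoc, ← mul_zpow]
  simp

theorem Hm.cj_odd {b : ℤ} {φ : Module.End k P} (h : V.Hm (-1) b φ) :
    V.cj φ = -φ := by
  rw [h.cj]; simp

theorem Hm.cj_odd' {b : ℤ} {φ : Module.End k P} (h : V.Hm 1 b φ) :
    V.cj φ = -φ := by
  rw [h.cj]; simp

variable (V)

/-- Matrix entries. -/
noncomputable def ent (φ : Module.End k P) (c c' : J) : k := V.B.repr (φ (V.B c')) c

theorem ent_mul (φ ψ : Module.End k P) (c c'' : J) (T : Finset J)
    (h : ∀ c', c' ∉ T → V.ent φ c c' * V.ent ψ c' c'' = 0) :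
    V.ent (φ * ψ) c c'' = ∑ c' ∈ T, V.ent φ c c' * V.ent ψ c' c'' := by
  have h1 : φ (ψ (V.B c'')) =
      ∑ c' ∈ (V.B.repr (ψ (V.B c''))).support, V.ent ψ c' c'' • φ (V.B c') := by
    conv_lhs => rw [← V.B.linearCombination_repr (ψ (V.B c''))]
    rw [Finsupp.linearCombination_apply, Finsupp.sum, map_sum]
    simp [ent]
  have h2 : V.ent (φ * ψ) c c'' =
      ∑ c' ∈ (V.B.repr (ψ (V.B c''))).support, V.ent φ c c' * V.ent ψ c' c'' := by
    unfold ent at h1 ⊢
    rw [Module.End.mul_apply, h1]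
    simp [mul_comm]
  rw [h2]
  classical
  have h3 : ∑ c' ∈ (V.B.repr (ψ (V.B c''))).support, V.ent φ c c' * V.ent ψ c' c'' =
      ∑ c' ∈ (V.B.repr (ψ (V.B c''))).support ∪ T, V.ent φ c c' * V.ent ψ c' c'' := by
    apply Finset.sum_subset Finset.subset_union_left
    intro c' _ hc'
    have : V.ent ψ c' c'' = 0 := by simpa [ent] using hc'
    rw [this, mul_zero]
  rw [h3]
  symm
  apply Finset.sum_subset Finset.subset_union_right
  intro c' _ hc'
  exact h c' hc'

/-- The strand `j`. -/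
noncomputable def strand (j : ℤ) : Finset J := (V.fin j).toFinset

theorem mem_strand {j : ℤ} {c : J} : c ∈ V.strand j ↔ V.dg c + V.wt c = j := by
  simp [strand]

/-- The supertrace on the strand `j`. -/
noncomputable def str (j : ℤ) : Module.End k P →ₗ[k] k where
  toFun φ := ∑ c ∈ V.strand j, (-1 : k) ^ (V.dg c) * V.ent φ c c
  map_add' φ ψ := by
    rw [← Finset.sum_add_distrib]
    exact Finset.sum_congr rfl fun c _ => by simp [ent, mul_add]
  map_smul' t φ := by
    rw [RingHom.id_apply, smul_eq_mul, Finset.mul_sum]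
    exact Finset.sum_congr rfl fun c _ => by simp [ent]; ring

theorem str_apply (j : ℤ) (φ : Module.End k P) :
    V.str j φ = ∑ c ∈ V.strand j, (-1 : k) ^ (V.dg c) * V.ent φ c c := rfl

variable {V}

theorem Hm.ent_ne {a b : ℤ} {φ : Module.End k P} (h : V.Hm a b φ) {c c' : J}
    (hc : V.ent φ c c' ≠ 0) : V.dg c = V.dg c' + a ∧ V.wt c = V.wt c' + b :=
  V.mem_PP.1 (h c') c hc

/-- Cyclicity of the supertrace. -/
theorem Hm.str_mul {a b : ℤ} {ψ : Module.End k P} (h : V.Hm a b ψ) (φ : Module.End k P)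
    {j j' : ℤ} (hj : j' = j + a + b) :
    V.str j (φ * ψ) = (-1 : k) ^ a * V.str j' (ψ * φ) := by
  subst hj
  rw [str_apply, str_apply, Finset.mul_sum]
  have e1 : ∀ c ∈ V.strand j, (-1 : k) ^ (V.dg c) * V.ent (φ * ψ) c c =
      ∑ c' ∈ V.strand (j + a + b), (-1 : k) ^ (V.dg c) * (V.ent φ c c' * V.ent ψ c' c) := by
    intro c hc
    rw [V.ent_mul φ ψ c c (V.strand (j + a + b)), Finset.mul_sum]
    intro c' hc'
    by_contra hne
    have := h.ent_ne (right_ne_zero_of_mul hne)
    rw [mem_strand] at hc hc'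
    omega
  have e2 : ∀ c' ∈ V.strand (j + a + b), (-1 : k) ^ a * ((-1 : k) ^ (V.dg c') *
      V.ent (ψ * φ) c' c') =
      ∑ c ∈ V.strand j, (-1 : k) ^ (V.dg c) * (V.ent φ c c' * V.ent ψ c' c) := by
    intro c' hc'
    rw [V.ent_mul ψ φ c' c' (V.strand j), Finset.mul_sum, Finset.mul_sum]
    · apply Finset.sum_congr rfl
      intro c hc
      by_cases h0 : V.ent ψ c' c = 0
      · simp [h0]
      · have := h.ent_ne h0
        rw [this.1, zpow_add₀ (by simp)]
        have h1 : (-1 : k) ^ a * (-1 : k) ^ a = 1 := by rw [← mul_zpow]; simp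
        calc (-1 : k) ^ a * ((-1 : k) ^ V.dg c * (-1 : k) ^ a * (V.ent ψ c' c * V.ent φ c c'))
            = ((-1 : k) ^ a * (-1 : k) ^ a) * ((-1 : k) ^ V.dg c *
              (V.ent φ c c' * V.ent ψ c' c)) := by ring
          _ = _ := by rw [h1, one_mul]
    · intro c hc
      by_contra hne
      have := h.ent_ne (left_ne_zero_of_mul hne)
      rw [mem_strand] at hc hc'
      omega
  rw [Finset.sum_congr rfl e1, Finset.sum_congr rfl e2, Finset.sum_comm]

variable (V)

theorem ent_cj (φ : Module.End k P) (c c' : J) :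
    V.ent (V.cj φ) c c' = (-1 : k) ^ (V.dg c) * (-1 : k) ^ (V.dg c') * V.ent φ c c' := by
  have h0 : ∀ x : P, V.B.repr (V.ep x) c = (-1 : k) ^ (V.dg c) * V.B.repr x c := by
    intro x
    have : (V.B.coord c) ∘ₗ V.ep = ((-1 : k) ^ (V.dg c)) • V.B.coord c := by
      apply V.B.ext
      intro d
      simp only [LinearMap.comp_apply, V.ep_B, map_smul, LinearMap.smul_apply,
        Module.Basis.coord_apply, Module.Basis.repr_self, smul_eq_mul]
      by_cases h : d = c
      · rw [h]
      · simp [Finsupp.single_eq_of_ne' h]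
    exact LinearMap.congr_fun this x
  unfold ent
  have h1 : V.cj φ (V.B c') = V.ep (φ (V.ep (V.B c'))) := rfl
  rw [h1, h0, V.ep_B, map_smul, map_smul, Finsupp.smul_apply, smul_eq_mul, mul_assoc]

theorem str_cj (j : ℤ) (φ : Module.End k P) : V.str j (V.cj φ) = V.str j φ := by
  rw [str_apply, str_apply]
  apply Finset.sum_congr rfl
  intro c _
  rw [ent_cj, ← mul_zpow]
  simp

variable {V}

/-- Cyclicity for an odd operator of degree `-1`. -/
theorem Hm.str_cj_mul {b : ℤ} {ψ : Module.End k P} (h : V.Hm (-1) b ψ) (φ : Module.End k P)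
    {j j' : ℤ} (hj : j' = j - 1 + b) :
    V.str j (V.cj φ * ψ) = V.str j' (ψ * φ) := by
  have h1 : V.cj φ * ψ = - V.cj (φ * ψ) := by
    rw [V.cj_mul, h.cj_odd]; simp
  rw [h1, map_neg, V.str_cj, h.str_mul φ (j' := j') (by omega)]
  simp

theorem str_eq_zero_of_range {φ : Module.End k P} {j : ℤ}
    (h : ∀ c c', V.dg c + V.wt c = j → V.ent φ c c' = 0) : V.str j φ = 0 := by
  rw [str_apply]
  apply Finset.sum_eq_zero
  intro c hc
  rw [mem_strand] at hc
  rw [h c c hc, mul_zero]

end Bigr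

end Pool.Agent.Lib.MP_d42622_al
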