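import Pool.Agent.Lib.MP_d42622_al.Gr

/-!
The total complex of a minimal free resolution of the residue field, and the linear maps induced
on the associated graded modules.
-/

namespace Pool.Agent.Lib.MP_d42622_al

open IsLocalRing

universe u

/-- The total module of a minimal free resolution of the residue field: a free module on `I` with
a degree function and a differential of degree `-1`. -/
structure TotRes (R : Type u) [CommRing R] [IsLocalRing R] (I : Type) where
  deg : I → ℕ
  finite_deg : ∀ n, {β | deg β = n}.Finite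
  o : I
  deg_o : deg o = 0
  eq_o : ∀ β, deg β = 0 → β = o
  D : (I →₀ R) →ₗ[R] (I →₀ R)
  D_deg : ∀ β γ, D (Finsupp.single β 1) γ ≠ 0 → deg γ + 1 = deg β
  D_mem : ∀ β γ, D (Finsupp.single β 1) γ ∈ maximalIdeal R
  D_D : ∀ x, D (D x) = 0
  exact : ∀ n x, (∀ γ, x γ ≠ 0 → deg γ = n + 1) → D x = 0 →
    ∃ y, (∀ γ, y γ ≠ 0 → deg γ = n + 2) ∧ D y = x
  exact_zero : ∀ a ∈ maximalIdeal R, ∃ y, (∀ γ, y γ ≠ 0 → deg γ = 1) ∧ D y = Finsupp.single o a

namespace MinimalFreeResolution

variable {R : Type u} [CommRing R] [IsLocalRing R] {M : Type u} [AddCommGroup M] [Module R M]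
variable (F : MinimalFreeResolution R M)

/-- The index set of the basis of `⨁ F_i`. -/
abbrev Idx : Type := Σ i : ℕ, Fin (F.rank i)

/-- The embedding of `F_i` in `⨁ F_i`. -/
noncomputable def emb (i : ℕ) : (Fin (F.rank i) → R) →ₗ[R] (F.Idx →₀ R) :=
  ∑ a : Fin (F.rank i), (Finsupp.lsingle (⟨i, a⟩ : F.Idx)) ∘ₗ LinearMap.proj a

/-- The image of a basis element under the total differential. -/
noncomputable def totX : F.Idx → (F.Idx →₀ R)
  | ⟨0, _⟩ => 0
  | ⟨i + 1, a⟩ => F.emb i (F.d i (Pi.single a 1))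

/-- The total differential. -/
noncomputable def totD : (F.Idx →₀ R) →ₗ[R] (F.Idx →₀ R) :=
  Finsupp.linearCombination R F.totX

end MinimalFreeResolution

namespace GrData

variable {R : Type u} [CommRing R] [IsLocalRing R] (G : GrData R)

theorem ini_apply_zero (w : ℕ) : G.ini w 0 = 0 :=
  (G.ini_eq_zero_iff w 0 (Submodule.zero_mem _)).2 (Submodule.zero_mem _)

/-- The initial form of weight `w` of an element of a free module. -/
noncomputable def iniE {A : Type*} (w : ℕ) (x : A →₀ R) : A →₀ G.𝔾 :=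
  x.mapRange (G.ini w) (G.ini_apply_zero w)

/-- The map induced on associated graded modules by a linear map with entries in `𝔪 ^ w`. -/
noncomputable def grMap {A B : Type*} (w : ℕ) (f : (A →₀ R) →ₗ[R] (B →₀ R)) :
    (A →₀ G.𝔾) →ₗ[G.𝔾] (B →₀ G.𝔾) :=
  Finsupp.linearCombination G.𝔾 fun a => G.iniE w (f (Finsupp.single a 1))

/-- The matrix entries of `f` lie in `𝔪 ^ w`. -/
def Ent {A B : Type*} (w : ℕ) (f : (A →₀ R) →ₗ[R] (B →₀ R)) : Prop :=
  ∀ a b, f (Finsupp.single a 1) b ∈ maximalIdeal R ^ w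

end GrData

end Pool.Agent.Lib.MP_d42622_al
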